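import Pool.Agent.LibBar93.Interp

/-! A law on the subsets of a finite set `S` which is never empty and whose inclusion
probabilities of order at most `k` are those of independent events. -/

namespace Pool.Agent.LibBar93

open Finset

/-- the product weight -/
noncomputable def pw (S : Finset ℕ) (θ : ℕ → ℝ) (ω : Finset ℕ) : ℝ :=
  (∏ n ∈ ω, θ n) * ∏ n ∈ S \ ω, (1 - θ n)

theorem pw_sum (S : Finset ℕ) (θ : ℕ → ℝ) : ∑ ω ∈ S.powerset, pw S θ ω = 1 := by
  have h := Finset.prod_add (fun n => θ n) (fun n => 1 - θ n) S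
  unfold pw
  rw [← h]
  exact Finset.prod_eq_one fun n _ => by ring

theorem pw_incl (S : Finset ℕ) (θ : ℕ → ℝ) (J : Finset ℕ) (hJ : J ⊆ S) :
    ∑ ω ∈ S.powerset with J ⊆ ω, pw S θ ω = ∏ n ∈ J, θ n := by
  have h1 : ∑ ω ∈ S.powerset with J ⊆ ω, pw S θ ω
      = ∑ ω ∈ (S \ J).powerset, (∏ n ∈ J, θ n) * pw (S \ J) θ ω := by
    refine Finset.sum_bij' (fun ω _ => ω \ J) (fun ω _ => J ∪ ω) ?_ ?_ ?_ ?_ ?_
    · intro ω hω
      rw [Finset.mem_filter, Finset.mem_powerset] at hω
      rw [Finset.mem_powerset]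
      exact Finset.sdiff_subset_sdiff hω.1 (subset_refl _)
    · intro ω hω
      rw [Finset.mem_powerset] at hω
      rw [Finset.mem_filter, Finset.mem_powerset]
      exact ⟨Finset.union_subset hJ (hω.trans Finset.sdiff_subset), Finset.subset_union_left⟩
    · intro ω hω
      rw [Finset.mem_filter] at hω
      exact Finset.union_sdiff_of_subset hω.2
    · intro ω hω
      rw [Finset.mem_powerset] at hω
      rw [Finset.union_sdiff_left]
      refine Finset.sdiff_eq_self_of_disjoint ?_
      exact Finset.disjoint_of_subset_left hω Finset.sdiff_disjoint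
    · intro ω hω
      rw [Finset.mem_filter, Finset.mem_powerset] at hω
      unfold pw
      have e1 : ∏ n ∈ ω, θ n = (∏ n ∈ J, θ n) * ∏ n ∈ ω \ J, θ n := by
        rw [mul_comm, Finset.prod_sdiff hω.2]
      have e2 : (S \ J) \ (ω \ J) = S \ ω := by
        ext n
        simp only [Finset.mem_sdiff]
        constructor
        · rintro ⟨⟨a, b⟩, c⟩
          exact ⟨a, fun h => c ⟨h, b⟩⟩
        · rintro ⟨a, b⟩
          exact ⟨⟨a, fun h => b (hω.2 h)⟩, fun h => b h.1⟩
      rw [e1, e2]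
      ring
  rw [h1, ← Finset.mul_sum, pw_sum, mul_one]

/-- the number of the `n`-element sets between `J` and `S` -/
theorem card_incl (S J : Finset ℕ) (hJ : J ⊆ S) (n : ℕ) (hn : J.card ≤ n) :
    (((S.powersetCard n).filter (fun ω => J ⊆ ω)).card) = (S.card - J.card).choose (n - J.card) := by
  rw [← Finset.card_sdiff_of_subset hJ, ← Finset.card_powersetCard]
  refine Finset.card_bij' (fun ω _ => ω \ J) (fun ω _ => J ∪ ω) ?_ ?_ ?_ ?_
  · intro ω hω
    rw [Finset.mem_filter, Finset.mem_powersetCard] at hω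
    rw [Finset.mem_powersetCard]
    refine ⟨Finset.sdiff_subset_sdiff hω.1.1 (subset_refl _), ?_⟩
    rw [Finset.card_sdiff_of_subset hω.2, hω.1.2]
  · intro ω hω
    rw [Finset.mem_powersetCard] at hω
    rw [Finset.mem_filter, Finset.mem_powersetCard]
    refine ⟨⟨Finset.union_subset hJ (hω.1.trans Finset.sdiff_subset), ?_⟩,
      Finset.subset_union_left⟩
    rw [Finset.card_union_of_disjoint, hω.2]
    · omega
    · exact (Finset.disjoint_of_subset_left hω.1 Finset.sdiff_disjoint).symm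
  · intro ω hω
    rw [Finset.mem_filter] at hω
    exact Finset.union_sdiff_of_subset hω.2
  · intro ω hω
    rw [Finset.mem_powersetCard] at hω
    rw [Finset.union_sdiff_left]
    refine Finset.sdiff_eq_self_of_disjoint ?_
    exact Finset.disjoint_of_subset_left hω.1 Finset.sdiff_disjoint

/-- the correction -/
noncomputable def cor (S : Finset ℕ) (θ : ℕ → ℝ) (k : ℕ) (ω : Finset ℕ) : ℝ :=
  (∏ n ∈ S, (1 - θ n)) * ((∑ i ∈ range (k + 1), if ω.card = k + 1 + i then
    cw k i / (S.card.choose (k + 1 + i) : ℝ) else 0) - if ω = ∅ then 1 else 0)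

theorem cor_incl (S : Finset ℕ) (θ : ℕ → ℝ) (k : ℕ) (hS : 2 * k + 1 ≤ S.card) (J : Finset ℕ)
    (hJ : J ⊆ S) (hk : J.card ≤ k) :
    ∑ ω ∈ S.powerset with J ⊆ ω, cor S θ k ω = 0 := by
  unfold cor
  rw [← Finset.mul_sum, Finset.sum_sub_distrib, Finset.sum_comm]
  have hin : ∀ i ∈ range (k + 1), (∑ ω ∈ S.powerset with J ⊆ ω, (if ω.card = k + 1 + i then
      cw k i / (S.card.choose (k + 1 + i) : ℝ) else 0))
      = cw k i * ((k + 1 + i).choose J.card : ℝ) / (S.card.choose J.card : ℝ) := by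
    intro i hi
    rw [Finset.mem_range] at hi
    rw [← Finset.sum_filter, Finset.sum_const, nsmul_eq_mul, Finset.filter_filter]
    have e1 : (S.powerset.filter (fun ω => J ⊆ ω ∧ ω.card = k + 1 + i))
        = (S.powersetCard (k + 1 + i)).filter (fun ω => J ⊆ ω) := by
      ext ω
      simp only [Finset.mem_filter, Finset.mem_powerset, Finset.mem_powersetCard]
      tauto
    rw [e1, card_incl S J hJ _ (by omega)]
    have hc : J.card ≤ S.card := Finset.card_le_card hJ
    have key : S.card.choose (k + 1 + i) * (k + 1 + i).choose J.card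
        = S.card.choose J.card * (S.card - J.card).choose (k + 1 + i - J.card) :=
      Nat.choose_mul (by omega)
    have key' : (S.card.choose (k + 1 + i) : ℝ) * ((k + 1 + i).choose J.card : ℝ)
        = (S.card.choose J.card : ℝ) * ((S.card - J.card).choose (k + 1 + i - J.card) : ℝ) := by
      exact_mod_cast key
    have p1 : (0 : ℝ) < (S.card.choose (k + 1 + i) : ℝ) := by
      exact_mod_cast Nat.choose_pos (by omega)
    have p2 : (0 : ℝ) < (S.card.choose J.card : ℝ) := by
      exact_mod_cast Nat.choose_pos hc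
    rw [← mul_div_assoc, div_eq_div_iff p1.ne' p2.ne']
    linear_combination (-cw k i) * key'
  rw [Finset.sum_congr rfl hin]
  rcases Nat.eq_zero_or_pos J.card with h0 | hpos
  · have hJe : J = ∅ := Finset.card_eq_zero.mp h0
    subst hJe
    have e2 : ∑ i ∈ range (k + 1), cw k i * ((k + 1 + i).choose (∅ : Finset ℕ).card : ℝ) /
        (S.card.choose (∅ : Finset ℕ).card : ℝ) = 1 := by
      simp [cw_sum]
    have e3 : ∑ ω ∈ S.powerset with ∅ ⊆ ω, (if ω = ∅ then (1 : ℝ) else 0) = 1 := by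
      rw [Finset.sum_ite_eq' _ ∅ (fun _ => (1 : ℝ))]
      simp
    rw [e2, e3]
    ring
  · have e2 : ∑ i ∈ range (k + 1), cw k i * ((k + 1 + i).choose J.card : ℝ) /
        (S.card.choose J.card : ℝ) = 0 := by
      rw [← Finset.sum_div, cw_choose k J.card hpos hk, zero_div]
    have e3 : ∑ ω ∈ S.powerset with J ⊆ ω, (if ω = ∅ then (1 : ℝ) else 0) = 0 := by
      refine Finset.sum_eq_zero fun ω hω => ?_
      rw [Finset.mem_filter] at hω
      rw [if_neg]
      rintro rfl
      have := Finset.card_le_card hω.2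
      rw [Finset.card_empty] at this
      omega
    rw [e2, e3]
    ring

/-- lower bound for binomial coefficients -/
theorem choose_ge (M n : ℕ) (τ : ℝ) (hτ : 0 ≤ τ) (hn : 0 < n) (h2 : 2 * n ≤ M)
    (h : 16 * (n : ℝ) ≤ τ * M) : (8 : ℝ) ^ n ≤ (M.choose n : ℝ) * τ ^ n := by
  have h1 : ((M + 1 - n : ℕ) : ℝ) ^ n ≤ (n.factorial : ℝ) * (M.choose n : ℝ) := by
    have := Nat.pow_le_choose (α := ℝ) n M
    have p : (0 : ℝ) < (n.factorial : ℝ) := by exact_mod_cast Nat.factorial_pos n
    first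
      | (rw [div_le_iff₀ p] at this; linarith)
      | linarith
  have h3 : (n.factorial : ℝ) ≤ (n : ℝ) ^ n := by exact_mod_cast Nat.factorial_le_pow n
  have h4 : (M : ℝ) / 2 ≤ ((M + 1 - n : ℕ) : ℝ) := by
    have : n ≤ M + 1 := by omega
    rw [Nat.cast_sub this]
    push_cast
    have h2' : 2 * (n : ℝ) ≤ M := by exact_mod_cast h2
    linarith
  have hn' : (0 : ℝ) < n := by exact_mod_cast hn
  have hM : (0 : ℝ) ≤ M := by positivity
  have h5 : ((M : ℝ) / 2) ^ n ≤ (n : ℝ) ^ n * (M.choose n : ℝ) := by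
    calc ((M : ℝ) / 2) ^ n ≤ ((M + 1 - n : ℕ) : ℝ) ^ n := by gcongr
      _ ≤ (n.factorial : ℝ) * (M.choose n : ℝ) := h1
      _ ≤ (n : ℝ) ^ n * (M.choose n : ℝ) := by gcongr
  have h6 : (8 : ℝ) ^ n * (n : ℝ) ^ n ≤ ((M : ℝ) / 2) ^ n * τ ^ n := by
    rw [← mul_pow, ← mul_pow]
    refine pow_le_pow_left₀ (by positivity) ?_ n
    linarith
  have h7 : (8 : ℝ) ^ n * (n : ℝ) ^ n ≤ ((M.choose n : ℝ) * τ ^ n) * (n : ℝ) ^ n := by
    calc (8 : ℝ) ^ n * (n : ℝ) ^ n ≤ ((M : ℝ) / 2) ^ n * τ ^ n := h6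
      _ ≤ ((n : ℝ) ^ n * (M.choose n : ℝ)) * τ ^ n := by gcongr
      _ = ((M.choose n : ℝ) * τ ^ n) * (n : ℝ) ^ n := by ring
  exact le_of_mul_le_mul_right h7 (by positivity)

/-- **The law of a block.** -/
theorem exists_law (S : Finset ℕ) (θ : ℕ → ℝ) (k : ℕ) (τ : ℝ) (hτ : 0 < τ) (hτ1 : τ ≤ 1 / 2)
    (hlo : ∀ n ∈ S, τ ≤ θ n) (hhi : ∀ n ∈ S, θ n ≤ 1)
    (hbig : 16 * (2 * (k : ℝ) + 1) ≤ τ * S.card) :
    ∃ w : Finset ℕ → ℝ, (∀ ω ∈ S.powerset, 0 ≤ w ω) ∧ w ∅ = 0 ∧
      ∑ ω ∈ S.powerset, w ω = 1 ∧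
      ∀ J ⊆ S, J.card ≤ k → ∑ ω ∈ S.powerset with J ⊆ ω, w ω = ∏ n ∈ J, θ n := by
  have hcard : 2 * (2 * k + 1) ≤ S.card := by
    have h1 : τ * (S.card : ℝ) ≤ 1 / 2 * S.card := by gcongr
    have h2 : 16 * (2 * (k : ℝ) + 1) ≤ 1 / 2 * S.card := hbig.trans h1
    have h3 : 2 * (2 * (k : ℝ) + 1) ≤ (S.card : ℝ) := by
      have : (0 : ℝ) ≤ k := by positivity
      linarith
    exact_mod_cast h3
  have hP : 0 ≤ ∏ n ∈ S, (1 - θ n) := Finset.prod_nonneg fun n hn => by linarith [hhi n hn]
  have hinc : ∀ J ⊆ S, J.card ≤ k →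
      ∑ ω ∈ S.powerset with J ⊆ ω, (pw S θ ω + cor S θ k ω) = ∏ n ∈ J, θ n := by
    intro J hJ hk
    rw [Finset.sum_add_distrib, pw_incl S θ J hJ, cor_incl S θ k (by omega) J hJ hk, add_zero]
  refine ⟨fun ω => pw S θ ω + cor S θ k ω, ?_, ?_, ?_, hinc⟩
  · intro ω hω
    rw [Finset.mem_powerset] at hω
    have hθ0 : ∀ n ∈ S, 0 ≤ θ n := fun n hn => hτ.le.trans (hlo n hn)
    have hpw : (∏ n ∈ S, (1 - θ n)) * τ ^ ω.card ≤ pw S θ ω := by
      unfold pw
      have e1 : τ ^ ω.card ≤ ∏ n ∈ ω, θ n := by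
        rw [← Finset.prod_const]
        exact Finset.prod_le_prod (fun n _ => hτ.le) fun n hn => hlo n (hω hn)
      have e2 : ∏ n ∈ S, (1 - θ n) ≤ ∏ n ∈ S \ ω, (1 - θ n) := by
        rw [← Finset.prod_sdiff hω]
        have a1 : 0 ≤ ∏ n ∈ S \ ω, (1 - θ n) := Finset.prod_nonneg fun n hn => by
          linarith [hhi n (Finset.mem_sdiff.mp hn).1]
        have a2 : ∏ n ∈ ω, (1 - θ n) ≤ 1 := Finset.prod_le_one
          (fun n hn => by linarith [hhi n (hω hn)]) (fun n hn => by linarith [hθ0 n (hω hn)])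
        nlinarith
      have e3 : 0 ≤ τ ^ ω.card := by positivity
      have e4 : 0 ≤ ∏ n ∈ S \ ω, (1 - θ n) := hP.trans e2
      rw [mul_comm]
      exact mul_le_mul e1 e2 hP (e3.trans e1)
    by_cases hne : ω = ∅
    · subst hne
      have e : cor S θ k ∅ = -∏ n ∈ S, (1 - θ n) := by
        unfold cor
        have : ∀ i ∈ range (k + 1), (if (∅ : Finset ℕ).card = k + 1 + i then
            cw k i / (S.card.choose (k + 1 + i) : ℝ) else 0) = 0 := by
          intro i _
          rw [if_neg]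
          simp only [Finset.card_empty]
          omega
        rw [Finset.sum_eq_zero this]
        simp
      have e' : pw S θ ∅ = ∏ n ∈ S, (1 - θ n) := by simp [pw]
      simp only [e, e']
      linarith
    · by_cases hex : ∃ i ∈ range (k + 1), ω.card = k + 1 + i
      · obtain ⟨i, hi, hci⟩ := hex
        have hik : i ≤ k := by
          rw [Finset.mem_range] at hi
          omega
        have e : cor S θ k ω = (∏ n ∈ S, (1 - θ n)) *
            (cw k i / (S.card.choose (k + 1 + i) : ℝ)) := by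
          unfold cor
          rw [if_neg hne, sub_zero]
          congr 1
          rw [Finset.sum_eq_single i]
          · rw [if_pos hci]
          · intro b _ hb
            rw [if_neg]
            omega
          · intro h
            exact absurd hi h
        have hn : 0 < ω.card := by omega
        have hb := choose_ge S.card ω.card τ hτ.le hn (by omega) (by
          have : (ω.card : ℝ) ≤ 2 * (k : ℝ) + 1 := by
            have : ω.card ≤ 2 * k + 1 := by omega
            exact_mod_cast this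
          linarith)
        have hcw := cw_abs k i
        have h8 : (2 : ℝ) ^ (3 * k + 1) ≤ 8 ^ ω.card := by
          have : (8 : ℝ) ^ ω.card = 2 ^ (3 * ω.card) := by
            rw [pow_mul]
            norm_num
          rw [this]
          exact pow_le_pow_right₀ (by norm_num) (by omega)
        have hchp : (0 : ℝ) < (S.card.choose ω.card : ℝ) := by
          exact_mod_cast Nat.choose_pos (by omega)
        have hge : -(τ ^ ω.card) ≤ cw k i / (S.card.choose (k + 1 + i) : ℝ) := by
          rw [← hci, le_div_iff₀ hchp]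
          have := neg_le_of_abs_le hcw
          nlinarith
        have hmul : (∏ n ∈ S, (1 - θ n)) * -(τ ^ ω.card) ≤ cor S θ k ω := by
          rw [e]
          exact mul_le_mul_of_nonneg_left hge hP
        simp only
        nlinarith
      · have e : cor S θ k ω = 0 := by
          unfold cor
          rw [if_neg hne, sub_zero, Finset.sum_eq_zero, mul_zero]
          intro i hi
          rw [if_neg]
          intro h
          exact hex ⟨i, hi, h⟩
        simp only [e]
        have : 0 ≤ (∏ n ∈ S, (1 - θ n)) * τ ^ ω.card := by positivity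
        linarith
  · have e : cor S θ k ∅ = -∏ n ∈ S, (1 - θ n) := by
      unfold cor
      have : ∀ i ∈ range (k + 1), (if (∅ : Finset ℕ).card = k + 1 + i then
          cw k i / (S.card.choose (k + 1 + i) : ℝ) else 0) = 0 := by
        intro i _
        rw [if_neg]
        simp only [Finset.card_empty]
        omega
      rw [Finset.sum_eq_zero this]
      simp
    have e' : pw S θ ∅ = ∏ n ∈ S, (1 - θ n) := by simp [pw]
    simp only [e, e']
    ring
  · have := hinc ∅ (Finset.empty_subset _) (by simp)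
    simpa using this

end Pool.Agent.LibBar93
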