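import Pool.Agent.LibBar93.Params

/-! Row B: the blocks. -/

namespace Pool.Agent.LibBar93

open Finset

theorem bb_pos (j : ℕ) : 0 < bb j := by
  unfold bb
  positivity

/-- B1. -/
theorem blk_spec {J n : ℕ} (hJ : 64 ≤ J) (h : J ≤ Nat.log 2 n) :
    blk J n ≤ n ∧ n < blk J n + bb (Nat.log 2 n) ∧ Nat.log 2 (blk J n) = Nat.log 2 n ∧
      bb (Nat.log 2 n) ∣ blk J n ∧ IsBlk J (blk J n) := by
  have hn : n ≠ 0 := by
    rintro rfl
    rw [Nat.log_zero_right] at h
    omega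
  have hb := bb_pos (Nat.log 2 n)
  have e : blk J n = bb (Nat.log 2 n) * (n / bb (Nat.log 2 n)) := by
    unfold blk
    rw [if_neg (not_lt.2 h)]
  have h1 : blk J n ≤ n := by rw [e]; exact Nat.mul_div_le _ _
  have h2 : n < blk J n + bb (Nat.log 2 n) := by
    rw [e]
    have h3 := Nat.lt_mul_div_succ n hb
    rwa [mul_add, mul_one] at h3
  have h4 : 2 ^ Nat.log 2 n ≤ n := Nat.pow_log_le_self 2 hn
  have h5 : n < 2 ^ (Nat.log 2 n + 1) := Nat.lt_pow_succ_log_self one_lt_two n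
  have h6 : 2 ^ Nat.log 2 n ≤ blk J n := by
    obtain ⟨c, hc⟩ := bb_dvd (hJ.trans h)
    have h7 : c ≤ n / bb (Nat.log 2 n) := by
      rw [Nat.le_div_iff_mul_le hb, mul_comm, ← hc]
      exact h4
    rw [e]
    calc 2 ^ Nat.log 2 n = bb (Nat.log 2 n) * c := hc
      _ ≤ _ := Nat.mul_le_mul_left _ h7
  have h8 : Nat.log 2 (blk J n) = Nat.log 2 n := by
    rw [Nat.log_eq_iff (Or.inl (by omega))]
    exact ⟨h6, h1.trans_lt h5⟩
  have h9 : bb (Nat.log 2 n) ∣ blk J n := by rw [e]; exact dvd_mul_right _ _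
  refine ⟨h1, h2, h8, h9, ?_, ?_⟩
  · rw [h8]; exact h
  · rw [h8]; exact h9

/-- B2. -/
theorem blk_of_mem {J i n : ℕ} (hJ : 64 ≤ J) (hi : IsBlk J i) (h1 : i ≤ n)
    (h2 : n < i + bb (Nat.log 2 i)) : blk J n = i ∧ Nat.log 2 n = Nat.log 2 i := by
  obtain ⟨h3, c, hc⟩ := hi
  have hi0 : i ≠ 0 := by
    rintro rfl
    rw [Nat.log_zero_right] at h3
    omega
  have hb := bb_pos (Nat.log 2 i)
  have h4 : 2 ^ Nat.log 2 i ≤ i := Nat.pow_log_le_self 2 hi0
  have h5 : i < 2 ^ (Nat.log 2 i + 1) := Nat.lt_pow_succ_log_self one_lt_two i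
  obtain ⟨d, hd⟩ := bb_dvd (hJ.trans h3)
  have h6 : i + bb (Nat.log 2 i) ≤ 2 ^ (Nat.log 2 i + 1) := by
    have h7 : c < 2 * d := by
      by_contra hcon
      push Not at hcon
      have h8 : bb (Nat.log 2 i) * (2 * d) ≤ bb (Nat.log 2 i) * c := Nat.mul_le_mul_left _ hcon
      have h9 : 2 ^ (Nat.log 2 i + 1) = bb (Nat.log 2 i) * (2 * d) := by
        rw [pow_succ, hd]; ring
      omega
    have h8 : bb (Nat.log 2 i) * (c + 1) ≤ bb (Nat.log 2 i) * (2 * d) := Nat.mul_le_mul_left _ h7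
    have h9 : 2 ^ (Nat.log 2 i + 1) = bb (Nat.log 2 i) * (2 * d) := by
      rw [pow_succ, hd]; ring
    rw [h9]
    calc i + bb (Nat.log 2 i) = bb (Nat.log 2 i) * (c + 1) := by rw [mul_add, mul_one, ← hc]
      _ ≤ _ := h8
  have hl : Nat.log 2 n = Nat.log 2 i := by
    rw [Nat.log_eq_iff (Or.inl (by omega))]
    exact ⟨h4.trans h1, h2.trans_le h6⟩
  refine ⟨?_, hl⟩
  unfold blk
  rw [hl, if_neg (not_lt.2 h3)]
  have h10 : n / bb (Nat.log 2 i) = c := by
    apply Nat.div_eq_of_lt_le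
    · rw [mul_comm, ← hc]; exact h1
    · rw [mul_comm, mul_add, mul_one, ← hc]; exact h2
  rw [h10]
  exact hc.symm

/-- B3. The number of the integers `≤ y` in a block. -/
theorem card_blk {J : ℕ} (hJ : 64 ≤ J) (y i : ℕ) :
    #{n ∈ range (y + 1) | blk J n = i} ≤ 2 ^ J + 1000 * (Nat.log 2 y + 1) ^ 2 := by
  have key : ∀ n, J ≤ Nat.log 2 n → blk J n = i →
      Nat.log 2 i = Nat.log 2 n ∧ i ≤ n ∧ n < i + bb (Nat.log 2 i) := by
    intro n hn hi
    obtain ⟨h1, h2, h3, _, _⟩ := blk_spec hJ hn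
    rw [hi] at h1 h2 h3
    exact ⟨h3, h1, by rw [h3]; exact h2⟩
  have low : ∀ n, Nat.log 2 n < J → n < 2 ^ J := by
    intro n hn
    exact (Nat.lt_pow_succ_log_self one_lt_two n).trans_le (Nat.pow_le_pow_right two_pos hn)
  by_cases hex : ∃ n ∈ range (y + 1), J ≤ Nat.log 2 n ∧ blk J n = i
  · obtain ⟨m, hm, hmJ, hmi⟩ := hex
    obtain ⟨e, _, _⟩ := key m hmJ hmi
    have hsub : ({n ∈ range (y + 1) | blk J n = i}) ⊆
        range (2 ^ J) ∪ Ico i (i + bb (Nat.log 2 i)) := by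
      intro n hn
      rw [mem_filter] at hn
      rw [mem_union]
      rcases Nat.lt_or_ge (Nat.log 2 n) J with h | h
      · left; exact mem_range.2 (low n h)
      · right
        obtain ⟨_, h2, h3⟩ := key n h hn.2
        exact mem_Ico.2 ⟨h2, h3⟩
    have h1 : bb (Nat.log 2 i) ≤ 1000 * (Nat.log 2 y + 1) ^ 2 := by
      have h2 := bb_crude (j := Nat.log 2 i) (by omega)
      have h3 : Nat.log 2 i ≤ Nat.log 2 y + 1 := by
        rw [e]
        have h4 : Nat.log 2 m ≤ Nat.log 2 y := by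
          apply Nat.log_mono_right
          rw [mem_range] at hm
          omega
        omega
      exact h2.trans (Nat.mul_le_mul_left _ (Nat.pow_le_pow_left h3 2))
    calc #{n ∈ range (y + 1) | blk J n = i}
        ≤ #(range (2 ^ J) ∪ Ico i (i + bb (Nat.log 2 i))) := card_le_card hsub
      _ ≤ #(range (2 ^ J)) + #(Ico i (i + bb (Nat.log 2 i))) := card_union_le _ _
      _ = 2 ^ J + bb (Nat.log 2 i) := by rw [card_range, Nat.card_Ico]; omega
      _ ≤ _ := by omega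
  · push Not at hex
    have hsub : ({n ∈ range (y + 1) | blk J n = i}) ⊆ range (2 ^ J) := by
      intro n hn
      rw [mem_filter] at hn
      rcases Nat.lt_or_ge (Nat.log 2 n) J with h | h
      · exact mem_range.2 (low n h)
      · exact absurd hn.2 (hex n hn.1 h)
    have := card_le_card hsub
    rw [card_range] at this
    omega

end Pool.Agent.LibBar93
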