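import Pool.Agent.LibBar93.Hoeff

set_option linter.unusedVariables false

namespace Pool.Agent.LibBar93

open Finset MeasureTheory ProbabilityTheory Filter
open scoped ENNReal

/-- C2: greedy colouring. -/
theorem exists_colour (s : Finset ℕ) (r : ℕ → ℕ → Prop) (hr : ∀ a b, r a b → r b a) (D : ℕ)
    (hD : ∀ a ∈ s, ∀ t ⊆ s, (∀ b ∈ t, r a b) → #t ≤ D) :
    ∃ c : ℕ → ℕ, (∀ a, c a ≤ D) ∧ ∀ a ∈ s, ∀ b ∈ s, a ≠ b → c a = c b → ¬ r a b := by
  classical
  induction s using Finset.induction_on with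
  | empty => exact ⟨fun _ => 0, fun _ => Nat.zero_le _, fun a ha => absurd ha (Finset.notMem_empty a)⟩
  | insert a s ha ih =>
    obtain ⟨c, hc, hc'⟩ := ih fun x hx t ht hb =>
      hD x (Finset.mem_insert_of_mem hx) t (ht.trans (Finset.subset_insert a s)) hb
    have hN : #{b ∈ s | r a b} ≤ D := by
      refine hD a (Finset.mem_insert_self a s) _ ?_ ?_
      · exact (Finset.filter_subset _ _).trans (Finset.subset_insert a s)
      · intro b hb
        exact (Finset.mem_filter.1 hb).2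
    obtain ⟨k, hk, hk'⟩ : ∃ k ∈ range (D + 1), k ∉ ({b ∈ s | r a b}).image c := by
      by_contra hcon
      push Not at hcon
      have h1 : #(range (D + 1)) ≤ #(({b ∈ s | r a b}).image c) :=
        Finset.card_le_card fun k hk => hcon k hk
      have h2 := Finset.card_image_le (s := {b ∈ s | r a b}) (f := c)
      rw [Finset.card_range] at h1
      omega
    have hnot : ∀ b ∈ s, r a b → c b ≠ k := by
      intro b hb hab hcb
      exact hk' (Finset.mem_image.2 ⟨b, Finset.mem_filter.2 ⟨hb, hab⟩, hcb⟩)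
    refine ⟨Function.update c a k, ?_, ?_⟩
    · intro x
      by_cases hx : x = a
      · subst hx
        rw [Function.update_self]
        have := Finset.mem_range.1 hk
        omega
      · rw [Function.update_of_ne hx]
        exact hc x
    · intro x hx y hy hxy hcxy hrxy
      rcases Finset.mem_insert.1 hx with hxa | hx'
      · rcases Finset.mem_insert.1 hy with hya | hy'
        · exact hxy (hxa.trans hya.symm)
        · have hya : y ≠ a := fun h => ha (h ▸ hy')
          rw [hxa, Function.update_self, Function.update_of_ne hya] at hcxy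
          exact hnot y hy' (hxa ▸ hrxy) hcxy.symm
      · have hxa : x ≠ a := fun h => ha (h ▸ hx')
        rcases Finset.mem_insert.1 hy with hya | hy'
        · rw [hya, Function.update_self, Function.update_of_ne hxa] at hcxy
          exact hnot x hx' (hya ▸ hr _ _ hrxy) hcxy
        · have hya : y ≠ a := fun h => ha (h ▸ hy')
          rw [Function.update_of_ne hxa, Function.update_of_ne hya] at hcxy
          exact hc' x hx' y hy' hxy hcxy hrxy

section

variable {p : ℕ → ℝ} {J : ℕ} {Ω : Type} [MeasurableSpace Ω] {μ : Measure Ω}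
  [IsProbabilityMeasure μ] {A : Ω → Set ℕ} {P : Finset ℕ → ℝ}

open Classical in
/-- C3: the concentration inequality. -/
theorem Model.conc (hM : Model p J μ A P) (s : Finset ℕ) (G : ℕ → Finset ℕ) (D : ℕ)
    (hD : ∀ a ∈ s, ∀ t ⊆ s, (∀ b ∈ t, ¬ Disjoint ((G a).image (blk J)) ((G b).image (blk J))) →
      #t ≤ D)
    (x t : ℝ) (ht : 0 ≤ t) (hx : 0 < x) (hs : (#s : ℝ) ≤ x) :
    μ.real {ω | (D + 1) * t ≤ |∑ a ∈ s, ((if ∀ n ∈ G a, n ∈ A ω then (1 : ℝ) else 0) - P (G a))|} ≤
      (D + 1) * (2 * Real.exp (-2 * t ^ 2 / x)) := by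
  obtain ⟨c, hc, hc'⟩ := exists_colour s
    (fun a b => ¬ Disjoint ((G a).image (blk J)) ((G b).image (blk J)))
    (fun a b h h' => h h'.symm) D hD
  rcases eq_or_lt_of_le ht with ht0 | ht0
  · -- `t = 0`: the bound is at least one
    rw [← ht0]
    have h1 : μ.real {ω | ((D : ℝ) + 1) * 0 ≤
        |∑ a ∈ s, ((if ∀ n ∈ G a, n ∈ A ω then (1 : ℝ) else 0) - P (G a))|} ≤ 1 :=
      measureReal_le_one
    have h2 : (1 : ℝ) ≤ (D + 1) * (2 * Real.exp (-2 * 0 ^ 2 / x)) := by
      have : Real.exp (-2 * (0 : ℝ) ^ 2 / x) = 1 := by simp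
      rw [this]
      have : (0 : ℝ) ≤ D := Nat.cast_nonneg D
      linarith
    exact h1.trans h2
  set f : ℕ → Ω → ℝ := fun a ω => (if ∀ n ∈ G a, n ∈ A ω then (1 : ℝ) else 0) - P (G a) with hf
  have hsub : {ω | ((D : ℝ) + 1) * t ≤ |∑ a ∈ s, f a ω|} ⊆
      ⋃ k ∈ range (D + 1), {ω | t ≤ |∑ a ∈ s with c a = k, f a ω|} := by
    intro ω hω
    by_contra hcon
    simp only [mem_range, Set.mem_iUnion, Set.mem_ofPred_eq, exists_prop, not_exists, not_and,
      not_le] at hcon
    have hsum : ∑ a ∈ s, f a ω = ∑ k ∈ range (D + 1), ∑ a ∈ s with c a = k, f a ω := by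
      rw [Finset.sum_fiberwise_of_maps_to]
      intro a _
      exact Finset.mem_range.2 (Nat.lt_succ_of_le (hc a))
    have h1 : |∑ a ∈ s, f a ω| < (D + 1) * t := by
      rw [hsum]
      calc |∑ k ∈ range (D + 1), ∑ a ∈ s with c a = k, f a ω|
          ≤ ∑ k ∈ range (D + 1), |∑ a ∈ s with c a = k, f a ω| := Finset.abs_sum_le_sum_abs _ _
        _ < ∑ _k ∈ range (D + 1), t := by
            refine Finset.sum_lt_sum_of_nonempty ⟨0, Finset.mem_range.2 (Nat.succ_pos D)⟩ ?_
            intro k hk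
            exact hcon k (Finset.mem_range.1 hk)
        _ = (D + 1) * t := by simp
    exact absurd hω (not_le.2 h1)
  have hone : ∀ k ∈ range (D + 1), μ.real {ω | t ≤ |∑ a ∈ s with c a = k, f a ω|} ≤
      2 * Real.exp (-2 * t ^ 2 / x) := by
    intro k _
    refine hM.hoeff {a ∈ s | c a = k} G ?_ x t ht hx ?_
    · intro a ha b hb hab
      rw [Finset.mem_filter] at ha hb
      have := hc' a ha.1 b hb.1 hab (ha.2.trans hb.2.symm)
      exact not_not.1 this
    · have h1 : (#{a ∈ s | c a = k} : ℝ) ≤ #s := by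
        exact_mod_cast Finset.card_le_card (Finset.filter_subset _ _)
      exact h1.trans hs
  calc μ.real {ω | ((D : ℝ) + 1) * t ≤ |∑ a ∈ s, f a ω|}
      ≤ μ.real (⋃ k ∈ range (D + 1), {ω | t ≤ |∑ a ∈ s with c a = k, f a ω|}) :=
        measureReal_mono hsub (measure_ne_top μ _)
    _ ≤ ∑ k ∈ range (D + 1), μ.real {ω | t ≤ |∑ a ∈ s with c a = k, f a ω|} :=
        measureReal_biUnion_finset_le _ _
    _ ≤ ∑ _k ∈ range (D + 1), 2 * Real.exp (-2 * t ^ 2 / x) := Finset.sum_le_sum hone
    _ = (D + 1) * (2 * Real.exp (-2 * t ^ 2 / x)) := by simp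

end

end Pool.Agent.LibBar93
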