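import Pool.Agent.LibBar93.Defs2

/-! Row S1: from the small tuples to all tuples. -/

namespace Pool.Agent.LibBar93

open Finset

theorem S1_tuples_nonneg (A : Set ℕ) (H : Finset ℕ) (q a x : ℕ) : (0 : ℝ) ≤ tuples A H q a x :=
  Nat.cast_nonneg _

theorem S1_tuples_le (A : Set ℕ) (H : Finset ℕ) (q a x : ℕ) :
    tuples A H q a x ≤ #{n ∈ Icc 1 x | n ≡ a [MOD q]} := by
  classical
  unfold tuples
  apply card_le_card
  intro n hn
  rw [mem_filter] at hn ⊢
  exact ⟨hn.1, hn.2.1⟩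

theorem S1_tuples_mono (A : Set ℕ) {H H' : Finset ℕ} (hH : H' ⊆ H) (q a x : ℕ) :
    tuples A H q a x ≤ tuples A H' q a x := by
  classical
  unfold tuples
  apply card_le_card
  intro n hn
  rw [mem_filter] at hn ⊢
  exact ⟨hn.1, hn.2.1, fun h hh => hn.2.2 h (hH hh)⟩

section

variable {p : ℕ → ℝ} (h0 : ∀ n, 0 ≤ p n) (h1 : ∀ n, p n ≤ 1)

include h0 in
theorem S1_mainT_nonneg (H : Finset ℕ) (q a x : ℕ) : 0 ≤ mainT p H q a x :=
  sum_nonneg fun _ _ => prod_nonneg fun _ _ => h0 _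

include h0 h1 in
theorem S1_mainT_le (H : Finset ℕ) (q a x : ℕ) :
    mainT p H q a x ≤ #{n ∈ Icc 1 x | n ≡ a [MOD q]} := by
  unfold mainT
  calc ∑ n ∈ Icc 1 x with n ≡ a [MOD q], ∏ h ∈ H, p (n + h)
      ≤ ∑ n ∈ Icc 1 x with n ≡ a [MOD q], (1 : ℝ) :=
        sum_le_sum fun n _ => prod_le_one (fun _ _ => h0 _) (fun _ _ => h1 _)
    _ = _ := by rw [sum_const, nsmul_eq_mul, mul_one]

include h0 h1 in
theorem S1_mainT_mono {H H' : Finset ℕ} (hH : H' ⊆ H) (q a x : ℕ) :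
    mainT p H q a x ≤ mainT p H' q a x := by
  classical
  unfold mainT
  refine sum_le_sum fun n _ => ?_
  rw [← prod_sdiff hH]
  exact mul_le_of_le_one_left (prod_nonneg fun _ _ => h0 _)
    (prod_le_one (fun _ _ => h0 _) (fun _ _ => h1 _))

include h0 h1 in
theorem S1_abs_le (A : Set ℕ) (H : Finset ℕ) (q a x : ℕ) :
    |(tuples A H q a x : ℝ) - mainT p H q a x| ≤ #{n ∈ Icc 1 x | n ≡ a [MOD q]} := by
  have h2 := S1_tuples_nonneg A H q a x
  have h3 : (tuples A H q a x : ℝ) ≤ #{n ∈ Icc 1 x | n ≡ a [MOD q]} := by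
    exact_mod_cast S1_tuples_le A H q a x
  have h4 := S1_mainT_nonneg h0 H q a x
  have h5 := S1_mainT_le h0 h1 H q a x
  rw [abs_le]
  constructor <;> linarith

end

theorem S1_one_le {x : ℕ} (hx : 2 ≤ x) : 1 ≤ 5 * (√x * Real.log x ^ 5) := by
  have hx' : (2 : ℝ) ≤ x := by exact_mod_cast hx
  have h1 : (0.69 : ℝ) ≤ Real.log x := by
    have h2 := Real.log_two_gt_d9
    have h3 : Real.log 2 ≤ Real.log x := Real.log_le_log two_pos hx'
    linarith
  have h2 : (1.41 : ℝ) ≤ √x := by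
    apply Real.le_sqrt_of_sq_le
    norm_num
    linarith
  have h3 : (0.69 : ℝ) ^ 5 ≤ Real.log x ^ 5 := pow_le_pow_left₀ (by norm_num) h1 5
  have h4 : (1.41 : ℝ) * 0.69 ^ 5 ≤ √x * Real.log x ^ 5 := mul_le_mul h2 h3 (by norm_num)
    (by positivity)
  norm_num at h4 ⊢
  linarith

theorem S1_small {p : ℕ → ℝ} (h0 : ∀ n, 0 ≤ p n) (h1 : ∀ n, p n ≤ 1) {A : Set ℕ} {C : ℝ}
    (h : ∀ x : ℕ, 2 ≤ x → ∀ H : Finset ℕ, (∀ h ∈ H, h ≤ x) → #H ≤ Nat.log 2 x + 1 →
      ∀ q a : ℕ, q ≤ x → a ≤ x →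
      |(tuples A H q a x : ℝ) - mainT p H q a x| ≤ C * √x * Real.log x ^ 5)
    (x : ℕ) (hx : 2 ≤ x) (H : Finset ℕ) (hH : ∀ h ∈ H, h ≤ x) (hc : #H ≤ Nat.log 2 x + 1)
    (q a : ℕ) : |(tuples A H q a x : ℝ) - mainT p H q a x| ≤
      (|C| + 5) * (√x * Real.log x ^ 5) := by
  have hpos : 0 ≤ √x * Real.log x ^ 5 := by positivity
  have h2 := S1_one_le hx
  have hC : C * √x * Real.log x ^ 5 ≤ (|C| + 5) * (√x * Real.log x ^ 5) := by
    have := le_abs_self C
    nlinarith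
  have hone : (1 : ℝ) ≤ (|C| + 5) * (√x * Real.log x ^ 5) := by
    have := abs_nonneg C
    nlinarith
  have hcard : #{n ∈ Icc 1 x | n ≡ a [MOD q]} ≤ 1 →
      |(tuples A H q a x : ℝ) - mainT p H q a x| ≤ (|C| + 5) * (√x * Real.log x ^ 5) := by
    intro h3
    refine (S1_abs_le h0 h1 A H q a x).trans (le_trans ?_ hone)
    exact_mod_cast h3
  rcases Nat.lt_or_ge x q with hq | hq
  · apply hcard
    rw [card_le_one]
    intro n hn m hm
    rw [mem_filter, mem_Icc] at hn hm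
    have e : n ≡ m [MOD q] := hn.2.trans hm.2.symm
    have e1 : n % q = m % q := e
    rwa [Nat.mod_eq_of_lt (by omega), Nat.mod_eq_of_lt (by omega)] at e1
  · rcases Nat.eq_zero_or_pos q with rfl | hq0
    · rcases Nat.lt_or_ge x a with ha | ha
      · apply hcard
        rw [card_eq_zero.2]
        · exact zero_le_one
        · rw [filter_eq_empty_iff]
          intro n hn he
          rw [Nat.modEq_zero_iff] at he
          rw [mem_Icc] at hn
          omega
      · exact (h x hx H hH hc 0 a hq ha).trans hC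
    · have e : ∀ n, n ≡ a [MOD q] ↔ n ≡ a % q [MOD q] := by
        intro n
        unfold Nat.ModEq
        rw [Nat.mod_mod]
      have e1 : tuples A H q a x = tuples A H q (a % q) x := by
        classical
        unfold tuples
        congr 1
        refine filter_congr fun n _ => ?_
        rw [e n]
      have e2 : mainT p H q a x = mainT p H q (a % q) x := by
        unfold mainT
        refine sum_congr (filter_congr fun n _ => ?_) fun _ _ => rfl
        rw [e n]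
      rw [e1, e2]
      exact (h x hx H hH hc q (a % q) hq ((Nat.mod_lt _ hq0).le.trans hq)).trans hC

theorem S1_p_le {p : ℕ → ℝ} {J : ℕ} (hp : Weight p J) {n : ℕ} (hn : J ≤ Nat.log 2 n) :
    p n ≤ 1 / 2 := by
  by_contra hcon
  push Not at hcon
  have h1 := hp.small n hn
  have h2 : (64 : ℝ) ≤ Nat.log 2 n := by exact_mod_cast hp.hJ.trans hn
  have h3 : (1 / 2 : ℝ) ^ 4 ≤ p n ^ 4 := pow_le_pow_left₀ (by norm_num) hcon.le 4
  have h4 : (64 : ℝ) ^ 3 ≤ (Nat.log 2 n : ℝ) ^ 3 := pow_le_pow_left₀ (by norm_num) h2 3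
  have h5 : (1 / 2 : ℝ) ^ 4 * 64 ^ 3 ≤ p n ^ 4 * (Nat.log 2 n : ℝ) ^ 3 :=
    mul_le_mul h3 h4 (by norm_num) (by positivity)
  norm_num at h5
  linarith

theorem S1_mainT_big {p : ℕ → ℝ} {J : ℕ} (hp : Weight p J) {x : ℕ} (hx : 2 ≤ x)
    (H : Finset ℕ) (hc : #H = Nat.log 2 x + 1) (q a : ℕ) :
    mainT p H q a x ≤ 2 ^ J + 1 := by
  have hx' : (0 : ℝ) < x := by exact_mod_cast (by omega : 0 < x)
  have hterm : ∀ n : ℕ, ∏ h ∈ H, p (n + h) ≤ (if n < 2 ^ J then 1 else 0) + 1 / (x : ℝ) := by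
    intro n
    have hx1 : 0 ≤ 1 / (x : ℝ) := by positivity
    split_ifs with h
    · have := prod_le_one (s := H) (f := fun h => p (n + h)) (fun _ _ => hp.nonneg _)
        (fun _ _ => hp.le_one _)
      linarith
    · rw [zero_add]
      have h1 : ∏ h ∈ H, p (n + h) ≤ ∏ _h ∈ H, (1 / 2 : ℝ) := by
        refine prod_le_prod (fun _ _ => hp.nonneg _) (fun k _ => S1_p_le hp ?_)
        apply Nat.le_log_of_pow_le one_lt_two
        omega
      rw [prod_const, hc] at h1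
      refine h1.trans ?_
      rw [one_div_pow]
      apply one_div_le_one_div_of_le hx'
      exact_mod_cast (Nat.lt_pow_succ_log_self one_lt_two x).le
  unfold mainT
  calc ∑ n ∈ Icc 1 x with n ≡ a [MOD q], ∏ h ∈ H, p (n + h)
      ≤ ∑ n ∈ Icc 1 x, ∏ h ∈ H, p (n + h) :=
        sum_le_sum_of_subset_of_nonneg (filter_subset _ _)
          fun _ _ _ => prod_nonneg fun _ _ => hp.nonneg _
    _ ≤ ∑ n ∈ Icc 1 x, ((if n < 2 ^ J then (1 : ℝ) else 0) + 1 / (x : ℝ)) :=
        sum_le_sum fun n _ => hterm n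
    _ = (#{n ∈ Icc 1 x | n < 2 ^ J} : ℝ) + x * (1 / (x : ℝ)) := by
        rw [sum_add_distrib, sum_const, Nat.card_Icc, nsmul_eq_mul, ← sum_filter, sum_const,
          nsmul_eq_mul, mul_one]
        simp
    _ ≤ 2 ^ J + 1 := by
        have h1 : #{n ∈ Icc 1 x | n < 2 ^ J} ≤ 2 ^ J := by
          calc #{n ∈ Icc 1 x | n < 2 ^ J} ≤ #(range (2 ^ J)) := by
                apply card_le_card
                intro n hn
                rw [mem_filter] at hn
                exact mem_range.2 hn.2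
            _ = 2 ^ J := card_range _
        have h2 : (#{n ∈ Icc 1 x | n < 2 ^ J} : ℝ) ≤ 2 ^ J := by exact_mod_cast h1
        rw [mul_one_div_cancel hx'.ne']
        linarith

/-- S1. -/
theorem SmallLaw.full {p : ℕ → ℝ} {J : ℕ} (hp : Weight p J) {A : Set ℕ} (h : SmallLaw p A) :
    TupleLaw p A := by
  obtain ⟨C, hC⟩ := h
  refine ⟨(|C| + 5) + 5 * (2 ^ J + 1), fun x hx H hH q a => ?_⟩
  have hpos : 0 ≤ √x * Real.log x ^ 5 := by positivity
  have h2 := S1_one_le hx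
  have hbig : (2 ^ J + 1 : ℝ) ≤ 5 * (2 ^ J + 1) * (√x * Real.log x ^ 5) := by
    have h3 : (0 : ℝ) ≤ 2 ^ J + 1 := by positivity
    nlinarith
  have hb0 : (0 : ℝ) ≤ 5 * (2 ^ J + 1) * (√x * Real.log x ^ 5) := by positivity
  rw [mul_assoc, add_mul]
  rcases Nat.lt_or_ge (Nat.log 2 x + 1) #H with hc | hc
  · obtain ⟨H', hH', hc'⟩ := exists_subset_card_eq hc.le
    have h3 := S1_small hp.nonneg hp.le_one hC x hx H' (fun k hk => hH k (hH' hk)) hc'.le q a
    have h4 := S1_mainT_big hp hx H' hc' q a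
    have h5 : (tuples A H q a x : ℝ) ≤ tuples A H' q a x := by
      exact_mod_cast S1_tuples_mono A hH' q a x
    have h6 := S1_mainT_mono hp.nonneg hp.le_one hH' q a x
    have h7 := S1_tuples_nonneg A H q a x
    have h8 := S1_mainT_nonneg hp.nonneg H q a x
    have h9 := (abs_le.1 h3).2
    have h10 : 0 ≤ (|C| + 5) * (√x * Real.log x ^ 5) := by positivity
    rw [abs_le]
    constructor <;> linarith
  · have h3 := S1_small hp.nonneg hp.le_one hC x hx H hH hc q a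
    linarith

end Pool.Agent.LibBar93
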