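import Pool.Agent.LibBar93.Blocks

/-! Row S3: gaps of a set which meets all blocks. -/

namespace Pool.Agent.LibBar93

open Finset MeasureTheory ProbabilityTheory Filter
open scoped ENNReal

/-- arithmetic for S3 -/
theorem S3_num {C L LL s ls B : ℝ} (hC : 0 < C) (hB : B ≤ C * s ^ 2 / ls) (hLL : 0 < LL)
    (h2 : LL ≤ ls) (h3 : s ≤ 2 * L) (h0 : 0 ≤ s) : B ≤ 4 * C * L ^ 2 / LL := by
  have h4 : C * s ^ 2 ≤ C * (2 * L) ^ 2 :=
    mul_le_mul_of_nonneg_left (pow_le_pow_left₀ h0 h3 2) hC.le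
  calc B ≤ C * s ^ 2 / ls := hB
    _ ≤ C * (2 * L) ^ 2 / LL := div_le_div₀ (by positivity) h4 hLL h2
    _ = _ := by ring

/-- S3: the gaps. -/
theorem gap_of_hit {J : ℕ} (hJ : 64 ≤ J) {A : Set ℕ}
    (hA : ∀ i, IsBlk J i → ∃ n ∈ A, blk J n = i) :
    ∃ C : ℝ, 0 < C ∧ ∀ᶠ m : ℕ in atTop, ∃ a ∈ A, m < a ∧
      (a : ℝ) ≤ m + C * Real.log m ^ 2 / Real.log (Real.log m) := by
  obtain ⟨C, hC, hbb⟩ := bb_le
  refine ⟨8 * C, by positivity, ?_⟩
  filter_upwards [eventually_ge_atTop (2 ^ J)] with m hm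
  have hm0 : m ≠ 0 := by
    have : 0 < 2 ^ J := by positivity
    omega
  obtain ⟨j, hj⟩ : ∃ j, j = Nat.log 2 m := ⟨_, rfl⟩
  have hjJ : J ≤ j := by
    rw [hj]
    exact (Nat.le_log_iff_pow_le (by norm_num) hm0).mpr hm
  have hj64 : 64 ≤ j := hJ.trans hjJ
  obtain ⟨b1, b2, b3, b4, b5⟩ := blk_spec (J := J) (n := m) hJ (hj ▸ hjJ)
  rw [← hj] at b2 b3 b4
  have hlt : m < 2 ^ (j + 1) := by
    rw [hj]
    exact Nat.lt_pow_succ_log_self (by norm_num) m
  have hle : 2 ^ j ≤ m := by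
    rw [hj]
    exact Nat.pow_log_le_self 2 hm0
  have hbp := bb_pos j
  have hd1 : bb j ∣ 2 ^ (j + 1) := (bb_dvd hj64).trans (pow_dvd_pow 2 (by omega))
  have hle2 : blk J m + bb j ≤ 2 ^ (j + 1) := by
    obtain ⟨s, hs⟩ := b4
    obtain ⟨t, ht⟩ := hd1
    have h1 : bb j * s < bb j * t := by
      rw [← hs, ← ht]
      omega
    have h2 : s < t := lt_of_mul_lt_mul_left h1 (Nat.zero_le _)
    rw [hs, ht, ← Nat.mul_succ]
    exact Nat.mul_le_mul_left _ h2
  have hbk : 2 ^ j ≤ blk J m := by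
    have h0 : blk J m ≠ 0 := by
      intro h0
      rw [h0, Nat.log_zero_right] at b3
      omega
    have := Nat.pow_log_le_self 2 h0
    rwa [b3] at this
  -- the next block
  obtain ⟨i, hi1, hi2, hi3, hi4⟩ : ∃ i, IsBlk J i ∧ m < i ∧ i ≤ m + bb j ∧
      (Nat.log 2 i = j ∨ Nat.log 2 i = j + 1) := by
    refine ⟨blk J m + bb j, ?_, b2, by omega, ?_⟩
    · rcases Nat.lt_or_ge (blk J m + bb j) (2 ^ (j + 1)) with h | h
      · have hl : Nat.log 2 (blk J m + bb j) = j := by
          rw [Nat.log_eq_iff (Or.inl (by omega))]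
          exact ⟨by omega, h⟩
        refine ⟨by omega, ?_⟩
        rw [hl]
        exact (Nat.dvd_add_right b4).mpr dvd_rfl
      · have he : blk J m + bb j = 2 ^ (j + 1) := le_antisymm hle2 h
        have hl : Nat.log 2 (blk J m + bb j) = j + 1 := by
          rw [he, Nat.log_pow (by norm_num)]
        refine ⟨by omega, ?_⟩
        rw [hl, he]
        exact bb_dvd (by omega)
    · rcases Nat.lt_or_ge (blk J m + bb j) (2 ^ (j + 1)) with h | h
      · left
        rw [Nat.log_eq_iff (Or.inl (by omega))]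
        exact ⟨by omega, h⟩
      · right
        have he : blk J m + bb j = 2 ^ (j + 1) := le_antisymm hle2 h
        rw [he, Nat.log_pow (by norm_num)]
  obtain ⟨n, hnA, hn⟩ := hA i hi1
  have hlogn : J ≤ Nat.log 2 n := by
    by_contra h
    push Not at h
    rw [blk_small h] at hn
    omega
  obtain ⟨c1, c2, c3, -, -⟩ := blk_spec (J := J) (n := n) hJ hlogn
  rw [hn] at c1 c2 c3
  rw [← c3] at c2
  -- estimates
  have hl2 : 0 < Real.log 2 := Real.log_pos (by norm_num)
  have hl2' : Real.log 2 < 0.6931471808 := Real.log_two_lt_d9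
  have hl2'' : 0.6931471803 < Real.log 2 := Real.log_two_gt_d9
  have hmR : (0 : ℝ) < m := by
    have : 0 < m := by omega
    exact_mod_cast this
  have hL1 : (j : ℝ) * Real.log 2 ≤ Real.log m := by
    have h : (2 : ℝ) ^ j ≤ (m : ℝ) := by exact_mod_cast hle
    rw [← Real.log_pow]
    exact Real.log_le_log (by positivity) h
  have hL2 : Real.log m ≤ ((j : ℝ) + 1) * Real.log 2 := by
    have h1 : m ≤ 2 ^ (j + 1) := hlt.le
    have h : (m : ℝ) ≤ (2 : ℝ) ^ (j + 1) := by exact_mod_cast h1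
    have h2 : Real.log ((2 : ℝ) ^ (j + 1)) = ((j : ℝ) + 1) * Real.log 2 := by
      rw [Real.log_pow]
      push_cast
      ring
    rw [← h2]
    exact Real.log_le_log hmR h
  have hjR : (64 : ℝ) ≤ j := by exact_mod_cast hj64
  have hp1 : ((j : ℝ) + 1) * Real.log 2 ≤ ((j : ℝ) + 1) * 0.6931471808 :=
    mul_le_mul_of_nonneg_left hl2'.le (by linarith)
  have hp2 : (j : ℝ) * 0.6931471803 ≤ (j : ℝ) * Real.log 2 :=
    mul_le_mul_of_nonneg_left hl2''.le (by linarith)
  have hL3 : Real.log m ≤ j := by linarith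
  have hL4 : (j : ℝ) + 1 ≤ 2 * Real.log m := by linarith
  have hL5 : 1 < Real.log m := by linarith
  have hLL : 0 < Real.log (Real.log m) := Real.log_pos hL5
  have hLLj : Real.log (Real.log m) ≤ Real.log j := Real.log_le_log (by linarith) hL3
  have hLLj' : Real.log (Real.log m) ≤ Real.log ((j + 1 : ℕ) : ℝ) := by
    refine Real.log_le_log (by linarith) ?_
    push_cast
    linarith
  have key : ∀ s : ℕ, (s = j ∨ s = j + 1) →
      (bb s : ℝ) ≤ 4 * C * Real.log m ^ 2 / Real.log (Real.log m) := by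
    intro s hs
    have hs64 : 64 ≤ s := by omega
    have h1 := hbb s hs64
    have h2 : Real.log (Real.log m) ≤ Real.log (s : ℝ) := by
      rcases hs with rfl | rfl
      · exact hLLj
      · exact hLLj'
    have h3 : (s : ℝ) ≤ 2 * Real.log m := by
      have : (s : ℝ) ≤ j + 1 := by
        rcases hs with rfl | rfl
        · linarith
        · push_cast; linarith
      linarith
    exact S3_num hC h1 hLL h2 h3 (Nat.cast_nonneg s)
  refine ⟨n, hnA, by omega, ?_⟩
  have e1 : (n : ℝ) ≤ m + bb j + bb (Nat.log 2 i) := by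
    have : n ≤ m + bb j + bb (Nat.log 2 i) := by omega
    exact_mod_cast this
  have e2 := key j (Or.inl rfl)
  have e3 := key _ hi4
  calc (n : ℝ) ≤ m + bb j + bb (Nat.log 2 i) := e1
    _ ≤ m + 4 * C * Real.log m ^ 2 / Real.log (Real.log m)
        + 4 * C * Real.log m ^ 2 / Real.log (Real.log m) := by linarith
    _ = _ := by ring

end Pool.Agent.LibBar93
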