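import Pool.Agent.LibCramer.Core

/-! Row S4: deleting sparse windows to prescribe the Cramer constant. -/

namespace Pool.Agent.LibBar93

open Finset MeasureTheory ProbabilityTheory Filter Topology
open scoped ENNReal NNReal

/-- The points `2^(2^i)`. -/
def S4x (i : ℕ) : ℕ := 2 ^ 2 ^ i

theorem S4x_succ (i : ℕ) : S4x (i + 1) = S4x i ^ 2 := by
  unfold S4x
  rw [pow_succ, pow_mul]

theorem S4x_two_le (i : ℕ) : 2 ≤ S4x i := by
  unfold S4x
  calc 2 = 2 ^ 1 := rfl
    _ ≤ 2 ^ 2 ^ i := Nat.pow_le_pow_right (by norm_num) Nat.one_le_two_pow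

theorem S4x_mono : Monotone S4x := by
  intro i j h
  exact Nat.pow_le_pow_right (by norm_num) (Nat.pow_le_pow_right (by norm_num) h)

theorem S4x_four (i : ℕ) (h : 1 ≤ i) : 4 ≤ S4x i := by
  have h1 := S4x_mono h
  have h2 : S4x 1 = 4 := rfl
  omega

theorem S4x_le (i : ℕ) : i ≤ S4x i :=
  (Nat.lt_two_pow_self).le.trans (Nat.lt_two_pow_self).le

theorem tendsto_S4x : Tendsto S4x atTop atTop := tendsto_atTop_mono S4x_le tendsto_id

theorem S4x_log (i : ℕ) : Real.log (S4x i) = 2 ^ i * Real.log 2 := by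
  unfold S4x
  push_cast
  rw [Real.log_pow]
  push_cast
  ring

theorem S4x_log_ge (i : ℕ) : (i : ℝ) ≤ 2 * Real.log (S4x i) := by
  rw [S4x_log]
  have h1 : (i : ℝ) ≤ 2 ^ i := by exact_mod_cast (Nat.lt_two_pow_self (n := i)).le
  have h2 := Real.log_two_gt_d9
  have h3 : (0 : ℝ) < 2 ^ i := by positivity
  nlinarith

/-- `A` without the windows. -/
def S4B (A : Set ℕ) (c : ℕ → ℝ) (i0 : ℕ) : Set ℕ :=
  {n | n ∈ A ∧ ∀ i, i0 ≤ i → ¬ (S4x i < n ∧ n ≤ S4x i + LibCramer.len (c i) (S4x i))}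

/-- The windows are short. -/
theorem S4_len (c : ℕ → ℝ) (lam : ℝ) (hc0 : ∀ i, 0 ≤ c i) (hc : ∀ i, c i ≤ lam + i) :
    ∃ i0, 1 ≤ i0 ∧ ∀ i, i0 ≤ i → LibCramer.len (c i) (S4x i) ≤ S4x i := by
  have h1 : ∀ᶠ x : ℝ in atTop, lam * Real.log x ^ 2 + 2 * Real.log x ^ 3 ≤ x := by
    have e1 : (fun x : ℝ => Real.log x ^ 2) =o[atTop] (id : ℝ → ℝ) :=
      Real.isLittleO_pow_log_id_atTop
    have e2 : (fun x : ℝ => Real.log x ^ 3) =o[atTop] (id : ℝ → ℝ) :=
      Real.isLittleO_pow_log_id_atTop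
    have e3 := (e1.const_mul_left lam).add (e2.const_mul_left 2)
    filter_upwards [e3.def one_pos, eventually_ge_atTop (0 : ℝ)] with x hx hx0
    rw [one_mul, Real.norm_eq_abs, Real.norm_eq_abs, id, abs_of_nonneg hx0] at hx
    exact (le_abs_self _).trans hx
  have h2 := (tendsto_natCast_atTop_atTop (R := ℝ)).comp tendsto_S4x
  obtain ⟨i0, hi0⟩ := eventually_atTop.mp (h2.eventually h1)
  refine ⟨max 1 i0, le_max_left _ _, fun i hi => ?_⟩
  have h3 := hi0 i ((le_max_right _ _).trans hi)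
  rw [Function.comp_apply] at h3
  have h4 := LibCramer.len_le (hc0 i) (S4x i)
  have h5 := S4x_log_ge i
  have hL : 0 ≤ Real.log (S4x i) := by
    rw [S4x_log]
    have := Real.log_two_gt_d9
    positivity
  have h6 : c i * Real.log (S4x i) ^ 2 ≤ (lam + 2 * Real.log (S4x i)) * Real.log (S4x i) ^ 2 := by
    refine mul_le_mul_of_nonneg_right ?_ (sq_nonneg _)
    linarith [hc i]
  have h7 : (LibCramer.len (c i) (S4x i) : ℝ) ≤ S4x i := by
    nlinarith [h4, h6, h3]
  exact_mod_cast h7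

/-- An element right after a window is kept. -/
theorem S4_avoid {A : Set ℕ} {c : ℕ → ℝ} {i0 : ℕ} (hi0 : 1 ≤ i0)
    (hlen : ∀ i, i0 ≤ i → LibCramer.len (c i) (S4x i) ≤ S4x i) {i a : ℕ} (hi : i0 ≤ i)
    (ha : a ∈ A) (h1 : S4x i + LibCramer.len (c i) (S4x i) < a)
    (h2 : a ≤ 2 * (S4x i + LibCramer.len (c i) (S4x i))) : a ∈ S4B A c i0 := by
  refine ⟨ha, fun k hk => ?_⟩
  rintro ⟨h3, h4⟩
  rcases lt_trichotomy k i with h | h | h
  · have e1 := hlen k hk
    have e2 : S4x k ^ 2 ≤ S4x i := by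
      rw [← S4x_succ]
      exact S4x_mono h
    have e3 := S4x_two_le k
    nlinarith
  · subst h
    omega
  · have e1 := hlen i hi
    have e2 : S4x i ^ 2 ≤ S4x k := by
      rw [← S4x_succ]
      exact S4x_mono h
    have e3 := S4x_four i (hi0.trans hi)
    nlinarith

open Classical in
/-- The number of the deleted elements. -/
theorem S4_count (A : Set ℕ) (c : ℕ → ℝ) (i0 : ℕ) (lam : ℝ) (hlam : 0 ≤ lam) (hc0 : ∀ i, 0 ≤ c i)
    (hc : ∀ i, c i ≤ lam + i) (x : ℕ) (hx : 2 ≤ x) :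
    (#{n ∈ Icc 1 x | n ∈ A ∧ n ∉ S4B A c i0} : ℝ) ≤ 4 * (lam + 1) * Real.log x ^ 4 := by
  set K := Nat.log 2 (Nat.log 2 x) with hK
  have hlx : 1 ≤ Nat.log 2 x := by
    rw [Nat.le_log_iff_pow_le (by norm_num) (by omega)]
    simpa using hx
  have hsub : {n ∈ Icc 1 x | n ∈ A ∧ n ∉ S4B A c i0} ⊆
      (range (K + 1)).biUnion fun i => Ioc (S4x i) (S4x i + LibCramer.len (c i) (S4x i)) := by
    intro n hn
    rw [Finset.mem_filter, Finset.mem_Icc] at hn
    obtain ⟨⟨_, hnx⟩, hnA, hnB⟩ := hn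
    have h1 : ∃ i, i0 ≤ i ∧ (S4x i < n ∧ n ≤ S4x i + LibCramer.len (c i) (S4x i)) := by
      by_contra h
      push Not at h
      exact hnB ⟨hnA, fun i hi hh => absurd hh.2 (by have := h i hi hh.1; omega)⟩
    obtain ⟨i, _, h2, h3⟩ := h1
    rw [Finset.mem_biUnion]
    refine ⟨i, ?_, Finset.mem_Ioc.mpr ⟨h2, h3⟩⟩
    rw [Finset.mem_range, Nat.lt_succ_iff, hK,
      Nat.le_log_iff_pow_le (by norm_num) (by omega),
      Nat.le_log_iff_pow_le (by norm_num) (by omega)]
    exact h2.le.trans hnx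
  have hxR : (0 : ℝ) < x := by
    have : 0 < x := by omega
    exact_mod_cast this
  have hLx : 0 ≤ Real.log x := Real.log_natCast_nonneg x
  have h2K : ((2 : ℝ)) ^ K ≤ 2 * Real.log x := by
    have h1 : 2 ^ K ≤ Nat.log 2 x := Nat.pow_log_le_self 2 (by omega)
    have h2 : 2 ^ Nat.log 2 x ≤ x := Nat.pow_log_le_self 2 (by omega)
    have h3 : ((Nat.log 2 x : ℕ) : ℝ) * Real.log 2 ≤ Real.log x := by
      rw [← Real.log_pow]
      exact Real.log_le_log (by positivity) (by exact_mod_cast h2)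
    have h4 : ((2 : ℝ)) ^ K ≤ (Nat.log 2 x : ℕ) := by exact_mod_cast h1
    have h5 := Real.log_two_gt_d9
    have h6 : (0 : ℝ) ≤ (Nat.log 2 x : ℕ) := Nat.cast_nonneg _
    nlinarith
  have hK1 : ((K : ℝ) + 1) ≤ 2 ^ K := by
    have : K + 1 ≤ 2 ^ K := Nat.lt_two_pow_self
    exact_mod_cast this
  have hterm : ∀ i ∈ range (K + 1), (LibCramer.len (c i) (S4x i) : ℝ) ≤
      (lam + K) * Real.log x ^ 2 := by
    intro i hi
    have hiK : i ≤ K := Nat.lt_succ_iff.mp (Finset.mem_range.mp hi)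
    have h1 := LibCramer.len_le (hc0 i) (S4x i)
    have h2 : S4x i ≤ x := by
      have e1 : 2 ^ i ≤ Nat.log 2 x := (Nat.pow_le_pow_right (by norm_num) hiK).trans
        (Nat.pow_log_le_self 2 (by omega))
      exact (Nat.pow_le_pow_right (by norm_num) e1).trans (Nat.pow_log_le_self 2 (by omega))
    have h3 : Real.log (S4x i) ≤ Real.log x := by
      refine Real.log_le_log ?_ (by exact_mod_cast h2)
      have := S4x_two_le i
      have : 0 < S4x i := by omega
      exact_mod_cast this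
    have h4 : 0 ≤ Real.log (S4x i) := Real.log_natCast_nonneg _
    have h5 : Real.log (S4x i) ^ 2 ≤ Real.log x ^ 2 := pow_le_pow_left₀ h4 h3 2
    have h6 : (i : ℝ) ≤ K := by exact_mod_cast hiK
    calc (LibCramer.len (c i) (S4x i) : ℝ) ≤ c i * Real.log (S4x i) ^ 2 := h1
      _ ≤ (lam + K) * Real.log x ^ 2 :=
        mul_le_mul (by linarith [hc i]) h5 (sq_nonneg _) (by positivity)
  have hcard : (#{n ∈ Icc 1 x | n ∈ A ∧ n ∉ S4B A c i0} : ℝ) ≤
      ∑ i ∈ range (K + 1), (LibCramer.len (c i) (S4x i) : ℝ) := by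
    have h1 := (Finset.card_le_card hsub).trans Finset.card_biUnion_le
    simp only [Nat.card_Ioc, Nat.add_sub_cancel_left] at h1
    exact_mod_cast h1
  refine hcard.trans ((Finset.sum_le_sum hterm).trans ?_)
  rw [Finset.sum_const, Finset.card_range, nsmul_eq_mul]
  push_cast
  have hK0 : (0 : ℝ) ≤ K := Nat.cast_nonneg K
  have a1 : (K : ℝ) + 1 ≤ 2 * Real.log x := hK1.trans h2K
  have a2 : lam + K ≤ (lam + 1) * (2 * Real.log x) := by
    have e1 : (1 : ℝ) ≤ 2 * Real.log x := by linarith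
    nlinarith
  calc ((K : ℝ) + 1) * ((lam + K) * Real.log x ^ 2) ≤
        (2 * Real.log x) * (((lam + 1) * (2 * Real.log x)) * Real.log x ^ 2) := by
        refine mul_le_mul a1 (mul_le_mul_of_nonneg_right a2 (sq_nonneg _)) ?_ (by positivity)
        exact mul_nonneg (by linarith) (sq_nonneg _)
    _ = 4 * (lam + 1) * Real.log x ^ 4 := by ring

theorem S4_tendsto_log : Tendsto (fun m : ℕ => Real.log (m : ℝ)) atTop atTop :=
  Real.tendsto_log_atTop.comp tendsto_natCast_atTop_atTop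

theorem S4_tendsto_loglog : Tendsto (fun m : ℕ => Real.log (Real.log (m : ℝ))) atTop atTop :=
  Real.tendsto_log_atTop.comp S4_tendsto_log

/-- The hitting length is at most `m`. -/
theorem S4_small (C : ℝ) (hC : 0 < C) :
    ∀ᶠ m : ℕ in atTop, C * Real.log m ^ 2 / Real.log (Real.log m) ≤ m := by
  have e1 : (fun x : ℝ => Real.log x ^ 2) =o[atTop] (id : ℝ → ℝ) :=
    Real.isLittleO_pow_log_id_atTop
  have e3 := e1.const_mul_left C
  have h1 : ∀ᶠ x : ℝ in atTop, C * Real.log x ^ 2 ≤ x := by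
    filter_upwards [e3.def one_pos, eventually_ge_atTop (0 : ℝ)] with x hx hx0
    rw [one_mul, Real.norm_eq_abs, Real.norm_eq_abs, id, abs_of_nonneg hx0] at hx
    exact (le_abs_self _).trans hx
  filter_upwards [(tendsto_natCast_atTop_atTop (R := ℝ)).eventually h1,
    S4_tendsto_loglog.eventually_ge_atTop 1] with m h2 h3
  calc C * Real.log m ^ 2 / Real.log (Real.log m) ≤ C * Real.log m ^ 2 :=
        div_le_self (by positivity) h3
    _ ≤ m := h2

/-- The main inequality. -/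
theorem S4_ineq (C lam c' : ℝ) (hc' : lam < c') :
    ∀ᶠ m : ℕ in atTop, C * Real.log m ^ 2 / Real.log (Real.log m) +
      lam * (Real.log m + Real.log 2) ^ 2 +
      C * (Real.log m + Real.log 4) ^ 2 / Real.log (Real.log m) ≤ c' * Real.log m ^ 2 := by
  have hu : Tendsto (fun m : ℕ => (Real.log (Real.log (m : ℝ)))⁻¹) atTop (𝓝 0) :=
    tendsto_inv_atTop_zero.comp S4_tendsto_loglog
  have hv : Tendsto (fun m : ℕ => (Real.log (m : ℝ))⁻¹) atTop (𝓝 0) :=
    tendsto_inv_atTop_zero.comp S4_tendsto_log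
  have h1 : Tendsto (fun m : ℕ => C * (Real.log (Real.log (m : ℝ)))⁻¹ +
      lam * (1 + Real.log 2 * (Real.log (m : ℝ))⁻¹) ^ 2 +
      C * (1 + Real.log 4 * (Real.log (m : ℝ))⁻¹) ^ 2 * (Real.log (Real.log (m : ℝ)))⁻¹) atTop
      (𝓝 (C * 0 + lam * (1 + Real.log 2 * 0) ^ 2 + C * (1 + Real.log 4 * 0) ^ 2 * 0)) :=
    ((hu.const_mul C).add ((((hv.const_mul (Real.log 2)).const_add 1).pow 2).const_mul lam)).add
      (((((hv.const_mul (Real.log 4)).const_add 1).pow 2).const_mul C).mul hu)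
  have h2 : C * 0 + lam * (1 + Real.log 2 * 0) ^ 2 + C * (1 + Real.log 4 * 0) ^ 2 * 0 < c' := by
    simpa using hc'
  filter_upwards [h1.eventually_lt_const h2, S4_tendsto_log.eventually_gt_atTop 1] with m h3 h4
  have hL : 0 < Real.log (m : ℝ) := by linarith
  have hLL : 0 < Real.log (Real.log (m : ℝ)) := Real.log_pos h4
  generalize Real.log (Real.log (m : ℝ)) = LL at *
  generalize Real.log (m : ℝ) = L at *
  have h5 : C * L ^ 2 / LL + lam * (L + Real.log 2) ^ 2 + C * (L + Real.log 4) ^ 2 / LL =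
      (C * LL⁻¹ + lam * (1 + Real.log 2 * L⁻¹) ^ 2 + C * (1 + Real.log 4 * L⁻¹) ^ 2 * LL⁻¹) *
        L ^ 2 := by
    field_simp
  rw [h5]
  exact mul_le_mul_of_nonneg_right h3.le (sq_nonneg _)

/-- All windows of length `c' log²` are hit by `B`. -/
theorem S4_hit {A : Set ℕ} {c : ℕ → ℝ} {i0 : ℕ} {C lam c' : ℝ} (hC : 0 < C) (hlam : 0 ≤ lam)
    (hc' : lam < c') (hc : ∀ i, c i = lam)
    (hA : ∀ᶠ m : ℕ in atTop, ∃ a ∈ A, m < a ∧
      (a : ℝ) ≤ m + C * Real.log m ^ 2 / Real.log (Real.log m))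
    (hi0 : 1 ≤ i0) (hlen : ∀ i, i0 ≤ i → LibCramer.len (c i) (S4x i) ≤ S4x i) :
    ∀ᶠ m : ℕ in atTop, ∃ j ∈ S4B A c i0, m < j ∧ j ≤ m + LibCramer.len c' m := by
  obtain ⟨M, hM⟩ := eventually_atTop.mp (((hA.and (S4_small C hC)).and
    (S4_ineq C lam c' hc')).and (S4_tendsto_loglog.eventually_gt_atTop 0))
  filter_upwards [eventually_ge_atTop (max M 16)] with m hm
  have hmM : M ≤ m := (le_max_left _ _).trans hm
  have hm16 : 16 ≤ m := (le_max_right _ _).trans hm
  obtain ⟨⟨⟨⟨a1, ha1, h1, h2⟩, h3⟩, h4⟩, h5⟩ := hM m hmM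
  have hm0 : (16 : ℝ) ≤ m := by exact_mod_cast hm16
  have hL : 0 < Real.log m := Real.log_pos (by linarith)
  have p1 : 0 ≤ C * Real.log m ^ 2 / Real.log (Real.log m) := by positivity
  have p2 : 0 ≤ lam * (Real.log m + Real.log 2) ^ 2 := by positivity
  have p3 : 0 ≤ C * (Real.log m + Real.log 4) ^ 2 / Real.log (Real.log m) := by positivity
  have fin : ∀ j : ℕ, (j : ℝ) ≤ m + c' * Real.log m ^ 2 → j ≤ m + LibCramer.len c' m := by
    intro j hj
    have e1 : j - m ≤ LibCramer.len c' m := by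
      refine Nat.le_floor ?_
      rcases Nat.le_total m j with h | h
      · rw [Nat.cast_sub h]
        linarith
      · rw [Nat.sub_eq_zero_of_le h]
        push_cast
        have : 0 ≤ c' := hlam.trans hc'.le
        positivity
    omega
  by_cases hB : a1 ∈ S4B A c i0
  · exact ⟨a1, hB, h1, fin _ (by linarith)⟩
  · have h6 : ∃ i, i0 ≤ i ∧ (S4x i < a1 ∧ a1 ≤ S4x i + LibCramer.len (c i) (S4x i)) := by
      by_contra h
      push Not at h
      exact hB ⟨ha1, fun i hi hh => absurd hh.2 (by have := h i hi hh.1; omega)⟩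
    obtain ⟨i, hi, h7, h8⟩ := h6
    set y := S4x i + LibCramer.len (c i) (S4x i) with hy
    obtain ⟨⟨⟨⟨a, ha, k1, k2⟩, k3⟩, _⟩, k5⟩ := hM y (by omega)
    have q1 : a ≤ 2 * y := by
      have : (a : ℝ) ≤ 2 * y := by linarith
      exact_mod_cast this
    have hyR : (y : ℝ) ≤ S4x i + lam * Real.log (S4x i) ^ 2 := by
      rw [hy]
      push_cast
      have := LibCramer.len_le (by rw [hc]; exact hlam : 0 ≤ c i) (S4x i)
      rw [hc] at this ⊢
      linarith
    have hx0 : (0 : ℝ) < S4x i := by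
      have := S4x_two_le i
      have : 0 < S4x i := by omega
      exact_mod_cast this
    have hxa : (S4x i : ℝ) ≤ a1 := by exact_mod_cast h7.le
    have ha2 : (a1 : ℝ) ≤ 2 * m := by linarith
    have hlx : Real.log (S4x i) ≤ Real.log m + Real.log 2 := by
      rw [← Real.log_mul (by positivity) (by norm_num)]
      exact Real.log_le_log hx0 (by linarith)
    have hlx0 : 0 ≤ Real.log (S4x i) := Real.log_natCast_nonneg _
    have hlx2 : lam * Real.log (S4x i) ^ 2 ≤ lam * (Real.log m + Real.log 2) ^ 2 :=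
      mul_le_mul_of_nonneg_left (pow_le_pow_left₀ hlx0 hlx 2) hlam
    have hy4 : (y : ℝ) ≤ m * 4 := by
      have : y ≤ 2 * S4x i := by
        have := hlen i hi
        omega
      have : (y : ℝ) ≤ 2 * S4x i := by exact_mod_cast this
      linarith
    have hmy : (m : ℝ) ≤ y := by
      have : m ≤ y := by omega
      exact_mod_cast this
    have hly : Real.log y ≤ Real.log m + Real.log 4 := by
      rw [← Real.log_mul (by positivity) (by norm_num)]
      exact Real.log_le_log (by linarith) hy4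
    have hly0 : Real.log m ≤ Real.log y := Real.log_le_log (by linarith) hmy
    have hlly : Real.log (Real.log m) ≤ Real.log (Real.log y) := Real.log_le_log hL hly0
    have hlast : C * Real.log y ^ 2 / Real.log (Real.log y) ≤
        C * (Real.log m + Real.log 4) ^ 2 / Real.log (Real.log m) := by
      refine div_le_div₀ (by positivity) ?_ h5 hlly
      exact mul_le_mul_of_nonneg_left (pow_le_pow_left₀ (by linarith) hly 2) hC.le
    exact ⟨a, S4_avoid hi0 hlen hi ha k1 q1, by omega, fin _ (by linarith)⟩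

open Classical in
/-- S4: the prescribed Cramer constant. -/
theorem exists_modify {A : Set ℕ} (C : ℝ) (hC : 0 < C) (hA : ∀ᶠ m : ℕ in atTop, ∃ a ∈ A, m < a ∧
      (a : ℝ) ≤ m + C * Real.log m ^ 2 / Real.log (Real.log m)) (l : ℝ≥0∞) :
    ∃ B ⊆ A, LibCramer.cramer B = l ∧ ∃ C' : ℝ, ∀ x : ℕ, 2 ≤ x →
      (#{n ∈ Icc 1 x | n ∈ A ∧ n ∉ B} : ℝ) ≤ C' * Real.log x ^ 4 := by
  set lam : ℝ := l.toReal with hlam
  have hlam0 : 0 ≤ lam := ENNReal.toReal_nonneg
  let c : ℕ → ℝ := fun i => if l = ⊤ then (i : ℝ) else lam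
  have hc0 : ∀ i, 0 ≤ c i := by
    intro i
    by_cases h : l = ⊤
    · simp [c, h]
    · simp [c, h, hlam0]
  have hc : ∀ i, c i ≤ lam + i := by
    intro i
    by_cases h : l = ⊤
    · simp [c, h, hlam0]
    · simp [c, h]
  obtain ⟨i0, hi0, hlen⟩ := S4_len c lam hc0 hc
  have hBA : S4B A c i0 ⊆ A := fun n hn => hn.1
  have hinf : (S4B A c i0).Infinite := by
    obtain ⟨M, hM⟩ := eventually_atTop.mp (hA.and (S4_small C hC))
    refine Set.infinite_of_forall_exists_gt fun N => ?_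
    obtain ⟨i, hi⟩ := (((tendsto_S4x.eventually_ge_atTop M).and
      (tendsto_S4x.eventually_ge_atTop N)).and (eventually_ge_atTop i0)).exists
    obtain ⟨⟨hi1, hi2⟩, hi3⟩ := hi
    obtain ⟨⟨a, ha, k1, k2⟩, k3⟩ := hM (S4x i + LibCramer.len (c i) (S4x i)) (by omega)
    have q1 : a ≤ 2 * (S4x i + LibCramer.len (c i) (S4x i)) := by
      have : (a : ℝ) ≤ 2 * ((S4x i + LibCramer.len (c i) (S4x i) : ℕ) : ℝ) := by linarith
      exact_mod_cast this
    exact ⟨a, S4_avoid hi0 hlen hi3 ha k1 q1, by omega⟩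
  have hmiss : ∀ i, i0 ≤ i → ∀ j, S4x i < j → j ≤ S4x i + LibCramer.len (c i) (S4x i) →
      j ∉ S4B A c i0 := fun i hi j h1 h2 h3 => h3.2 i hi ⟨h1, h2⟩
  have hge : ∀ d : ℝ, 0 ≤ d → (∀ᶠ i : ℕ in atTop, d ≤ c i) →
      ENNReal.ofReal d ≤ LibCramer.cramer (S4B A c i0) := by
    intro d hd hdc
    refine LibCramer.le_cramer hinf hd (tendsto_S4x.frequently (Eventually.frequently ?_))
    filter_upwards [hdc, eventually_ge_atTop i0] with i h1 h2 j h3 h4
    refine hmiss i h2 j h3 (h4.trans ?_)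
    have := LibCramer.len_mono h1 (S4x i)
    omega
  refine ⟨S4B A c i0, hBA, ?_, 4 * (lam + 1), fun x hx => S4_count A c i0 lam hlam0 hc0 hc x hx⟩
  by_cases h : l = ⊤
  · rw [h]
    refine ENNReal.eq_top_of_forall_nnreal_le fun r => ?_
    have h1 := hge r r.2 (by
      filter_upwards [eventually_ge_atTop ⌈(r : ℝ)⌉₊] with i hi
      have : c i = i := by simp [c, h]
      rw [this]
      exact (Nat.le_ceil _).trans (by exact_mod_cast hi))
    rwa [ENNReal.ofReal_coe_nnreal] at h1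
  · have hci : ∀ i, c i = lam := by
      intro i
      simp [c, h]
    have hl : ENNReal.ofReal lam = l := ENNReal.ofReal_toReal h
    refine le_antisymm ?_ ?_
    · refine ENNReal.le_of_forall_pos_le_add fun ε hε _ => ?_
      have hε' : (0 : ℝ) < ε := hε
      have h1 := LibCramer.cramer_le hinf (by linarith : 0 ≤ lam + ε)
        (S4_hit hC hlam0 (by linarith : lam < lam + ε) hci hA hi0 hlen)
      rwa [ENNReal.ofReal_add hlam0 hε'.le, hl, ENNReal.ofReal_coe_nnreal] at h1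
    · rw [← hl]
      exact hge lam hlam0 (Eventually.of_forall fun i => (hci i).ge)

end Pool.Agent.LibBar93
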