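import Pool.Agent.LibBar93.Defs2

/-! Row S2. -/

set_option linter.unusedVariables false

namespace Pool.Agent.LibBar93

open Finset MeasureTheory ProbabilityTheory Filter
open scoped ENNReal

theorem S2_log {x : ℕ} (hx : 2 ≤ x) :
    ((Nat.log 2 x + 1 : ℕ) : ℝ) ≤ 3 * Real.log x ∧ Real.log (2 * x : ℕ) ≤ 2 * Real.log x ∧
      0 ≤ Real.log x := by
  have hx' : (2 : ℝ) ≤ x := by exact_mod_cast hx
  have hx0 : (0 : ℝ) < x := by linarith
  have hl2 : 0.6931471803 < Real.log 2 := Real.log_two_gt_d9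
  have hl : Real.log 2 ≤ Real.log x := Real.log_le_log (by norm_num) hx'
  have h1 : ((2 ^ Nat.log 2 x : ℕ) : ℝ) ≤ x := by
    exact_mod_cast Nat.pow_log_le_self 2 (by omega)
  have h2 : (Nat.log 2 x : ℝ) * Real.log 2 ≤ Real.log x := by
    rw [← Real.log_pow]
    refine Real.log_le_log (by positivity) ?_
    exact_mod_cast h1
  refine ⟨?_, ?_, by linarith⟩
  · push_cast
    have h3 : (Nat.log 2 x : ℝ) * 0.69 ≤ (Nat.log 2 x : ℝ) * Real.log 2 :=
      mul_le_mul_of_nonneg_left (by linarith) (Nat.cast_nonneg _)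
    linarith
  · push_cast
    rw [Real.log_mul (by norm_num) hx0.ne']
    linarith

open Classical in
/-- S2. -/
theorem SmallLaw.modify {p : ℕ → ℝ} {A B : Set ℕ} (h : SmallLaw p A) (hBA : B ⊆ A) (C : ℝ)
    (hC : ∀ x : ℕ, 2 ≤ x → (#{n ∈ Icc 1 x | n ∈ A ∧ n ∉ B} : ℝ) ≤ C * Real.log x ^ 4) :
    SmallLaw p B := by
  obtain ⟨C1, hC1⟩ := h
  refine ⟨C1 + 48 * |C|, fun x hx H hH hcard q a hq ha => ?_⟩
  obtain ⟨hl1, hl2, hl0⟩ := S2_log hx
  have h1 := hC1 x hx H hH hcard q a hq ha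
  have hle : tuples B H q a x ≤ tuples A H q a x := by
    unfold tuples
    refine card_le_card fun n hn => ?_
    rw [mem_filter] at hn ⊢
    exact ⟨hn.1, hn.2.1, fun k hk => hBA (hn.2.2 k hk)⟩
  set S : Finset ℕ := {n ∈ Icc 1 (2 * x) | n ∈ A ∧ n ∉ B} with hS
  have hdiff : tuples A H q a x ≤ tuples B H q a x + #H * #S := by
    have h2 : ({n ∈ Icc 1 x | n ≡ a [MOD q] ∧ ∀ k ∈ H, n + k ∈ A} : Finset ℕ) ⊆
        ({n ∈ Icc 1 x | n ≡ a [MOD q] ∧ ∀ k ∈ H, n + k ∈ B} : Finset ℕ) ∪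
          H.biUnion (fun k => {n ∈ Icc 1 x | n + k ∈ S}) := by
      intro n hn
      rw [mem_filter] at hn
      by_cases hB : ∀ k ∈ H, n + k ∈ B
      · exact mem_union_left _ (mem_filter.2 ⟨hn.1, hn.2.1, hB⟩)
      · push Not at hB
        obtain ⟨k, hk, hkB⟩ := hB
        refine mem_union_right _ (mem_biUnion.2 ⟨k, hk, mem_filter.2 ⟨hn.1, ?_⟩⟩)
        rw [hS, mem_filter, mem_Icc]
        have h3 := mem_Icc.1 hn.1
        have h4 := hH k hk
        exact ⟨⟨by omega, by omega⟩, hn.2.2 k hk, hkB⟩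
    have h5 : ∀ k ∈ H, #({n ∈ Icc 1 x | n + k ∈ S} : Finset ℕ) ≤ #S := by
      intro k _
      refine card_le_card_of_injOn (fun n => n + k) ?_ ?_
      · intro n hn
        have h7 : n ∈ ({n ∈ Icc 1 x | n + k ∈ S} : Finset ℕ) := hn
        exact (mem_filter.1 h7).2
      · intro n _ m _ hnm
        exact Nat.add_right_cancel hnm
    calc tuples A H q a x ≤ #(({n ∈ Icc 1 x | n ≡ a [MOD q] ∧ ∀ k ∈ H, n + k ∈ B} : Finset ℕ) ∪
          H.biUnion (fun k => {n ∈ Icc 1 x | n + k ∈ S})) := card_le_card h2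
      _ ≤ tuples B H q a x + #(H.biUnion (fun k => ({n ∈ Icc 1 x | n + k ∈ S} : Finset ℕ))) :=
          card_union_le _ _
      _ ≤ tuples B H q a x + #H * #S := by
          refine Nat.add_le_add_left ?_ _
          exact card_biUnion_le_card_mul _ _ _ h5
  have hSC : (#S : ℝ) ≤ |C| * (16 * Real.log x ^ 4) := by
    have h2 := hC (2 * x) (by omega)
    have h3 : Real.log (2 * x : ℕ) ^ 4 ≤ (2 * Real.log x) ^ 4 := by
      refine pow_le_pow_left₀ (Real.log_nonneg ?_) hl2 4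
      have : (1 : ℕ) ≤ 2 * x := by omega
      exact_mod_cast this
    calc (#S : ℝ) ≤ C * Real.log (2 * x : ℕ) ^ 4 := h2
      _ ≤ |C| * Real.log (2 * x : ℕ) ^ 4 :=
          mul_le_mul_of_nonneg_right (le_abs_self C) (by positivity)
      _ ≤ |C| * (2 * Real.log x) ^ 4 := mul_le_mul_of_nonneg_left h3 (abs_nonneg C)
      _ = |C| * (16 * Real.log x ^ 4) := by ring
  have hH' : (#H : ℝ) ≤ 3 * Real.log x := by
    refine le_trans ?_ hl1
    exact_mod_cast hcard
  have hprod : ((#H * #S : ℕ) : ℝ) ≤ 48 * |C| * √x * Real.log x ^ 5 := by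
    push_cast
    have hsq : (1 : ℝ) ≤ √x := by
      rw [Real.one_le_sqrt]
      have : (1 : ℕ) ≤ x := by omega
      exact_mod_cast this
    calc (#H : ℝ) * #S ≤ (3 * Real.log x) * (|C| * (16 * Real.log x ^ 4)) :=
          mul_le_mul hH' hSC (Nat.cast_nonneg _) (by positivity)
      _ = 48 * |C| * 1 * Real.log x ^ 5 := by ring
      _ ≤ 48 * |C| * √x * Real.log x ^ 5 := by
          refine mul_le_mul_of_nonneg_right (mul_le_mul_of_nonneg_left hsq (by positivity))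
            (by positivity)
  have e1 : (tuples B H q a x : ℝ) ≤ tuples A H q a x := by exact_mod_cast hle
  have e2 : (tuples A H q a x : ℝ) ≤ tuples B H q a x + ((#H * #S : ℕ) : ℝ) := by
    exact_mod_cast hdiff
  rw [abs_le] at h1 ⊢
  constructor
  · linarith [h1.1]
  · have h6 : 0 ≤ 48 * |C| * √x * Real.log x ^ 5 := by positivity
    linarith [h1.2]

end Pool.Agent.LibBar93
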