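import Pool.Agent.LibBar93.Blocks

set_option linter.unusedVariables false

namespace Pool.Agent.LibBar93

open Finset MeasureTheory ProbabilityTheory Filter
open scoped ENNReal

/-- C4: the number of the conflicts. -/
theorem conflicts {J : ℕ} (hJ : 64 ≤ J) (x : ℕ) (hx : 2 ≤ x) (H : Finset ℕ) (hH : ∀ h ∈ H, h ≤ x)
    (a : ℕ) (t : Finset ℕ) (ht : t ⊆ Icc 1 x)
    (hc : ∀ b ∈ t, ¬ Disjoint ((H.image (a + ·)).image (blk J)) ((H.image (b + ·)).image (blk J))) :
    #t ≤ #H ^ 2 * (2 ^ J + 1000 * (Nat.log 2 x + 2) ^ 2) := by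
  have h1 : t ⊆ (H ×ˢ H).biUnion (fun q => t.filter (fun b => blk J (b + q.2) = blk J (a + q.1))) := by
    intro b hb
    have h2 := hc b hb
    rw [Finset.not_disjoint_iff] at h2
    obtain ⟨i, hi, hi'⟩ := h2
    rw [Finset.image_image, Finset.mem_image] at hi hi'
    obtain ⟨h, hh, hhi⟩ := hi
    obtain ⟨h', hh', hhi'⟩ := hi'
    rw [Finset.mem_biUnion]
    refine ⟨(h, h'), Finset.mem_product.2 ⟨hh, hh'⟩, ?_⟩
    rw [Finset.mem_filter]
    exact ⟨hb, hhi'.trans hhi.symm⟩
  have hlog : Nat.log 2 (2 * x) = Nat.log 2 x + 1 := by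
    rw [mul_comm]
    exact Nat.log_mul_base one_lt_two (by omega)
  refine (Finset.card_le_card h1).trans ?_
  refine (Finset.card_biUnion_le_card_mul _ _ (2 ^ J + 1000 * (Nat.log 2 x + 2) ^ 2) ?_).trans ?_
  · rintro ⟨h, h'⟩ hq
    rw [Finset.mem_product] at hq
    have h3 := card_blk hJ (2 * x) (blk J (a + h))
    rw [hlog] at h3
    refine le_trans ?_ h3
    refine Finset.card_le_card_of_injOn (fun b => b + h') ?_ ?_
    · intro b hb
      rw [Finset.mem_coe, Finset.mem_filter] at hb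
      rw [Finset.mem_coe, Finset.mem_filter, Finset.mem_range]
      have h4 := Finset.mem_Icc.1 (ht hb.1)
      have h5 := hH h' hq.2
      have h6 : b + h' < 2 * x + 1 := by omega
      exact ⟨h6, hb.2⟩
    · intro b _ c _ hbc
      exact Nat.add_right_cancel hbc
  · rw [Finset.card_product, sq (#H)]

/-- C5: the number of the small sets. -/
theorem card_small (x K : ℕ) :
    #{H ∈ (range (x + 1)).powerset | #H ≤ K} ≤ (x + 2) ^ K := by
  have h1 : (range (x + 1)).powerset.filter (fun H => #H ≤ K) ⊆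
      (univ : Finset (Fin K → Fin (x + 2))).image
        (fun f => (univ.image (fun i => ((f i : Fin (x + 2)) : ℕ))).erase (x + 1)) := by
    intro H hH
    rw [Finset.mem_filter, Finset.mem_powerset] at hH
    obtain ⟨hH, hK⟩ := hH
    rw [Finset.mem_image]
    refine ⟨fun i => if h : (i : ℕ) < #H then
      ⟨(H.equivFin.symm ⟨i, h⟩ : ℕ), by
        have := Finset.mem_range.1 (hH (H.equivFin.symm ⟨i, h⟩).2)
        omega⟩ else ⟨x + 1, by omega⟩, Finset.mem_univ _, ?_⟩
    ext n
    rw [Finset.mem_erase, Finset.mem_image]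
    constructor
    · rintro ⟨hn, i, -, hi⟩
      by_cases h : (i : ℕ) < #H
      · simp only [dif_pos h] at hi
        rw [← hi]
        exact (H.equivFin.symm ⟨i, h⟩).2
      · simp only [dif_neg h] at hi
        exact absurd hi.symm hn
    · intro hn
      have hnx := Finset.mem_range.1 (hH hn)
      refine ⟨by omega, ⟨(H.equivFin ⟨n, hn⟩ : ℕ), ?_⟩, Finset.mem_univ _, ?_⟩
      · exact lt_of_lt_of_le (H.equivFin ⟨n, hn⟩).2 hK
      · simp only [dif_pos (H.equivFin ⟨n, hn⟩).2]
        simp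
  refine (Finset.card_le_card h1).trans (Finset.card_image_le.trans ?_)
  rw [Finset.card_univ, Fintype.card_fun, Fintype.card_fin, Fintype.card_fin]

end Pool.Agent.LibBar93
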