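import Pool.Agent.LibBar93.Defs2

set_option linter.unusedVariables false

namespace Pool.Agent.LibBar93

open Finset MeasureTheory ProbabilityTheory Filter
open scoped ENNReal

/-- C6: the sum of the exceptional probabilities. -/
theorem summable_bad (J : ℕ) : Summable (fun x : ℕ =>
    ((x + 2 : ℕ) : ℝ) ^ (Nat.log 2 x + 1) * (x + 1) ^ 2 *
      (((Nat.log 2 x + 1) ^ 2 * (2 ^ J + 1000 * (Nat.log 2 x + 2) ^ 2) + 1 : ℕ) : ℝ) *
      (2 * Real.exp (-2 * ((4 * (Nat.log 2 x + 1 : ℕ) : ℝ) * √x) ^ 2 / x))) := by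
  refine Summable.of_norm_bounded_eventually_nat
    (g := fun x : ℕ => (2 * ((2 : ℝ) ^ J + 1001)) * (1 / (x : ℝ) ^ 2)) ?_ ?_
  · exact (Real.summable_one_div_nat_pow.mpr one_lt_two).mul_left _
  · filter_upwards [eventually_ge_atTop 1] with x hx
    have hlt : x < 2 ^ (Nat.log 2 x + 1) := Nat.lt_pow_succ_log_self one_lt_two x
    obtain ⟨L, hL⟩ : ∃ L, L = Nat.log 2 x + 1 := ⟨_, rfl⟩
    have hL2 : Nat.log 2 x + 2 = L + 1 := by omega
    rw [hL2, ← hL]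
    rw [← hL] at hlt
    have hL1 : 1 ≤ L := by omega
    rw [Real.norm_of_nonneg (by positivity)]
    have hxR : (1 : ℝ) ≤ x := by exact_mod_cast hx
    have hx0 : (0 : ℝ) < x := by linarith
    -- the exponential
    have e0 : -2 * ((4 * (L : ℝ)) * √x) ^ 2 / x = ((32 * L ^ 2 : ℕ) : ℝ) * (-1) := by
      rw [mul_pow, Real.sq_sqrt hx0.le]
      push_cast
      field_simp
      ring
    have e1 : Real.exp (-1) ≤ 1 / 2 := by
      rw [Real.exp_neg, one_div]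
      refine inv_anti₀ (by norm_num) ?_
      have := Real.add_one_le_exp (1 : ℝ)
      linarith
    have e2 : Real.exp (-2 * ((4 * (L : ℝ)) * √x) ^ 2 / x) ≤ (1 / 2 : ℝ) ^ (32 * L ^ 2) := by
      rw [e0, Real.exp_nat_mul]
      exact pow_le_pow_left₀ (Real.exp_pos _).le e1 _
    -- the powers
    have a1 : ((x + 2 : ℕ) : ℝ) ^ L ≤ (2 : ℝ) ^ ((L + 1) * L) := by
      rw [pow_mul]
      refine pow_le_pow_left₀ (Nat.cast_nonneg _) ?_ _
      have : x + 2 ≤ 2 ^ (L + 1) := by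
        have : 2 ≤ 2 ^ L := by
          calc 2 = 2 ^ 1 := (pow_one 2).symm
            _ ≤ 2 ^ L := Nat.pow_le_pow_right (by norm_num) hL1
        rw [pow_succ]
        omega
      exact_mod_cast this
    have a2 : ((x : ℝ) + 1) ^ 2 ≤ (2 : ℝ) ^ (2 * L) := by
      rw [mul_comm 2 L, pow_mul]
      refine pow_le_pow_left₀ (by positivity) ?_ _
      have : x + 1 ≤ 2 ^ L := hlt
      exact_mod_cast this
    have b1 : L + 1 ≤ 2 ^ L := Nat.lt_two_pow_self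
    have b2 : (L ^ 2 * (2 ^ J + 1000 * (L + 1) ^ 2) + 1 : ℕ) ≤ (2 ^ J + 1001) * 2 ^ (4 * L) := by
      have c1 : L ^ 2 ≤ 2 ^ (2 * L) := by
        rw [mul_comm 2 L, pow_mul]
        exact Nat.pow_le_pow_left (by omega) 2
      have c2 : (L + 1) ^ 2 ≤ 2 ^ (2 * L) := by
        rw [mul_comm 2 L, pow_mul]
        exact Nat.pow_le_pow_left b1 2
      have c3 : 2 ^ (4 * L) = 2 ^ (2 * L) * 2 ^ (2 * L) := by
        rw [← pow_add]; congr 1; ring
      have c4 : 1 ≤ 2 ^ (2 * L) := Nat.one_le_two_pow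
      rw [c3]
      generalize 2 ^ (2 * L) = Y at c1 c2 c4
      generalize 2 ^ J = Z
      calc L ^ 2 * (Z + 1000 * (L + 1) ^ 2) + 1
          ≤ Y * (Z * Y + 1000 * Y) + Y * Y := by
            refine Nat.add_le_add (Nat.mul_le_mul c1 (Nat.add_le_add ?_ (Nat.mul_le_mul_left _ c2)))
              (Nat.mul_le_mul c4 c4)
            exact Nat.le_mul_of_pos_right _ c4
        _ = (Z + 1001) * (Y * Y) := by ring
    have a3 : ((L ^ 2 * (2 ^ J + 1000 * (L + 1) ^ 2) + 1 : ℕ) : ℝ) ≤ ((2 : ℝ) ^ J + 1001) * 2 ^ (4 * L) := by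
      exact_mod_cast b2
    have key : ((x + 2 : ℕ) : ℝ) ^ L * ((x : ℝ) + 1) ^ 2 *
        ((L ^ 2 * (2 ^ J + 1000 * (L + 1) ^ 2) + 1 : ℕ) : ℝ) *
        (2 * Real.exp (-2 * ((4 * (L : ℝ)) * √x) ^ 2 / x)) ≤
        (2 : ℝ) ^ ((L + 1) * L) * (2 : ℝ) ^ (2 * L) * (((2 : ℝ) ^ J + 1001) * 2 ^ (4 * L)) *
          (2 * (1 / 2 : ℝ) ^ (32 * L ^ 2)) := by
      gcongr
    refine key.trans ?_
    have k1 : (2 : ℝ) ^ ((L + 1) * L) * (2 : ℝ) ^ (2 * L) * (((2 : ℝ) ^ J + 1001) * 2 ^ (4 * L)) *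
          (2 * (1 / 2 : ℝ) ^ (32 * L ^ 2)) =
        (2 * ((2 : ℝ) ^ J + 1001)) * ((2 : ℝ) ^ ((L + 1) * L + 2 * L + 4 * L) * (1 / 2 : ℝ) ^ (32 * L ^ 2)) := by
      rw [pow_add, pow_add]
      ring
    rw [k1]
    refine mul_le_mul_of_nonneg_left ?_ (by positivity)
    have k2 : (L + 1) * L + 2 * L + 4 * L + 2 * L ≤ 32 * L ^ 2 := by nlinarith
    obtain ⟨r, hr⟩ := Nat.exists_eq_add_of_le k2
    have k3 : (2 : ℝ) ^ ((L + 1) * L + 2 * L + 4 * L) * (1 / 2 : ℝ) ^ (32 * L ^ 2) =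
        (1 / 2 : ℝ) ^ (2 * L) * (1 / 2 : ℝ) ^ r := by
      rw [hr, pow_add _ ((L + 1) * L + 2 * L + 4 * L + 2 * L) r, pow_add _ ((L + 1) * L + 2 * L + 4 * L) (2 * L),
        ← mul_assoc, ← mul_assoc, ← mul_pow]
      norm_num
    rw [k3]
    have k4 : (1 / 2 : ℝ) ^ r ≤ 1 := pow_le_one₀ (by norm_num) (by norm_num)
    have k5 : (1 / 2 : ℝ) ^ (2 * L) ≤ 1 / (x : ℝ) ^ 2 := by
      rw [mul_comm 2 L, pow_mul, one_div_pow, one_div_pow]
      refine one_div_le_one_div_of_le (by positivity) ?_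
      refine pow_le_pow_left₀ hx0.le ?_ _
      exact_mod_cast hlt.le
    calc (1 / 2 : ℝ) ^ (2 * L) * (1 / 2 : ℝ) ^ r ≤ (1 / 2 : ℝ) ^ (2 * L) * 1 :=
          mul_le_mul_of_nonneg_left k4 (by positivity)
      _ = (1 / 2 : ℝ) ^ (2 * L) := mul_one _
      _ ≤ _ := k5

end Pool.Agent.LibBar93
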