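import Pool.Agent.LibBar93.Expect
import Pool.Agent.LibBar93.Conc
import Pool.Agent.LibBar93.Count
import Pool.Agent.LibBar93.Summ

/-! The union bound and the Borel-Cantelli lemma. -/

set_option autoImplicit false
set_option linter.unusedSectionVars false

namespace Pool.Agent.LibBar93

open Finset MeasureTheory ProbabilityTheory Filter
open scoped ENNReal

/-- the shifts of `H` -/
def sh (H : Finset ℕ) (n : ℕ) : Finset ℕ := H.image (n + ·)

theorem mem_sh {H : Finset ℕ} {n m : ℕ} : m ∈ sh H n ↔ ∃ h ∈ H, n + h = m := by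
  unfold sh
  rw [mem_image]

theorem prod_sh (p : ℕ → ℝ) (H : Finset ℕ) (n : ℕ) : ∏ m ∈ sh H n, p m = ∏ h ∈ H, p (n + h) := by
  unfold sh
  exact Finset.prod_image fun a _ b _ h => Nat.add_left_cancel h

/-- the class -/
def cls (q a x : ℕ) : Finset ℕ := {n ∈ Icc 1 x | n ≡ a [MOD q]}

theorem cls_sub (q a x : ℕ) : cls q a x ⊆ Icc 1 x := filter_subset _ _

theorem card_cls (q a x : ℕ) : (#(cls q a x) : ℝ) ≤ x := by
  have h := Finset.card_le_card (cls_sub q a x)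
  rw [Nat.card_Icc] at h
  have : #(cls q a x) ≤ x := by omega
  exact_mod_cast this

open Classical in
theorem tuples_eq (A : Set ℕ) (H : Finset ℕ) (q a x : ℕ) :
    (tuples A H q a x : ℝ) = ∑ n ∈ cls q a x, if ∀ m ∈ sh H n, m ∈ A then (1 : ℝ) else 0 := by
  unfold tuples cls
  rw [Finset.sum_boole, Finset.filter_filter]
  congr 2
  ext n
  simp only [mem_filter, mem_sh, forall_exists_index, and_imp, forall_apply_eq_imp_iff₂]

theorem mainT_eq (p : ℕ → ℝ) (H : Finset ℕ) (q a x : ℕ) :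
    mainT p H q a x = ∑ n ∈ cls q a x, ∏ m ∈ sh H n, p m := by
  unfold mainT cls
  refine Finset.sum_congr rfl fun n _ => ?_
  rw [prod_sh]

theorem sum_inv_sqrt (x : ℕ) : ∑ n ∈ Icc 1 x, 2 / √(n : ℝ) ≤ 4 * √x := by
  induction x with
  | zero => simp
  | succ x ih =>
    rw [Finset.sum_Icc_succ_top (by omega)]
    have h1 : (0 : ℝ) < √((x + 1 : ℕ) : ℝ) := Real.sqrt_pos.2 (by positivity)
    have h2 : √(x : ℝ) ≤ √((x + 1 : ℕ) : ℝ) := Real.sqrt_le_sqrt (by push_cast; linarith)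
    have h3 : √((x + 1 : ℕ) : ℝ) ^ 2 = x + 1 := by
      rw [Real.sq_sqrt (by positivity)]
      push_cast
      ring
    have h4 : √(x : ℝ) ^ 2 = x := Real.sq_sqrt (by positivity)
    have h5 : 2 / √((x + 1 : ℕ) : ℝ) ≤ 4 * √((x + 1 : ℕ) : ℝ) - 4 * √(x : ℝ) := by
      rw [div_le_iff₀ h1]
      nlinarith [Real.sqrt_nonneg (x : ℝ)]
    linarith

section

variable {p : ℕ → ℝ} {J : ℕ} {Ω : Type} [MeasurableSpace Ω] {μ : Measure Ω}
  [IsProbabilityMeasure μ] {A : Ω → Set ℕ} {P : Finset ℕ → ℝ}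

theorem Model.sum_expect (hp : Weight p J) (hM : Model p J μ A P) (H : Finset ℕ) (q a x : ℕ) :
    |∑ n ∈ cls q a x, P (sh H n) - mainT p H q a x| ≤ 2 ^ J + 4 * √x := by
  rw [mainT_eq, ← Finset.sum_sub_distrib]
  have h1 : ∀ n ∈ cls q a x, |P (sh H n) - ∏ m ∈ sh H n, p m| ≤
      (if n < 2 ^ J then (1 : ℝ) else 0) + 2 / √n := by
    intro n hn
    have hn1 : 1 ≤ n := (mem_Icc.1 (cls_sub q a x hn)).1
    by_cases hlt : n < 2 ^ J
    · rw [if_pos hlt]
      have a1 := hM.P_nonneg (sh H n)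
      have a2 := hM.P_le_one (sh H n)
      have a3 : 0 ≤ ∏ m ∈ sh H n, p m := Finset.prod_nonneg fun m _ => hp.nonneg m
      have a4 : ∏ m ∈ sh H n, p m ≤ 1 :=
        Finset.prod_le_one (fun m _ => hp.nonneg m) fun m _ => hp.le_one m
      have a5 : 0 ≤ 2 / √(n : ℝ) := by positivity
      have a6 : |P (sh H n) - ∏ m ∈ sh H n, p m| ≤ 1 := by
        rw [abs_le]
        constructor <;> linarith
      linarith
    · rw [if_neg hlt, zero_add]
      push Not at hlt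
      refine hM.expect hp (sh H n) n hn1 ?_ ?_
      · exact Nat.le_log_of_pow_le (by norm_num) hlt
      · intro m hm
        obtain ⟨h, -, rfl⟩ := mem_sh.1 hm
        omega
  calc |∑ n ∈ cls q a x, (P (sh H n) - ∏ m ∈ sh H n, p m)|
      ≤ ∑ n ∈ cls q a x, |P (sh H n) - ∏ m ∈ sh H n, p m| := Finset.abs_sum_le_sum_abs _ _
    _ ≤ ∑ n ∈ cls q a x, ((if n < 2 ^ J then (1 : ℝ) else 0) + 2 / √n) := Finset.sum_le_sum h1
    _ ≤ ∑ n ∈ Icc 1 x, ((if n < 2 ^ J then (1 : ℝ) else 0) + 2 / √n) := by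
        refine Finset.sum_le_sum_of_subset_of_nonneg (cls_sub q a x) fun n _ _ => ?_
        split_ifs <;> positivity
    _ = ∑ n ∈ Icc 1 x, (if n < 2 ^ J then (1 : ℝ) else 0) + ∑ n ∈ Icc 1 x, 2 / √(n : ℝ) :=
        Finset.sum_add_distrib
    _ ≤ 2 ^ J + 4 * √x := by
        refine add_le_add ?_ (sum_inv_sqrt x)
        rw [Finset.sum_boole]
        have : #{n ∈ Icc 1 x | n < 2 ^ J} ≤ 2 ^ J := by
          calc #{n ∈ Icc 1 x | n < 2 ^ J} ≤ #(range (2 ^ J)) := by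
                refine Finset.card_le_card fun n hn => ?_
                rw [mem_filter] at hn
                exact mem_range.2 hn.2
            _ = 2 ^ J := card_range _
        exact_mod_cast this

open Classical in
/-- the bad event -/
def bad (A : Ω → Set ℕ) (P : Finset ℕ → ℝ) (J x : ℕ) : Set Ω :=
  if 2 ≤ x then
    ⋃ i ∈ ({H ∈ (range (x + 1)).powerset | #H ≤ Nat.log 2 x + 1} ×ˢ (range (x + 1) ×ˢ range (x + 1)) :
      Finset (Finset ℕ × ℕ × ℕ)),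
      {ω | ((((Nat.log 2 x + 1) ^ 2 * (2 ^ J + 1000 * (Nat.log 2 x + 2) ^ 2) : ℕ) : ℝ) + 1) *
        ((4 * (Nat.log 2 x + 1 : ℕ) : ℝ) * √x) ≤
        |∑ n ∈ cls i.2.1 i.2.2 x, ((if ∀ m ∈ sh i.1 n, m ∈ A ω then (1 : ℝ) else 0) -
          P (sh i.1 n))|}
  else ∅

theorem Model.bad_le (hp : Weight p J) (hM : Model p J μ A P) (x : ℕ) :
    μ.real (bad A P J x) ≤ ((x + 2 : ℕ) : ℝ) ^ (Nat.log 2 x + 1) * (x + 1) ^ 2 *
      (((Nat.log 2 x + 1) ^ 2 * (2 ^ J + 1000 * (Nat.log 2 x + 2) ^ 2) + 1 : ℕ) : ℝ) *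
      (2 * Real.exp (-2 * ((4 * (Nat.log 2 x + 1 : ℕ) : ℝ) * √x) ^ 2 / x)) := by
  classical
  unfold bad
  split_ifs with hx
  swap
  · rw [measureReal_empty]
    positivity
  set D : ℕ := (Nat.log 2 x + 1) ^ 2 * (2 ^ J + 1000 * (Nat.log 2 x + 2) ^ 2) with hD
  set E : ℝ := 2 * Real.exp (-2 * ((4 * (Nat.log 2 x + 1 : ℕ) : ℝ) * √x) ^ 2 / x) with hE
  have hx0 : (0 : ℝ) < x := by
    have : 0 < x := by omega
    exact_mod_cast this
  have hE0 : 0 ≤ E := by positivity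
  refine (measureReal_biUnion_finset_le _ _).trans ?_
  have h1 : ∀ i ∈ ({H ∈ (range (x + 1)).powerset | #H ≤ Nat.log 2 x + 1} ×ˢ
      (range (x + 1) ×ˢ range (x + 1)) : Finset (Finset ℕ × ℕ × ℕ)),
      μ.real {ω | ((D : ℝ) + 1) * ((4 * (Nat.log 2 x + 1 : ℕ) : ℝ) * √x) ≤
        |∑ n ∈ cls i.2.1 i.2.2 x, ((if ∀ m ∈ sh i.1 n, m ∈ A ω then (1 : ℝ) else 0) -
          P (sh i.1 n))|} ≤ ((D : ℝ) + 1) * E := by
    intro i hi
    rw [mem_product, mem_filter, mem_powerset] at hi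
    obtain ⟨⟨hH, hHk⟩, -⟩ := hi
    have hHx : ∀ h ∈ i.1, h ≤ x := fun h hh => by
      have := hH hh
      rw [mem_range] at this
      omega
    refine hM.conc (cls i.2.1 i.2.2 x) (sh i.1) D ?_ x _ (by positivity) hx0 (card_cls _ _ _)
    intro a _ t ht hc
    refine (conflicts hp.hJ x hx i.1 hHx a t (ht.trans (cls_sub _ _ _)) hc).trans ?_
    rw [hD]
    gcongr
  refine (Finset.sum_le_sum h1).trans ?_
  rw [Finset.sum_const, nsmul_eq_mul, card_product, card_product, card_range]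
  have h2 : ((#{H ∈ (range (x + 1)).powerset | #H ≤ Nat.log 2 x + 1} : ℕ) : ℝ) ≤
      ((x + 2 : ℕ) : ℝ) ^ (Nat.log 2 x + 1) := by
    exact_mod_cast card_small x (Nat.log 2 x + 1)
  push_cast at h2 ⊢
  calc (#{H ∈ (range (x + 1)).powerset | #H ≤ Nat.log 2 x + 1} : ℝ) * (((x : ℝ) + 1) * (x + 1)) *
        (((D : ℝ) + 1) * E) ≤ ((x : ℝ) + 2) ^ (Nat.log 2 x + 1) * (((x : ℝ) + 1) * (x + 1)) *
        (((D : ℝ) + 1) * E) := by
        gcongr
    _ = ((x : ℝ) + 2) ^ (Nat.log 2 x + 1) * (x + 1) ^ 2 * ((D : ℝ) + 1) * E := by ring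

end

/-- an elementary estimate -/
theorem log_facts (x : ℕ) (hx : 2 ≤ x) : ((Nat.log 2 x + 1 : ℕ) : ℝ) ≤ 3 * Real.log x ∧
    (1 : ℝ) ≤ 2 * Real.log x ∧ 0 < Real.log x := by
  have hx' : (2 : ℝ) ≤ x := by exact_mod_cast hx
  have h1 : Real.log 2 ≤ Real.log x := Real.log_le_log (by norm_num) hx'
  have h2 := Real.log_two_gt_d9
  have h3 : (Nat.log 2 x : ℝ) * Real.log 2 ≤ Real.log x := by
    rw [← Real.log_pow]
    refine Real.log_le_log (by positivity) ?_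
    exact_mod_cast Nat.pow_log_le_self 2 (by omega)
  refine ⟨?_, by linarith, by linarith⟩
  push_cast
  have h4 : (0 : ℝ) ≤ Nat.log 2 x := by positivity
  nlinarith

theorem abs_sub_le_nat {p : ℕ → ℝ} {J : ℕ} (hp : Weight p J) (A : Set ℕ) (H : Finset ℕ)
    (q a x : ℕ) : |(tuples A H q a x : ℝ) - mainT p H q a x| ≤ x := by
  classical
  have h0 := card_cls q a x
  have h1 : (tuples A H q a x : ℝ) ≤ x := by
    rw [tuples_eq]
    refine le_trans ?_ h0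
    rw [← nsmul_one, ← Finset.sum_const]
    refine Finset.sum_le_sum fun n _ => ?_
    split_ifs <;> norm_num
  have h2 : mainT p H q a x ≤ x := by
    rw [mainT_eq]
    refine le_trans ?_ h0
    rw [← nsmul_one, ← Finset.sum_const]
    refine Finset.sum_le_sum fun n _ => ?_
    exact Finset.prod_le_one (fun m _ => hp.nonneg m) fun m _ => hp.le_one m
  have h3 : 0 ≤ mainT p H q a x := by
    rw [mainT_eq]
    exact Finset.sum_nonneg fun n _ => Finset.prod_nonneg fun m _ => hp.nonneg m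
  have h4 : (0 : ℝ) ≤ tuples A H q a x := by positivity
  rw [abs_le]
  constructor <;> linarith

/-- C7: the union bound and the Borel-Cantelli lemma. -/
theorem Model.smallLaw {p : ℕ → ℝ} {J : ℕ} {Ω : Type} [MeasurableSpace Ω] {μ : Measure Ω}
    [IsProbabilityMeasure μ] {A : Ω → Set ℕ} {P : Finset ℕ → ℝ} (hp : Weight p J)
    (hM : Model p J μ A P) : ∀ᵐ ω ∂μ, SmallLaw p (A ω) := by
  classical
  have hsum : ∑' x, μ (bad A P J x) ≠ ∞ := by
    have h1 := (summable_bad J).tsum_ofReal_ne_top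
    refine ne_top_of_le_ne_top h1 (ENNReal.tsum_le_tsum fun x => ?_)
    rw [← ofReal_measureReal (μ := μ) (s := bad A P J x)]
    exact ENNReal.ofReal_le_ofReal (hM.bad_le hp x)
  filter_upwards [ae_eventually_notMem hsum] with ω hω
  obtain ⟨x0, hx0⟩ := eventually_atTop.1 hω
  refine ⟨(12 * (36 * 2 ^ J + 324016) + 32 * (2 ^ J + 4)) + 32 * x0, ?_⟩
  intro x hx H hH hHk q a hq ha
  obtain ⟨hL, h2, hl0⟩ := log_facts x hx
  have hx' : (2 : ℝ) ≤ x := by exact_mod_cast hx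
  have hsq : 1 ≤ √(x : ℝ) := Real.one_le_sqrt.2 (by linarith)
  have h5 : (1 : ℝ) ≤ 32 * Real.log x ^ 5 := by
    calc (1 : ℝ) ≤ (2 * Real.log x) ^ 5 := one_le_pow₀ h2
      _ = 32 * Real.log x ^ 5 := by ring
  by_cases hxx : x0 ≤ x
  · have h := hx0 x hxx
    unfold bad at h
    rw [if_pos hx] at h
    simp only [Set.mem_iUnion, exists_prop, not_exists, not_and] at h
    have h' := h (H, q, a) (by
      rw [mem_product, mem_product, mem_filter, mem_powerset, mem_range, mem_range]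
      refine ⟨⟨fun n hn => ?_, hHk⟩, by simpa using Nat.lt_succ_of_le hq,
        by simpa using Nat.lt_succ_of_le ha⟩
      rw [mem_range]
      have := hH n hn
      omega)
    rw [Set.mem_ofPred_eq, not_le] at h'
    have h6 := hM.sum_expect hp H q a x
    rw [tuples_eq]
    rw [Finset.sum_sub_distrib] at h'
    have h7 : |∑ n ∈ cls q a x, (if ∀ m ∈ sh H n, m ∈ A ω then (1 : ℝ) else 0) -
        mainT p H q a x| ≤ ((((Nat.log 2 x + 1) ^ 2 * (2 ^ J + 1000 * (Nat.log 2 x + 2) ^ 2) : ℕ)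
          : ℝ) + 1) * ((4 * (Nat.log 2 x + 1 : ℕ) : ℝ) * √x) + (2 ^ J + 4 * √x) := by
      have := abs_sub_le (∑ n ∈ cls q a x, (if ∀ m ∈ sh H n, m ∈ A ω then (1 : ℝ) else 0))
        (∑ n ∈ cls q a x, P (sh H n)) (mainT p H q a x)
      exact this.trans (add_le_add h'.le h6)
    refine h7.trans ?_
    set l := Real.log x with hl
    have hL1 : (Nat.log 2 x : ℝ) + 1 ≤ 3 * l := by
      have := hL
      push_cast at this
      exact this
    have hL0 : (0 : ℝ) ≤ Nat.log 2 x := by positivity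
    have hJ0 : (0 : ℝ) ≤ 2 ^ J := by positivity
    have b1 : ((((Nat.log 2 x + 1) ^ 2 * (2 ^ J + 1000 * (Nat.log 2 x + 2) ^ 2) : ℕ) : ℝ) + 1) ≤
        (36 * 2 ^ J + 324016) * l ^ 4 := by
      push_cast
      have c1 : ((Nat.log 2 x : ℝ) + 1) ^ 2 ≤ 9 * l ^ 2 := by
        calc ((Nat.log 2 x : ℝ) + 1) ^ 2 ≤ (3 * l) ^ 2 := by gcongr
          _ = 9 * l ^ 2 := by ring
      have c2 : ((Nat.log 2 x : ℝ) + 2) ^ 2 ≤ 36 * l ^ 2 := by
        calc ((Nat.log 2 x : ℝ) + 2) ^ 2 ≤ (6 * l) ^ 2 := by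
              gcongr
              linarith
          _ = 36 * l ^ 2 := by ring
      have c3 : (1 : ℝ) ≤ 4 * l ^ 2 := by nlinarith
      have c4 : (1 : ℝ) ≤ 16 * l ^ 4 := by nlinarith [sq_nonneg (l ^ 2)]
      have c5 : (2 : ℝ) ^ J ≤ 2 ^ J * (4 * l ^ 2) := by nlinarith
      calc ((Nat.log 2 x : ℝ) + 1) ^ 2 * (2 ^ J + 1000 * ((Nat.log 2 x : ℝ) + 2) ^ 2) + 1 ≤
          (9 * l ^ 2) * (2 ^ J * (4 * l ^ 2) + 1000 * (36 * l ^ 2)) + 16 * l ^ 4 := by gcongr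
        _ = (36 * 2 ^ J + 324000) * l ^ 4 + 16 * l ^ 4 - 36000 * 0 * l ^ 4 := by ring
        _ = (36 * 2 ^ J + 324016) * l ^ 4 := by ring
    have b2 : ((4 * (Nat.log 2 x + 1 : ℕ) : ℝ) * √x) ≤ 12 * l * √x := by
      push_cast
      have : 4 * ((Nat.log 2 x : ℝ) + 1) ≤ 12 * l := by linarith
      gcongr
    have b3 : (2 : ℝ) ^ J + 4 * √x ≤ (2 ^ J + 4) * √x := by nlinarith
    have b4 : ((2 : ℝ) ^ J + 4) * √x ≤ (2 ^ J + 4) * √x * (32 * l ^ 5) := by
      have : 0 ≤ ((2 : ℝ) ^ J + 4) * √x := by positivity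
      nlinarith
    have b5 : ((((Nat.log 2 x + 1) ^ 2 * (2 ^ J + 1000 * (Nat.log 2 x + 2) ^ 2) : ℕ) : ℝ) + 1) *
        ((4 * (Nat.log 2 x + 1 : ℕ) : ℝ) * √x) ≤ ((36 * 2 ^ J + 324016) * l ^ 4) *
          (12 * l * √x) := by
      gcongr
    have b6 : (0 : ℝ) ≤ 32 * x0 * √x * l ^ 5 := by positivity
    calc _ ≤ ((36 * 2 ^ J + 324016) * l ^ 4) * (12 * l * √x) +
          (2 ^ J + 4) * √x * (32 * l ^ 5) := add_le_add b5 (b3.trans b4)
      _ ≤ ((36 * 2 ^ J + 324016) * l ^ 4) * (12 * l * √x) +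
          (2 ^ J + 4) * √x * (32 * l ^ 5) + 32 * x0 * √x * l ^ 5 := by linarith
      _ = ((12 * (36 * 2 ^ J + 324016) + 32 * (2 ^ J + 4)) + 32 * x0) * √x * l ^ 5 := by ring
  · push Not at hxx
    refine (abs_sub_le_nat hp (A ω) H q a x).trans ?_
    have hxx' : (x : ℝ) ≤ x0 := by exact_mod_cast hxx.le
    set l := Real.log x with hl
    have hx00 : (0 : ℝ) ≤ x0 := by positivity
    have c1 : (x0 : ℝ) ≤ 32 * x0 * √x * l ^ 5 := by
      have c2 : (1 : ℝ) ≤ √x * (32 * l ^ 5) := one_le_mul_of_one_le_of_one_le hsq h5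
      nlinarith
    have c3 : (0 : ℝ) ≤ (12 * (36 * 2 ^ J + 324016) + 32 * (2 ^ J + 4)) * √x * l ^ 5 := by
      positivity
    nlinarith

end Pool.Agent.LibBar93
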