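import Pool.Agent.LibBar93.Model
import Pool.Agent.LibBar93.Union
import Pool.Agent.LibBar93.Sparse
import Pool.Agent.LibBar93.Full
import Pool.Agent.LibBar93.Gap
import Pool.Agent.LibBar93.Modify

/-! The construction. -/

set_option autoImplicit false

namespace Pool.Agent.LibBar93

open Finset MeasureTheory ProbabilityTheory Filter
open scoped ENNReal

/-- F1. -/
theorem construction {p : ℕ → ℝ} {J : ℕ} (hp : Weight p J) :
    ∃ A : Set ℕ, (∀ n ∈ A, p n ≠ 0) ∧ SmallLaw p A ∧ ∃ C : ℝ, 0 < C ∧ ∀ᶠ m : ℕ in atTop,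
      ∃ a ∈ A, m < a ∧ (a : ℝ) ≤ m + C * Real.log m ^ 2 / Real.log (Real.log m) := by
  obtain ⟨Ω, mΩ, μ, hμ, A, P, hM⟩ := exists_model hp
  obtain ⟨ω, h1, h2⟩ := ((hM.smallLaw hp).and hM.hit).exists
  exact ⟨A ω, fun n hn => (hM.supp ω n hn).1, h1, gap_of_hit hp.hJ h2⟩

/-- **The prescribed Cramer constant**: the law of all tuples holds and the Cramer constant is any
given element of `[0, ∞]`. -/
theorem prescribed {p : ℕ → ℝ} {J : ℕ} (hp : Weight p J) (l : ℝ≥0∞) :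
    ∃ A : Set ℕ, (∀ n ∈ A, p n ≠ 0) ∧ TupleLaw p A ∧ LibCramer.cramer A = l := by
  obtain ⟨A, h1, h2, C, hC, h3⟩ := construction hp
  obtain ⟨B, hBA, hB, C', hC'⟩ := exists_modify C hC h3 l
  exact ⟨B, fun n hn => h1 n (hBA hn), (h2.modify hBA C' hC').full hp, hB⟩

/-- **Small gaps**: the law of all tuples holds and all gaps are `O(log² m / log log m)`. -/
theorem smallGaps {p : ℕ → ℝ} {J : ℕ} (hp : Weight p J) :
    ∃ A : Set ℕ, (∀ n ∈ A, p n ≠ 0) ∧ TupleLaw p A ∧ ∃ C : ℝ, 0 < C ∧ ∀ᶠ m : ℕ in atTop,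
      ∃ a ∈ A, m < a ∧ (a : ℝ) ≤ m + C * Real.log m ^ 2 / Real.log (Real.log m) := by
  obtain ⟨A, h1, h2, h3⟩ := construction hp
  exact ⟨A, h1, h2.full hp, h3⟩

end Pool.Agent.LibBar93
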