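import Mathlib

/-!
# Tuple laws: definitions

* `sieveLim n`: the sieving limit at `n`, a slow function, constant on the dyadic ranges
  `2^j ≤ n < 2^(j+1)`;
* `dens n`: the density of the primes at `n` as seen by the primes `p ≤ sieveLim n`;
* `tuples A H q a x`: the number of the `n ≤ x`, `n ≡ a (mod q)`, with `n + H ⊆ A`;
* `mainT p H q a x`: its expected value;
* `TupleLaw p A`: the tuple counts of `A` agree with their expected values up to
  `√x (log x)^5`, uniformly for ALL finite sets of shifts in `[0, x]` and all residue classes;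
* `Weight p J`: the properties of a density which are used in the construction.
-/

namespace Pool.Agent.LibBar93

open Finset

/-- The sieving limit (constant on dyadic ranges). -/
def sieveLim (n : ℕ) : ℕ := Nat.log 2 (Nat.log 2 n) / 4

/-- The density of the integers without prime factors `≤ T`. -/
noncomputable def euler (T : ℕ) : ℝ := ∏ p ∈ (range (T + 1)).filter Nat.Prime, (1 - 1 / (p : ℝ))

/-- The density of the primes at `n` as seen by the primes `p ≤ sieveLim n`. -/
noncomputable def dens (n : ℕ) : ℝ :=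
  if 8 ≤ n ∧ n.Coprime (primorial (sieveLim n)) then (euler (sieveLim n))⁻¹ / Real.log n else 0

open Classical in
/-- The number of the `n ∈ [1, x]`, `n ≡ a (mod q)`, with `n + H ⊆ A`. -/
noncomputable def tuples (A : Set ℕ) (H : Finset ℕ) (q a x : ℕ) : ℕ :=
  #{n ∈ Icc 1 x | n ≡ a [MOD q] ∧ ∀ h ∈ H, n + h ∈ A}

/-- The expected number. -/
noncomputable def mainT (p : ℕ → ℝ) (H : Finset ℕ) (q a x : ℕ) : ℝ :=
  ∑ n ∈ Icc 1 x with n ≡ a [MOD q], ∏ h ∈ H, p (n + h)

/-- The law of all tuples, with square root cancellation, uniformly in all finite sets of shifts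
in `[0, x]` and in all residue classes. -/
def TupleLaw (p : ℕ → ℝ) (A : Set ℕ) : Prop :=
  ∃ C : ℝ, ∀ x : ℕ, 2 ≤ x → ∀ H : Finset ℕ, (∀ h ∈ H, h ≤ x) → ∀ q a : ℕ,
    |(tuples A H q a x : ℝ) - mainT p H q a x| ≤ C * √x * Real.log x ^ 5

/-- The order of the independence at the level `j`. -/
def kk (j : ℕ) : ℕ := j / Nat.log 2 j + 1

/-- The length of the blocks at the level `j`. -/
def bb (j : ℕ) : ℕ := 2 ^ Nat.clog 2 (32 * (2 * kk j + 1) * (j + 1))

/-- The properties of the density `p` used in the construction (from the level `J` on). -/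
structure Weight (p : ℕ → ℝ) (J : ℕ) : Prop where
  hJ : 64 ≤ J
  nonneg : ∀ n, 0 ≤ p n
  le_one : ∀ n, p n ≤ 1
  small : ∀ n, J ≤ Nat.log 2 n → p n ^ 4 * (Nat.log 2 n : ℝ) ^ 3 ≤ 1
  big : ∀ j, J ≤ j → ∃ τ : ℝ, 0 < τ ∧ τ ≤ 1 / 2 ∧
    (∀ n, Nat.log 2 n = j → p n = 0 ∨ τ ≤ p n) ∧
    ∀ i, Nat.log 2 i = j → bb j ∣ i →
      16 * (2 * (kk j : ℝ) + 1) ≤ τ * #{n ∈ Ico i (i + bb j) | p n ≠ 0}

end Pool.Agent.LibBar93
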