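import Pool.Agent.LibBar93.Defs

/-! Blocks, the properties of the random set, the law of the small tuples. -/

set_option autoImplicit false

namespace Pool.Agent.LibBar93

open Finset MeasureTheory ProbabilityTheory Filter

/-- Start of the block of `n` (`0` for the small `n`). -/
def blk (J n : ℕ) : ℕ :=
  if Nat.log 2 n < J then 0 else bb (Nat.log 2 n) * (n / bb (Nat.log 2 n))

/-- `i` is the start of a block. -/
def IsBlk (J i : ℕ) : Prop := J ≤ Nat.log 2 i ∧ bb (Nat.log 2 i) ∣ i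

theorem blk_small {J n : ℕ} (h : Nat.log 2 n < J) : blk J n = 0 := by
  unfold blk
  rw [if_pos h]

/-- The properties of the random set. -/
structure Model (p : ℕ → ℝ) (J : ℕ) {Ω : Type} [MeasurableSpace Ω] (μ : Measure Ω)
    (A : Ω → Set ℕ) (P : Finset ℕ → ℝ) : Prop where
  meas : ∀ n, MeasurableSet {ω | n ∈ A ω}
  supp : ∀ ω n, n ∈ A ω → p n ≠ 0 ∧ J ≤ Nat.log 2 n
  hit : ∀ᵐ ω ∂μ, ∀ i, IsBlk J i → ∃ n ∈ A ω, blk J n = i
  prob : ∀ G : Finset ℕ, μ.real {ω | ∀ n ∈ G, n ∈ A ω} = P G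
  mul : ∀ G G' : Finset ℕ, Disjoint (G.image (blk J)) (G'.image (blk J)) → P (G ∪ G') = P G * P G'
  prod : ∀ i, IsBlk J i → ∀ G : Finset ℕ, (∀ n ∈ G, blk J n = i) → #G ≤ kk (Nat.log 2 i) →
    P G = ∏ n ∈ G, p n

/-- The law of the small tuples. -/
def SmallLaw (p : ℕ → ℝ) (A : Set ℕ) : Prop :=
  ∃ C : ℝ, ∀ x : ℕ, 2 ≤ x → ∀ H : Finset ℕ, (∀ h ∈ H, h ≤ x) → #H ≤ Nat.log 2 x + 1 →
    ∀ q a : ℕ, q ≤ x → a ≤ x →
    |(tuples A H q a x : ℝ) - mainT p H q a x| ≤ C * √x * Real.log x ^ 5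

end Pool.Agent.LibBar93
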