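import Pool.Agent.LibBar93.Hoeff
import Pool.Agent.LibBar93.Blocks

/-! The expected values. -/

set_option autoImplicit false
set_option linter.unusedSectionVars false

namespace Pool.Agent.LibBar93

open Finset MeasureTheory ProbabilityTheory Filter
open scoped ENNReal

theorem prod_small {p : ℕ → ℝ} {J j m : ℕ} (hp : Weight p J) (hj : J ≤ j) (hm : 0 < m)
    (F : Finset ℕ) (hF : ∀ n ∈ F, Nat.log 2 n = j) (hk : #F = kk j) (hFm : ∀ n ∈ F, m ≤ n) :
    ∏ n ∈ F, p n ≤ 2 / √m := by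
  have hj64 : 64 ≤ j := hp.hJ.trans hj
  set π := ∏ n ∈ F, p n with hπ
  have hπ0 : 0 ≤ π := Finset.prod_nonneg fun n _ => hp.nonneg n
  have h1 : π ^ 4 * ((j : ℝ) ^ kk j) ^ 3 ≤ 1 := by
    have e : π ^ 4 * ((j : ℝ) ^ kk j) ^ 3 = ∏ n ∈ F, (p n ^ 4 * (j : ℝ) ^ 3) := by
      rw [Finset.prod_mul_distrib, Finset.prod_pow, Finset.prod_const, hk, ← pow_mul, ← pow_mul,
        mul_comm (kk j) 3]
    rw [e]
    refine Finset.prod_le_one (fun n _ => by have := hp.nonneg n; positivity) fun n hn => ?_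
    have := hp.small n (by rw [hF n hn]; exact hj)
    rw [hF n hn] at this
    exact this
  have hne : F.Nonempty := by
    rw [← Finset.card_pos, hk]
    exact Nat.succ_pos _
  obtain ⟨n, hn⟩ := hne
  have h2 : (m : ℝ) ≤ 2 * 2 ^ j := by
    have h3 : n < 2 ^ (j + 1) := by
      have := Nat.lt_pow_succ_log_self (b := 2) (by norm_num) n
      rw [hF n hn] at this
      exact this
    have h4 : m ≤ 2 * 2 ^ j := by
      have := hFm n hn
      rw [pow_succ] at h3
      omega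
    exact_mod_cast h4
  have h3 : (2 : ℝ) ^ j ≤ (j : ℝ) ^ kk j := by exact_mod_cast kk_pow hj64
  have hm' : (0 : ℝ) < m := by exact_mod_cast hm
  have hs : 0 < √(m : ℝ) := Real.sqrt_pos.2 hm'
  have h4 : (π * √m) ^ 4 ≤ 2 ^ 4 := by
    have e : (π * √m) ^ 4 = π ^ 4 * (m : ℝ) ^ 2 := by
      have : √(m : ℝ) ^ 4 = (m : ℝ) ^ 2 := by
        rw [show (4 : ℕ) = 2 * 2 from rfl, pow_mul, Real.sq_sqrt hm'.le]
      rw [mul_pow, this]
    have h5 : (m : ℝ) ^ 2 ≤ 4 * ((j : ℝ) ^ kk j) ^ 3 := by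
      have a1 : (1 : ℝ) ≤ 2 ^ j := one_le_pow₀ (by norm_num)
      have a2 : (m : ℝ) ^ 2 ≤ (2 * 2 ^ j) ^ 2 := by gcongr
      have a3 : (2 * (2 : ℝ) ^ j) ^ 2 ≤ 4 * ((2 : ℝ) ^ j) ^ 3 := by
        nlinarith [sq_nonneg ((2 : ℝ) ^ j)]
      have a4 : ((2 : ℝ) ^ j) ^ 3 ≤ ((j : ℝ) ^ kk j) ^ 3 := by gcongr
      linarith
    rw [e]
    have h6 : π ^ 4 * (m : ℝ) ^ 2 ≤ π ^ 4 * (4 * ((j : ℝ) ^ kk j) ^ 3) := by gcongr
    nlinarith
  rw [le_div_iff₀ hs]
  exact le_of_pow_le_pow_left₀ (by norm_num) (by norm_num) h4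

section

variable {p : ℕ → ℝ} {J : ℕ} {Ω : Type} [MeasurableSpace Ω] {μ : Measure Ω}
  [IsProbabilityMeasure μ] {A : Ω → Set ℕ} {P : Finset ℕ → ℝ}

theorem Model.P_nonneg (hM : Model p J μ A P) (G : Finset ℕ) : 0 ≤ P G := by
  rw [← hM.prob G]
  exact measureReal_nonneg

theorem Model.P_le_one (hM : Model p J μ A P) (G : Finset ℕ) : P G ≤ 1 := by
  rw [← hM.prob G]
  exact measureReal_le_one

theorem Model.P_anti (hM : Model p J μ A P) {F G : Finset ℕ} (h : F ⊆ G) : P G ≤ P F := by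
  rw [← hM.prob G, ← hM.prob F]
  refine measureReal_mono ?_
  intro ω hω n hn
  exact hω n (h hn)

theorem prod_le_prod_sub {p : ℕ → ℝ} {J : ℕ} (hp : Weight p J) {F G : Finset ℕ} (h : F ⊆ G) :
    ∏ n ∈ G, p n ≤ ∏ n ∈ F, p n := by
  rw [← Finset.prod_sdiff h]
  refine mul_le_of_le_one_left (Finset.prod_nonneg fun n _ => hp.nonneg n) ?_
  exact Finset.prod_le_one (fun n _ => hp.nonneg n) fun n _ => hp.le_one n

/-- M2: the expected value of an indicator. -/
theorem Model.expect (hp : Weight p J) (hM : Model p J μ A P) (G : Finset ℕ) (m : ℕ) (hm : 0 < m)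
    (hmJ : J ≤ Nat.log 2 m) (hG : ∀ n ∈ G, m ≤ n) : |P G - ∏ n ∈ G, p n| ≤ 2 / √m := by
  have hlev : ∀ n ∈ G, J ≤ Nat.log 2 n := fun n hn => hmJ.trans (Nat.log_mono_right (hG n hn))
  by_cases hall : ∀ i ∈ G.image (blk J), #(G.filter (fun n => blk J n = i)) ≤ kk (Nat.log 2 i)
  · have hGe : (G.image (blk J)).biUnion (fun i => G.filter (fun n => blk J n = i)) = G := by
      ext n
      simp only [mem_biUnion, mem_image, mem_filter]
      constructor
      · rintro ⟨i, -, hn, -⟩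
        exact hn
      · intro hn
        exact ⟨blk J n, ⟨n, hn, rfl⟩, hn, rfl⟩
    have h1 := hM.prod_disj (G.image (blk J)) (fun i => G.filter (fun n => blk J n = i)) (by
      intro a _ b _ hab
      rw [Finset.disjoint_left]
      intro i hi hi'
      rw [mem_image] at hi hi'
      obtain ⟨n, hn, rfl⟩ := hi
      obtain ⟨n', hn', hnn⟩ := hi'
      rw [mem_filter] at hn hn'
      exact hab (hn.2.symm.trans (hnn.symm.trans hn'.2)))
    rw [hGe] at h1
    have h2 : ∏ i ∈ G.image (blk J), P (G.filter (fun n => blk J n = i)) = ∏ n ∈ G, p n := by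
      have h3 : ∏ n ∈ G, p n =
          ∏ i ∈ G.image (blk J), ∏ n ∈ G with blk J n = i, p n :=
        (Finset.prod_fiberwise_of_maps_to (fun n hn => mem_image_of_mem _ hn) _).symm
      rw [h3]
      refine Finset.prod_congr rfl fun i hi => ?_
      have hi2 := hi
      rw [mem_image] at hi2
      obtain ⟨n, hn, rfl⟩ := hi2
      exact hM.prod _ (blk_spec hp.hJ (hlev n hn)).2.2.2.2 _ (fun a ha => (mem_filter.1 ha).2)
        (hall _ hi)
    rw [h1, h2, sub_self, abs_zero]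
    positivity
  · push Not at hall
    obtain ⟨i, hi, hlt⟩ := hall
    obtain ⟨F, hF, hFk⟩ := Finset.exists_subset_card_eq hlt.le
    have hFG : F ⊆ G := hF.trans (filter_subset _ _)
    rw [mem_image] at hi
    obtain ⟨n0, hn0, hn0i⟩ := hi
    have hspec := blk_spec hp.hJ (hlev n0 hn0)
    rw [hn0i] at hspec
    have hblk : IsBlk J i := hspec.2.2.2.2
    have hPF : P F = ∏ n ∈ F, p n :=
      hM.prod i hblk F (fun n hn => (mem_filter.1 (hF hn)).2) hFk.le
    have hlogF : ∀ n ∈ F, Nat.log 2 n = Nat.log 2 i := by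
      intro n hn
      have h1 := (blk_spec hp.hJ (hlev n (hFG hn))).2.2.1
      rw [(mem_filter.1 (hF hn)).2] at h1
      exact h1.symm
    have hb := prod_small hp hblk.1 hm F hlogF hFk (fun n hn => hG n (hFG hn))
    have h1 : P G ≤ ∏ n ∈ F, p n := (hM.P_anti hFG).trans hPF.le
    have h2 := prod_le_prod_sub hp hFG
    have h3 : 0 ≤ ∏ n ∈ G, p n := Finset.prod_nonneg fun n _ => hp.nonneg n
    have h4 := hM.P_nonneg G
    rw [abs_le]
    constructor <;> linarith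

end

end Pool.Agent.LibBar93
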