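import Pool.Agent.LibBar93.Defs2

/-! Hoeffding's inequality for the random set. -/

set_option autoImplicit false
set_option linter.unusedVariables false
set_option linter.unusedSectionVars false

namespace Pool.Agent.LibBar93

open Finset MeasureTheory ProbabilityTheory Filter
open scoped ENNReal

section

variable {p : ℕ → ℝ} {J : ℕ} {Ω : Type} [MeasurableSpace Ω] {μ : Measure Ω}
  [IsProbabilityMeasure μ] {A : Ω → Set ℕ} {P : Finset ℕ → ℝ}

theorem Model.empty (hM : Model p J μ A P) : P ∅ = 1 := by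
  rw [← hM.prob ∅]
  simp

/-- M3: all events. -/
theorem Model.prod_disj (hM : Model p J μ A P) (s : Finset ℕ) (G : ℕ → Finset ℕ)
    (hd : ∀ a ∈ s, ∀ b ∈ s, a ≠ b → Disjoint ((G a).image (blk J)) ((G b).image (blk J))) :
    P (s.biUnion G) = ∏ a ∈ s, P (G a) := by
  induction s using Finset.induction_on with
  | empty => simp [hM.empty]
  | insert a s ha ih =>
    rw [Finset.biUnion_insert, Finset.prod_insert ha, hM.mul, ih]
    · intro b hb c hc hbc
      exact hd b (mem_insert_of_mem hb) c (mem_insert_of_mem hc) hbc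
    · rw [Finset.disjoint_left]
      intro i hi hi'
      rw [mem_image] at hi'
      obtain ⟨n, hn, hni⟩ := hi'
      rw [mem_biUnion] at hn
      obtain ⟨b, hb, hnb⟩ := hn
      have h1 := hd a (mem_insert_self _ _) b (mem_insert_of_mem hb) (by
        rintro rfl
        exact ha hb)
      rw [Finset.disjoint_left] at h1
      exact h1 hi (hni ▸ mem_image_of_mem _ hnb)

theorem Model.measEv (hM : Model p J μ A P) (G : Finset ℕ) :
    MeasurableSet {ω | ∀ n ∈ G, n ∈ A ω} := by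
  have : {ω | ∀ n ∈ G, n ∈ A ω} = ⋂ n ∈ G, {ω | n ∈ A ω} := by
    ext ω
    simp
  rw [this]
  exact Finset.measurableSet_biInter G fun n _ => hM.meas n

theorem Model.indep (hM : Model p J μ A P) (s : Finset ℕ) (G : ℕ → Finset ℕ)
    (hd : ∀ a ∈ s, ∀ b ∈ s, a ≠ b → Disjoint ((G a).image (blk J)) ((G b).image (blk J))) :
    iIndepSet (fun a : s => {ω | ∀ n ∈ G a, n ∈ A ω}) μ := by
  classical
  rw [iIndepSet_iff_meas_biInter (fun a => hM.measEv _)]
  intro t
  have hinj : Function.Injective (fun a : s => (a : ℕ)) := Subtype.val_injective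
  have h1 : (⋂ a ∈ t, {ω | ∀ n ∈ G a, n ∈ A ω}) =
      {ω | ∀ n ∈ (t.image (fun a : s => (a : ℕ))).biUnion G, n ∈ A ω} := by
    ext ω
    simp only [Set.mem_iInter, Set.mem_ofPred_eq, mem_biUnion, mem_image]
    constructor
    · rintro h n ⟨a, ⟨b, hb, rfl⟩, hn⟩
      exact h b hb n hn
    · intro h a ha n hn
      exact h n ⟨a, ⟨a, ha, rfl⟩, hn⟩
  have h2 : P ((t.image (fun a : s => (a : ℕ))).biUnion G) = ∏ a ∈ t, P (G a) := by
    rw [hM.prod_disj, Finset.prod_image (fun a _ b _ h => hinj h)]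
    intro a ha b hb hab
    rw [mem_image] at ha hb
    obtain ⟨a', -, rfl⟩ := ha
    obtain ⟨b', -, rfl⟩ := hb
    exact hd a' a'.2 b' b'.2 hab
  rw [h1, ← ENNReal.ofReal_toReal (measure_ne_top μ _)]
  have h3 : (μ {ω | ∀ n ∈ (t.image (fun a : s => (a : ℕ))).biUnion G, n ∈ A ω}).toReal =
      P ((t.image (fun a : s => (a : ℕ))).biUnion G) := hM.prob _
  rw [h3, h2, ENNReal.ofReal_prod_of_nonneg]
  · refine Finset.prod_congr rfl fun a _ => ?_
    rw [← hM.prob (G a)]
    exact ENNReal.ofReal_toReal (measure_ne_top μ _)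
  · intro a _
    rw [← hM.prob (G a)]
    exact measureReal_nonneg

open Classical in
/-- C1: Hoeffding's inequality for one colour. -/
theorem Model.hoeff (hM : Model p J μ A P) (s : Finset ℕ) (G : ℕ → Finset ℕ)
    (hd : ∀ a ∈ s, ∀ b ∈ s, a ≠ b → Disjoint ((G a).image (blk J)) ((G b).image (blk J)))
    (x t : ℝ) (ht : 0 ≤ t) (hx : 0 < x) (hs : (#s : ℝ) ≤ x) :
    μ.real {ω | t ≤ |∑ a ∈ s, ((if ∀ n ∈ G a, n ∈ A ω then (1 : ℝ) else 0) - P (G a))|} ≤
      2 * Real.exp (-2 * t ^ 2 / x) := by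
  rcases Nat.eq_zero_or_pos #s with hs0 | hspos
  · rw [Finset.card_eq_zero] at hs0
    subst hs0
    rcases ht.eq_or_lt with h0 | hpos
    · subst h0
      have h1 : μ.real {ω : Ω | (0 : ℝ) ≤ |∑ a ∈ (∅ : Finset ℕ),
          ((if ∀ n ∈ G a, n ∈ A ω then (1 : ℝ) else 0) - P (G a))|} ≤ 1 := measureReal_le_one
      refine h1.trans ?_
      simp
    · have h1 : {ω : Ω | t ≤ |∑ a ∈ (∅ : Finset ℕ),
          ((if ∀ n ∈ G a, n ∈ A ω then (1 : ℝ) else 0) - P (G a))|} = ∅ := by
        ext ω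
        simp [hpos]
      rw [h1, measureReal_empty]
      positivity
  set X : s → Ω → ℝ := fun a => ({ω | ∀ n ∈ G a, n ∈ A ω} : Set Ω).indicator fun _ => 1 with hX
  have hind : iIndepFun X μ := (hM.indep s G hd).iIndepFun_indicator
  have hmeas : ∀ a, Measurable (X a) := fun a =>
    measurable_const.indicator (hM.measEv _)
  have hint : ∀ a, ∫ ω, X a ω ∂μ = P (G a) := by
    intro a
    rw [hX]
    simp only
    rw [integral_indicator_const _ (hM.measEv _), hM.prob]
    simp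
  have hsub : ∀ a, HasSubgaussianMGF (fun ω => X a ω - P (G a)) ((‖(1 : ℝ) - 0‖₊ / 2) ^ 2) μ := by
    intro a
    have := hasSubgaussianMGF_of_mem_Icc (μ := μ) (a := 0) (b := 1) (hmeas a).aemeasurable
      (Eventually.of_forall fun ω => by
        rw [hX]
        simp only [Set.indicator]
        split_ifs <;> simp)
    rw [hint a] at this
    exact this
  have hind2 : iIndepFun (fun (a : s) ω => X a ω - P (G a)) μ :=
    hind.comp (fun a x => x - P (G a)) fun a => measurable_id.sub_const _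
  have hind3 : iIndepFun (fun (a : s) ω => -(X a ω - P (G a))) μ :=
    hind2.comp (fun _ x => -x) fun _ => measurable_neg
  have hsub3 : ∀ a : s, HasSubgaussianMGF (fun ω => -(X a ω - P (G a)))
      ((‖(1 : ℝ) - 0‖₊ / 2) ^ 2) μ := fun a => (hsub a).neg
  have b1 := HasSubgaussianMGF.measure_sum_ge_le_of_iIndepFun hind2 (s := univ)
    (fun a _ => hsub a) ht
  have b2 := HasSubgaussianMGF.measure_sum_ge_le_of_iIndepFun hind3 (s := univ)
    (fun a _ => hsub3 a) ht
  have hc : (((∑ _a : s, (‖(1 : ℝ) - 0‖₊ / 2) ^ 2 : NNReal)) : ℝ) = #s / 4 := by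
    rw [Finset.sum_const, Finset.card_univ, Fintype.card_coe]
    simp
    ring
  rw [hc] at b1 b2
  have hexp : Real.exp (-t ^ 2 / (2 * (#s / 4))) ≤ Real.exp (-2 * t ^ 2 / x) := by
    rw [Real.exp_le_exp]
    have hs0 : (0 : ℝ) < #s := by exact_mod_cast hspos
    have e : -t ^ 2 / (2 * (#s / 4 : ℝ)) = -(2 * t ^ 2 / #s) := by
      field_simp
      ring
    have e' : -2 * t ^ 2 / x = -(2 * t ^ 2 / x) := by ring
    rw [e, e', neg_le_neg_iff]
    gcongr
  have hset : {ω | t ≤ |∑ a ∈ s, ((if ∀ n ∈ G a, n ∈ A ω then (1 : ℝ) else 0) - P (G a))|} ⊆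
      {ω | t ≤ ∑ a : s, (X a ω - P (G a))} ∪ {ω | t ≤ ∑ a : s, -(X a ω - P (G a))} := by
    intro ω hω
    rw [Set.mem_ofPred_eq] at hω
    have e : ∑ a ∈ s, ((if ∀ n ∈ G a, n ∈ A ω then (1 : ℝ) else 0) - P (G a)) =
        ∑ a : s, (X a ω - P (G a)) := by
      rw [← Finset.sum_coe_sort s]
      refine Finset.sum_congr rfl fun a _ => ?_
      rw [hX]
      simp only [Set.indicator, Set.mem_ofPred_eq]
    rw [e] at hω
    rcases le_abs.1 hω with h | h
    · exact Or.inl h
    · refine Or.inr ?_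
      rw [Set.mem_ofPred_eq, Finset.sum_neg_distrib]
      exact h
  calc μ.real _ ≤ μ.real ({ω | t ≤ ∑ a : s, (X a ω - P (G a))} ∪
        {ω | t ≤ ∑ a : s, -(X a ω - P (G a))}) := measureReal_mono hset
    _ ≤ μ.real {ω | t ≤ ∑ a : s, (X a ω - P (G a))} +
        μ.real {ω | t ≤ ∑ a : s, -(X a ω - P (G a))} := measureReal_union_le _ _
    _ ≤ Real.exp (-2 * t ^ 2 / x) + Real.exp (-2 * t ^ 2 / x) :=
        add_le_add (b1.trans hexp) (b2.trans hexp)
    _ = 2 * Real.exp (-2 * t ^ 2 / x) := by ring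

end

end Pool.Agent.LibBar93
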