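import Mathlib

/-! Interpolation weights at the nodes `k+1, ..., 2k+1` which vanish on binomial coefficients
`C(x, j)`, `1 <= j <= k`, and have sum `1`. -/

namespace Pool.Agent.LibBar93

open Finset

theorem alt_succ (k : ℕ) (g : ℕ → ℝ) :
    ∑ i ∈ range (k + 2), (-1 : ℝ) ^ i * ((k + 1).choose i : ℝ) * g i
      = ∑ i ∈ range (k + 1), (-1 : ℝ) ^ i * (k.choose i : ℝ) * (g i - g (i + 1)) := by
  have h1 : ∑ i ∈ range (k + 2), (-1 : ℝ) ^ i * ((k + 1).choose i : ℝ) * g i
      = g 0 + ∑ i ∈ range (k + 1), (-1 : ℝ) ^ (i + 1) * ((k + 1).choose (i + 1) : ℝ) * g (i + 1) := by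
    rw [Finset.sum_range_succ']
    simp [add_comm]
  rw [h1]
  have h2 : ∀ i, ((k + 1).choose (i + 1) : ℝ) = (k.choose i : ℝ) + (k.choose (i + 1) : ℝ) := by
    intro i
    rw [Nat.choose_succ_succ]
    push_cast
    ring
  have h3 : ∑ i ∈ range (k + 1), (-1 : ℝ) ^ (i + 1) * ((k + 1).choose (i + 1) : ℝ) * g (i + 1)
      = ∑ i ∈ range (k + 1), (-1 : ℝ) ^ (i + 1) * (k.choose i : ℝ) * g (i + 1)
        + ∑ i ∈ range (k + 1), (-1 : ℝ) ^ (i + 1) * (k.choose (i + 1) : ℝ) * g (i + 1) := by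
    rw [← Finset.sum_add_distrib]
    refine Finset.sum_congr rfl fun i _ => ?_
    rw [h2]
    ring
  have h4 : g 0 + ∑ i ∈ range (k + 1), (-1 : ℝ) ^ (i + 1) * (k.choose (i + 1) : ℝ) * g (i + 1)
      = ∑ i ∈ range (k + 1), (-1 : ℝ) ^ i * (k.choose i : ℝ) * g i := by
    have : ∑ i ∈ range (k + 2), (-1 : ℝ) ^ i * (k.choose i : ℝ) * g i
        = ∑ i ∈ range (k + 1), (-1 : ℝ) ^ (i + 1) * (k.choose (i + 1) : ℝ) * g (i + 1) + g 0 := by
      rw [Finset.sum_range_succ']
      simp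
    rw [Finset.sum_range_succ, Nat.choose_succ_self] at this
    simp only [Nat.cast_zero, mul_zero, zero_mul, add_zero] at this
    linarith
  rw [h3]
  have h5 : ∑ i ∈ range (k + 1), (-1 : ℝ) ^ i * (k.choose i : ℝ) * (g i - g (i + 1))
      = ∑ i ∈ range (k + 1), (-1 : ℝ) ^ i * (k.choose i : ℝ) * g i
        + ∑ i ∈ range (k + 1), (-1 : ℝ) ^ (i + 1) * (k.choose i : ℝ) * g (i + 1) := by
    rw [← Finset.sum_add_distrib]
    refine Finset.sum_congr rfl fun i _ => ?_
    rw [pow_succ]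
    ring
  rw [h5]
  linarith

/-- alternating sums of binomial polynomials of small degree vanish -/
theorem alt_choose (k : ℕ) : ∀ (M r : ℕ), r < k →
    ∑ i ∈ range (k + 1), (-1 : ℝ) ^ i * (k.choose i : ℝ) * ((M + i).choose r : ℝ) = 0 := by
  induction k with
  | zero => intro M r h; omega
  | succ k ih =>
    intro M r h
    rw [alt_succ k (fun i => ((M + i).choose r : ℝ))]
    rcases r with _ | r
    · refine Finset.sum_eq_zero fun i _ => ?_
      simp
    · have : ∀ i, ((M + i).choose (r + 1) : ℝ) - ((M + (i + 1)).choose (r + 1) : ℝ)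
          = - ((M + i).choose r : ℝ) := by
        intro i
        rw [← add_assoc, Nat.choose_succ_succ]
        push_cast
        ring
      simp only [this, mul_neg, Finset.sum_neg_distrib, neg_eq_zero]
      exact ih M r (by omega)

/-- the beta integral identity -/
theorem alt_inv (k : ℕ) : ∀ m : ℕ, 0 < m →
    ∑ i ∈ range (k + 1), (-1 : ℝ) ^ i * (k.choose i : ℝ) * (1 / ((m : ℝ) + i))
      = 1 / ((m : ℝ) * ((m + k).choose k : ℝ)) := by
  induction k with
  | zero => intro m hm; simp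
  | succ k ih =>
    intro m hm
    rw [alt_succ k (fun i => 1 / ((m : ℝ) + i))]
    have e : ∀ i : ℕ, (-1 : ℝ) ^ i * (k.choose i : ℝ) * (1 / ((m : ℝ) + i)
        - 1 / ((m : ℝ) + ((i + 1 : ℕ) : ℝ)))
        = (-1 : ℝ) ^ i * (k.choose i : ℝ) * (1 / ((m : ℝ) + i))
          - (-1 : ℝ) ^ i * (k.choose i : ℝ) * (1 / (((m + 1 : ℕ) : ℝ) + i)) := by
      intro i
      push_cast
      ring
    simp only [e]
    rw [Finset.sum_sub_distrib, ih m hm, ih (m + 1) (by omega)]
    have h1 : ((m + 1 + k).choose k : ℝ) * (m + 1) = ((m + k).choose k : ℝ) * (m + k + 1) := by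
      have h3 : (m + k + 1).choose k * (m + 1) = (m + k).choose k * (m + k + 1) := by
        have h4 := Nat.choose_mul_succ_eq (m + k) k
        have h5 : m + k + 1 - k = m + 1 := by omega
        rw [h5] at h4
        omega
      have h6 : m + 1 + k = m + k + 1 := by ring
      rw [h6]
      exact_mod_cast h3
    have h2 : ((m + (k + 1)).choose (k + 1) : ℝ) * (k + 1) = ((m + k).choose k : ℝ) * (m + k + 1) := by
      have := Nat.add_one_mul_choose_eq (m + k) k
      have h3 : (m + (k + 1)).choose (k + 1) * (k + 1) = (m + k).choose k * (m + k + 1) := by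
        have h4 : m + (k + 1) = m + k + 1 := by ring
        rw [h4, ← this]
        ring
      exact_mod_cast h3
    have p1 : (0 : ℝ) < ((m + k).choose k : ℝ) := by
      exact_mod_cast Nat.choose_pos (by omega)
    have p2 : (0 : ℝ) < ((m + 1 + k).choose k : ℝ) := by
      exact_mod_cast Nat.choose_pos (by omega)
    have p3 : (0 : ℝ) < ((m + (k + 1)).choose (k + 1) : ℝ) := by
      exact_mod_cast Nat.choose_pos (by omega)
    have p4 : (0 : ℝ) < m := by exact_mod_cast hm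
    have e1 : ((m + 1 + k).choose k : ℝ) = ((m + k).choose k : ℝ) * (m + k + 1) / (m + 1) := by
      rw [← h1]
      field_simp
    have e2 : ((m + (k + 1)).choose (k + 1) : ℝ) = ((m + k).choose k : ℝ) * (m + k + 1) / (k + 1) := by
      rw [← h2]
      field_simp
    rw [e1, e2]
    push_cast
    field_simp
    ring

/-- the weight of the node `k+1+i` -/
noncomputable def cw (k i : ℕ) : ℝ :=
  (-1 : ℝ) ^ i * (k.choose i : ℝ) * ((2 * k + 1).choose k : ℝ) * ((k + 1 : ℝ) / (k + 1 + i))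

theorem cw_sum (k : ℕ) : ∑ i ∈ range (k + 1), cw k i = 1 := by
  have h := alt_inv k (k + 1) (by omega)
  have e : ∀ i ∈ range (k + 1), cw k i = (((2 * k + 1).choose k : ℝ) * (k + 1)) *
      ((-1 : ℝ) ^ i * (k.choose i : ℝ) * (1 / (((k + 1 : ℕ) : ℝ) + i))) := by
    intro i _
    unfold cw
    push_cast
    ring
  rw [Finset.sum_congr rfl e, ← Finset.mul_sum, h]
  have h1 : k + 1 + k = 2 * k + 1 := by ring
  rw [h1]
  have p1 : (0 : ℝ) < ((2 * k + 1).choose k : ℝ) := by
    exact_mod_cast Nat.choose_pos (by omega)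
  push_cast
  field_simp

theorem cw_choose (k j : ℕ) (hj : 1 ≤ j) (hjk : j ≤ k) :
    ∑ i ∈ range (k + 1), cw k i * ((k + 1 + i).choose j : ℝ) = 0 := by
  obtain ⟨r, rfl⟩ : ∃ r, j = r + 1 := ⟨j - 1, by omega⟩
  have h := alt_choose k k r (by omega)
  have e : ∀ i ∈ range (k + 1), cw k i * ((k + 1 + i).choose (r + 1) : ℝ)
      = (((2 * k + 1).choose k : ℝ) * (k + 1) / (r + 1)) *
      ((-1 : ℝ) ^ i * (k.choose i : ℝ) * ((k + i).choose r : ℝ)) := by
    intro i _
    have h1 : ((k + 1 + i).choose (r + 1) : ℝ) = (k + i + 1) * ((k + i).choose r : ℝ) / (r + 1) := by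
      have := Nat.add_one_mul_choose_eq (k + i) r
      have h2 : ((k + i + 1 : ℕ) : ℝ) * ((k + i).choose r : ℝ)
          = ((k + i + 1).choose (r + 1) : ℝ) * ((r + 1 : ℕ) : ℝ) := by exact_mod_cast this
      have h3 : k + 1 + i = k + i + 1 := by ring
      rw [h3]
      push_cast at h2
      rw [h2]
      field_simp
    rw [h1]
    unfold cw
    have p : (0 : ℝ) < (k : ℝ) + 1 + i := by positivity
    field_simp
    ring
  rw [Finset.sum_congr rfl e, ← Finset.mul_sum, h, mul_zero]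

theorem cw_abs (k i : ℕ) : |cw k i| ≤ 2 ^ (3 * k + 1) := by
  unfold cw
  have h1 : ((k.choose i : ℕ) : ℝ) ≤ 2 ^ k := by
    exact_mod_cast Nat.choose_le_two_pow k i
  have h2 : (((2 * k + 1).choose k : ℕ) : ℝ) ≤ 2 ^ (2 * k + 1) := by
    exact_mod_cast Nat.choose_le_two_pow (2 * k + 1) k
  have h3 : ((k + 1 : ℝ) / (k + 1 + i)) ≤ 1 := by
    rw [div_le_one (by positivity)]
    have : (0 : ℝ) ≤ i := by positivity
    linarith
  have h4 : (0 : ℝ) ≤ ((k + 1 : ℝ) / (k + 1 + i)) := by positivity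
  rw [abs_mul, abs_mul, abs_mul, abs_pow, abs_neg, abs_one, one_pow, one_mul,
    abs_of_nonneg (by positivity : (0 : ℝ) ≤ ((k.choose i : ℕ) : ℝ)),
    abs_of_nonneg (by positivity : (0 : ℝ) ≤ (((2 * k + 1).choose k : ℕ) : ℝ)),
    abs_of_nonneg h4]
  calc ((k.choose i : ℕ) : ℝ) * (((2 * k + 1).choose k : ℕ) : ℝ) * ((k + 1 : ℝ) / (k + 1 + i))
      ≤ 2 ^ k * 2 ^ (2 * k + 1) * 1 := by gcongr
    _ = 2 ^ (3 * k + 1) := by rw [mul_one, ← pow_add]; congr 1; ring

end Pool.Agent.LibBar93
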