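import Pool.Agent.LibBar93.Blocks
import Pool.Agent.LibBar93.Block

/-! The random set. -/

set_option autoImplicit false

namespace Pool.Agent.LibBar93

open Finset MeasureTheory ProbabilityTheory Filter
open scoped ENNReal

/-- The sites of the block `i`. -/
noncomputable def sites (p : ℕ → ℝ) (J i : ℕ) : Finset ℕ :=
  if J ≤ Nat.log 2 i ∧ bb (Nat.log 2 i) ∣ i then
    {n ∈ Ico i (i + bb (Nat.log 2 i)) | p n ≠ 0} else ∅

theorem sites_of {p : ℕ → ℝ} {J i : ℕ} (hi : IsBlk J i) :
    sites p J i = {n ∈ Ico i (i + bb (Nat.log 2 i)) | p n ≠ 0} := by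
  unfold sites
  exact if_pos hi

theorem sites_not {p : ℕ → ℝ} {J i : ℕ} (hi : ¬ IsBlk J i) : sites p J i = ∅ := by
  unfold sites
  exact if_neg hi

theorem exists_law_site {p : ℕ → ℝ} {J : ℕ} (hp : Weight p J) (i : ℕ) :
    ∃ w : Finset ℕ → ℝ, (∀ ω, 0 ≤ w ω) ∧ (∀ ω, ¬ ω ⊆ sites p J i → w ω = 0) ∧
      ∑ ω ∈ (sites p J i).powerset, w ω = 1 ∧ (IsBlk J i → w ∅ = 0 ∧ ∀ F ⊆ sites p J i,
        #F ≤ kk (Nat.log 2 i) →
          ∑ ω ∈ (sites p J i).powerset with F ⊆ ω, w ω = ∏ n ∈ F, p n) := by
  classical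
  by_cases hi : IsBlk J i
  · obtain ⟨τ, hτ, hτ2, h1, h2⟩ := hp.big (Nat.log 2 i) hi.1
    have hlog : ∀ n ∈ sites p J i, Nat.log 2 n = Nat.log 2 i := by
      intro n hn
      rw [sites_of hi, mem_filter, mem_Ico] at hn
      exact (blk_of_mem hp.hJ hi hn.1.1 hn.1.2).2
    have hne : ∀ n ∈ sites p J i, p n ≠ 0 := by
      intro n hn
      rw [sites_of hi, mem_filter] at hn
      exact hn.2
    obtain ⟨w, hw0, hw1, hw2, hw3⟩ := exists_law (sites p J i) p (kk (Nat.log 2 i)) τ hτ hτ2
      (fun n hn => (h1 n (hlog n hn)).resolve_left (hne n hn)) (fun n _ => hp.le_one n)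
      (by rw [sites_of hi]; exact h2 i rfl hi.2)
    refine ⟨fun ω => if ω ⊆ sites p J i then w ω else 0, ?_, ?_, ?_, fun _ => ⟨?_, ?_⟩⟩
    · intro ω
      dsimp only
      split_ifs with h
      · exact hw0 ω (mem_powerset.2 h)
      · exact le_refl _
    · intro ω hω
      exact if_neg hω
    · rw [← hw2]
      refine Finset.sum_congr rfl fun ω hω => ?_
      exact if_pos (mem_powerset.1 hω)
    · dsimp only
      rw [if_pos (empty_subset _), hw1]
    · intro F hF hk
      rw [← hw3 F hF hk]
      refine Finset.sum_congr rfl fun ω hω => ?_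
      exact if_pos (mem_powerset.1 (mem_filter.1 hω).1)
  · refine ⟨fun ω => if ω = ∅ then 1 else 0, ?_, ?_, ?_, fun h => absurd h hi⟩
    · intro ω
      dsimp only
      split_ifs <;> norm_num
    · intro ω hω
      rw [sites_not hi] at hω
      refine if_neg ?_
      rintro rfl
      exact hω (subset_refl _)
    · rw [sites_not hi]
      simp

instance instMeasFinset : MeasurableSpace (Finset ℕ) := ⊤

instance instDiscFinset : DiscreteMeasurableSpace (Finset ℕ) := ⟨fun _ => trivial⟩

/-- A law on the finite sets. -/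
theorem exists_prob (S : Finset ℕ) (w : Finset ℕ → ℝ) (h0 : ∀ ω, 0 ≤ w ω)
    (h1 : ∀ ω, ¬ ω ⊆ S → w ω = 0) (h2 : ∑ ω ∈ S.powerset, w ω = 1) :
    ∃ (m : Measure (Finset ℕ)) (_ : IsProbabilityMeasure m), ∀ Q : Finset ℕ → Prop,
      ∀ [DecidablePred Q], m {ω | Q ω} = ENNReal.ofReal (∑ ω ∈ S.powerset with Q ω, w ω) := by
  classical
  have e1 : ∑ ω ∈ S.powerset, ENNReal.ofReal (w ω) = 1 := by
    rw [← ENNReal.ofReal_sum_of_nonneg (fun ω _ => h0 ω), h2, ENNReal.ofReal_one]
  have e2 : ∀ ω ∉ S.powerset, ENNReal.ofReal (w ω) = 0 := by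
    intro ω hω
    rw [h1 ω (fun h => hω (mem_powerset.2 h)), ENNReal.ofReal_zero]
  refine ⟨(PMF.ofFinset _ S.powerset e1 e2).toMeasure, inferInstance, ?_⟩
  intro Q _
  rw [PMF.toMeasure_ofFinset_apply _ _ _ (MeasurableSet.of_discrete),
    tsum_eq_sum (s := S.powerset), ENNReal.ofReal_sum_of_nonneg (fun ω _ => h0 ω),
    Finset.sum_filter]
  · refine Finset.sum_congr rfl fun ω _ => ?_
    simp only [Set.indicator, Set.mem_ofPred_eq]
  · intro ω hω
    simp only [Set.indicator]
    split_ifs
    · exact e2 ω hω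
    · rfl

/-- the sites which are hit at the block `i` when the family `G` lies in the set -/
def TT (p : ℕ → ℝ) (J : ℕ) (G : Finset ℕ) (i : ℕ) : Set (Finset ℕ) :=
  {F | ∀ n ∈ G, blk J n = i → n ∈ F ∧ p n ≠ 0 ∧ J ≤ Nat.log 2 n}

/-- the random set -/
def RA (p : ℕ → ℝ) (J : ℕ) (ω : ℕ → Finset ℕ) : Set ℕ :=
  {n | n ∈ ω (blk J n) ∧ p n ≠ 0 ∧ J ≤ Nat.log 2 n}

theorem ev_eq (p : ℕ → ℝ) (J : ℕ) (G : Finset ℕ) :
    {ω : ℕ → Finset ℕ | ∀ n ∈ G, n ∈ RA p J ω} =
      ((G.image (blk J) : Finset ℕ) : Set ℕ).pi (TT p J G) := by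
  ext ω
  simp only [Set.mem_ofPred_eq, Set.mem_pi, Finset.coe_image, Set.mem_image, Finset.mem_coe,
    forall_exists_index, and_imp, forall_apply_eq_imp_iff₂, TT, RA]
  constructor
  · intro h a _ n hn hna
    have := h n hn
    rw [hna] at this
    exact this
  · intro h n hn
    exact h n hn n hn rfl

theorem exists_model {p : ℕ → ℝ} {J : ℕ} (hp : Weight p J) :
    ∃ (Ω : Type) (_ : MeasurableSpace Ω) (μ : Measure Ω) (_ : IsProbabilityMeasure μ)
      (A : Ω → Set ℕ) (P : Finset ℕ → ℝ), Model p J μ A P := by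
  classical
  choose w hw0 hw1 hw2 hw3 using fun i => exists_law_site hp i
  choose m hm hmQ using fun i => exists_prob (sites p J i) (w i) (hw0 i) (hw1 i) (hw2 i)
  have key : ∀ G : Finset ℕ, (Measure.infinitePi m) {ω : ℕ → Finset ℕ | ∀ n ∈ G, n ∈ RA p J ω} =
      ∏ i ∈ G.image (blk J), m i (TT p J G i) := by
    intro G
    rw [ev_eq, Measure.infinitePi_pi m (fun i _ => MeasurableSet.of_discrete)]
  refine ⟨ℕ → Finset ℕ, inferInstance, Measure.infinitePi m, inferInstance, RA p J,
    fun G => (Measure.infinitePi m).real {ω | ∀ n ∈ G, n ∈ RA p J ω}, ?_, ?_, ?_, ?_, ?_, ?_⟩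
  · intro n
    exact (measurable_pi_apply (blk J n)) (t := {F | n ∈ F ∧ p n ≠ 0 ∧ J ≤ Nat.log 2 n})
      MeasurableSet.of_discrete
  · intro ω n hn
    exact hn.2
  · have h1 : ∀ i, ∀ᵐ ω ∂(Measure.infinitePi m), ω i ⊆ sites p J i ∧ (IsBlk J i → ω i ≠ ∅) := by
      intro i
      have h2 : m i {F | ¬ (F ⊆ sites p J i ∧ (IsBlk J i → F ≠ ∅))} = 0 := by
        rw [hmQ i, ENNReal.ofReal_eq_zero]
        refine le_of_eq (Finset.sum_eq_zero fun F hF => ?_)
        rw [mem_filter, mem_powerset] at hF
        have h3 : ¬ (IsBlk J i → F ≠ ∅) := fun h => hF.2 ⟨hF.1, h⟩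
        push Not at h3
        rw [h3.2]
        exact (hw3 i h3.1).1
      have h4 : (Measure.infinitePi m) {ω | ¬ (ω i ⊆ sites p J i ∧ (IsBlk J i → ω i ≠ ∅))} = 0 := by
        have h5 := Measure.infinitePi_map_eval m i
        rw [← h5, Measure.map_apply (measurable_pi_apply i) MeasurableSet.of_discrete] at h2
        exact h2
      exact h4
    have h2 := ae_all_iff.2 h1
    filter_upwards [h2] with ω hω i hi
    obtain ⟨n, hn⟩ := Finset.nonempty_iff_ne_empty.2 ((hω i).2 hi)
    have hn' := (hω i).1 hn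
    rw [sites_of hi, mem_filter, mem_Ico] at hn'
    obtain ⟨hb, hl⟩ := blk_of_mem hp.hJ hi hn'.1.1 hn'.1.2
    refine ⟨n, ⟨?_, hn'.2, ?_⟩, hb⟩
    · rw [hb]
      exact hn
    · rw [hl]
      exact hi.1
  · intro G
    rfl
  · intro G G' hd
    simp only [Measure.real]
    rw [key, key, key, ← ENNReal.toReal_mul]
    congr 1
    rw [Finset.image_union, Finset.prod_union hd]
    congr 1
    · refine Finset.prod_congr rfl fun i hi => ?_
      congr 1
      ext F
      simp only [TT, Set.mem_ofPred_eq, mem_union]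
      constructor
      · intro h n hn
        exact h n (Or.inl hn)
      · rintro h n (hn | hn) hb
        · exact h n hn hb
        · exfalso
          rw [Finset.disjoint_left] at hd
          exact hd hi (hb ▸ Finset.mem_image_of_mem _ hn)
    · refine Finset.prod_congr rfl fun i hi => ?_
      congr 1
      ext F
      simp only [TT, Set.mem_ofPred_eq, mem_union]
      constructor
      · intro h n hn
        exact h n (Or.inr hn)
      · rintro h n (hn | hn) hb
        · exfalso
          rw [Finset.disjoint_left] at hd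
          exact hd (hb ▸ Finset.mem_image_of_mem _ hn) hi
        · exact h n hn hb
  · intro i hi G hG hk
    simp only [Measure.real]
    rw [key]
    rcases G.eq_empty_or_nonempty with rfl | hne
    · simp
    · have himg : G.image (blk J) = {i} := by
        ext a
        rw [mem_image, mem_singleton]
        constructor
        · rintro ⟨n, hn, rfl⟩
          exact hG n hn
        · rintro rfl
          obtain ⟨n, hn⟩ := hne
          exact ⟨n, hn, hG n hn⟩
      rw [himg, Finset.prod_singleton]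
      by_cases hz : ∀ n ∈ G, p n ≠ 0
      · have hlev : ∀ n ∈ G, J ≤ Nat.log 2 n := by
          intro n hn
          by_contra hlt
          push Not at hlt
          have := hG n hn
          rw [blk_small hlt] at this
          have h0 := hi.1
          rw [← this, Nat.log_zero_right] at h0
          have := hp.hJ
          omega
        have hsub : G ⊆ sites p J i := by
          intro n hn
          have h1 := blk_spec hp.hJ (hlev n hn)
          rw [hG n hn] at h1
          rw [sites_of hi, mem_filter, mem_Ico, h1.2.2.1]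
          exact ⟨⟨h1.1, h1.2.1⟩, hz n hn⟩
        have hT : TT p J G i = {F | G ⊆ F} := by
          ext F
          simp only [TT, Set.mem_ofPred_eq]
          constructor
          · intro h n hn
            exact (h n hn (hG n hn)).1
          · intro h n hn _
            exact ⟨h hn, hz n hn, hlev n hn⟩
        rw [hT, hmQ i, (hw3 i hi).2 G hsub hk, ENNReal.toReal_ofReal]
        exact Finset.prod_nonneg fun n _ => hp.nonneg n
      · push Not at hz
        obtain ⟨n, hn, hn0⟩ := hz
        have hT : TT p J G i = ∅ := by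
          ext F
          simp only [TT, Set.mem_ofPred_eq, Set.mem_empty_iff_false, iff_false]
          intro h
          exact (h n hn (hG n hn)).2.1 hn0
        rw [hT, measure_empty, Finset.prod_eq_zero hn hn0, ENNReal.toReal_zero]

end Pool.Agent.LibBar93
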