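import Pool.Agent.LibBar93.Defs2

/-! Parameters of the construction: the orders `kk`, the blocks `bb`, and the weights. -/

set_option autoImplicit false

namespace Pool.Agent.LibBar93

open Finset

theorem pow_growth (j : ℕ) (hj : 64 ≤ j) : 384 * j ^ 2 ≤ 2 ^ j := by
  induction j, hj using Nat.le_induction with
  | base => norm_num
  | succ a ha ih =>
    have h5 : (a + 1) ^ 2 ≤ 2 * a ^ 2 := by
      have : 64 * a ≤ a * a := Nat.mul_le_mul_right a ha
      nlinarith
    rw [pow_succ 2 a]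
    omega

theorem eight_mul_le (l : ℕ) (hl : 6 ≤ l) : 8 * l ≤ 2 ^ l := by
  induction l, hl using Nat.le_induction with
  | base => norm_num
  | succ a ha ih =>
    rw [pow_succ 2 a]
    omega

theorem four_growth (a : ℕ) (ha : 6 ≤ a) : 5 * a ^ 4 ≤ 256 * 2 ^ a := by
  induction a, ha using Nat.le_induction with
  | base => norm_num
  | succ a ha ih =>
    have h8 : 5 * (a + 1) ^ 2 ≤ 7 * a ^ 2 := by
      have : 6 * a ≤ a * a := Nat.mul_le_mul_right a ha
      nlinarith
    have h9 : (5 * (a + 1) ^ 2) ^ 2 ≤ (7 * a ^ 2) ^ 2 := Nat.pow_le_pow_left h8 2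
    have h10 : (5 * (a + 1) ^ 2) ^ 2 = 25 * (a + 1) ^ 4 := by ring
    have h11 : (7 * a ^ 2) ^ 2 = 49 * a ^ 4 := by ring
    rw [h10, h11] at h9
    rw [pow_succ 2 a]
    omega

theorem log2_ge {j : ℕ} (hj : 64 ≤ j) : 6 ≤ Nat.log 2 j :=
  Nat.le_log_of_pow_le (by norm_num) (by omega)

theorem le_kk_mul {j : ℕ} (hj : 64 ≤ j) : j ≤ kk j * Nat.log 2 j := by
  have h := log2_ge hj
  unfold kk
  have h1 := Nat.lt_mul_div_succ j (show 0 < Nat.log 2 j by omega)
  calc j ≤ Nat.log 2 j * (j / Nat.log 2 j + 1) := h1.le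
    _ = _ := by ring

theorem kk_pow {j : ℕ} (hj : 64 ≤ j) : 2 ^ j ≤ j ^ kk j := by
  have h1 : 2 ^ Nat.log 2 j ≤ j := Nat.pow_log_le_self 2 (by omega)
  calc 2 ^ j ≤ 2 ^ (kk j * Nat.log 2 j) := Nat.pow_le_pow_right (by norm_num) (le_kk_mul hj)
    _ = (2 ^ Nat.log 2 j) ^ kk j := by rw [mul_comm, pow_mul]
    _ ≤ j ^ kk j := Nat.pow_le_pow_left h1 _

theorem kk_le {j : ℕ} (hj : 64 ≤ j) : kk j ≤ j / 6 + 1 := by
  unfold kk
  have h := log2_ge hj
  have := Nat.div_le_div_left h (show 0 < 6 by norm_num) (a := j)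
  omega

theorem le_bb (j : ℕ) : 32 * (2 * kk j + 1) * (j + 1) ≤ bb j :=
  Nat.le_pow_clog (by norm_num) _

theorem bb_le_two_mul {j : ℕ} (hj : 64 ≤ j) : bb j ≤ 2 * (32 * (2 * kk j + 1) * (j + 1)) := by
  unfold bb
  set x := 32 * (2 * kk j + 1) * (j + 1) with hx
  have hx1 : 1 < x := by
    have : 1 ≤ (2 * kk j + 1) * (j + 1) := Nat.one_le_iff_ne_zero.2 (by positivity)
    calc 1 < 32 * 1 := by norm_num
      _ ≤ 32 * ((2 * kk j + 1) * (j + 1)) := Nat.mul_le_mul_left _ this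
      _ = x := (mul_assoc _ _ _).symm
  have h1 := Nat.pow_pred_clog_lt_self (show 1 < 2 by norm_num) hx1
  have h2 : 0 < Nat.clog 2 x := Nat.clog_pos (by norm_num) hx1
  obtain ⟨c, hc⟩ : ∃ c, Nat.clog 2 x = c + 1 := ⟨Nat.clog 2 x - 1, by omega⟩
  rw [hc] at h1 ⊢
  have h4 : 2 ^ c < x := h1
  rw [pow_succ, mul_comm]
  exact Nat.mul_le_mul_left 2 h4.le

theorem bb_crude {j : ℕ} (hj : 64 ≤ j) : bb j ≤ 1000 * j ^ 2 := by
  have h1 := bb_le_two_mul hj
  have h2 := kk_le hj
  have h3 : kk j ≤ j := by omega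
  calc bb j ≤ 2 * (32 * (2 * kk j + 1) * (j + 1)) := h1
    _ ≤ 2 * (32 * (3 * j) * (2 * j)) := by
        have h4 : 2 * kk j + 1 ≤ 3 * j := by omega
        have h5 : j + 1 ≤ 2 * j := by omega
        gcongr
    _ = 384 * j ^ 2 := by ring
    _ ≤ 1000 * j ^ 2 := Nat.mul_le_mul_right _ (by norm_num)

theorem bb_dvd {j : ℕ} (hj : 64 ≤ j) : bb j ∣ 2 ^ j := by
  unfold bb
  apply Nat.pow_dvd_pow
  apply Nat.clog_le_of_le_pow
  have h2 := kk_le hj
  have h3 : 384 * j ^ 2 ≤ 2 ^ j := pow_growth j hj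
  refine le_trans ?_ h3
  calc 32 * (2 * kk j + 1) * (j + 1) ≤ 32 * (3 * j) * (2 * j) := by
        have h4 : 2 * kk j + 1 ≤ 3 * j := by omega
        have h5 : j + 1 ≤ 2 * j := by omega
        gcongr
    _ = 192 * j ^ 2 := by ring
    _ ≤ 384 * j ^ 2 := Nat.mul_le_mul_right _ (by norm_num)

theorem log_le_two_mul_log2 {j : ℕ} (hj : 2 ≤ j) :
    Real.log (j : ℝ) ≤ 2 * Real.log 2 * (Nat.log 2 j : ℝ) := by
  have h1 : j < 2 ^ (Nat.log 2 j + 1) := Nat.lt_pow_succ_log_self (by norm_num) j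
  have h2 : 1 ≤ Nat.log 2 j := Nat.le_log_of_pow_le (by norm_num) (by omega)
  have h3 : (j : ℝ) ≤ (2 : ℝ) ^ (2 * Nat.log 2 j) := by
    have h4 : j ≤ 2 ^ (2 * Nat.log 2 j) :=
      h1.le.trans (Nat.pow_le_pow_right (by norm_num) (by omega))
    exact_mod_cast h4
  have h5 : (0 : ℝ) < (j : ℝ) := by
    have : 0 < j := by omega
    exact_mod_cast this
  have h6 := Real.log_le_log h5 h3
  rw [Real.log_pow] at h6
  push_cast at h6
  linarith

/-- the blocks are short -/
theorem bb_le_log {j : ℕ} (hj : 64 ≤ j) : (bb j : ℝ) ≤ 1000 * (j : ℝ) ^ 2 / Real.log j := by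
  have hj' : (64 : ℝ) ≤ (j : ℝ) := by exact_mod_cast hj
  have hlog : 0 < Real.log (j : ℝ) := Real.log_pos (by linarith)
  have h2 : (bb j : ℝ) ≤ 2 * (32 * (2 * (kk j : ℝ) + 1) * ((j : ℝ) + 1)) := by
    exact_mod_cast bb_le_two_mul hj
  generalize (bb j : ℝ) = B at h2 ⊢
  have h3 : (kk j : ℝ) ≤ (j : ℝ) / (Nat.log 2 j : ℝ) + 1 := by
    unfold kk
    push_cast
    have : ((j / Nat.log 2 j : ℕ) : ℝ) ≤ (j : ℝ) / (Nat.log 2 j : ℝ) := Nat.cast_div_le
    linarith
  have hl6 : (6 : ℝ) ≤ (Nat.log 2 j : ℝ) := by exact_mod_cast log2_ge hj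
  have hl2 := Real.log_two_lt_d9
  have h4 := log_le_two_mul_log2 (show 2 ≤ j by omega)
  have h5 : Real.log (j : ℝ) ≤ (7 / 5) * (Nat.log 2 j : ℝ) :=
    h4.trans (mul_le_mul_of_nonneg_right (by linarith) (by linarith))
  have h6 : (j : ℝ) / (Nat.log 2 j : ℝ) * Real.log j ≤ (7 / 5) * j := by
    rw [div_mul_eq_mul_div, div_le_iff₀ (by linarith)]
    calc (j : ℝ) * Real.log j ≤ j * ((7 / 5) * (Nat.log 2 j : ℝ)) :=
          mul_le_mul_of_nonneg_left h5 (by linarith)
      _ = (7 / 5) * j * (Nat.log 2 j : ℝ) := by ring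
  have h7 : Real.log (j : ℝ) ≤ j / 4 := by
    have h10 : 8 * Nat.log 2 j ≤ j :=
      (eight_mul_le _ (log2_ge hj)).trans (Nat.pow_log_le_self 2 (by omega))
    have h13 : (8 : ℝ) * (Nat.log 2 j : ℝ) ≤ (j : ℝ) := by exact_mod_cast h10
    linarith
  rw [le_div_iff₀ hlog]
  have h8 : (kk j : ℝ) * Real.log j ≤ (7 / 5) * j + j / 4 := by
    have h10 := mul_le_mul_of_nonneg_right h3 hlog.le
    rw [add_mul, one_mul] at h10
    linarith
  have h9 : (2 * (kk j : ℝ) + 1) * Real.log j ≤ 4 * j := by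
    rw [add_mul, one_mul, mul_assoc]
    linarith
  calc B * Real.log j ≤ 2 * (32 * (2 * (kk j : ℝ) + 1) * ((j : ℝ) + 1)) * Real.log j :=
        mul_le_mul_of_nonneg_right h2 hlog.le
    _ = 64 * ((j : ℝ) + 1) * ((2 * (kk j : ℝ) + 1) * Real.log j) := by ring
    _ ≤ 64 * ((j : ℝ) + 1) * (4 * j) := mul_le_mul_of_nonneg_left h9 (by positivity)
    _ ≤ 1000 * (j : ℝ) ^ 2 := by nlinarith

/-! ### counting coprime integers in a block -/

theorem card_coprime_mul (W i m : ℕ) :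
    #{n ∈ Ico i (i + W * m) | n.Coprime W} = m * Nat.totient W := by
  induction m with
  | zero => simp
  | succ m ih =>
    have h1 : Ico i (i + W * (m + 1)) = Ico i (i + W * m) ∪ Ico (i + W * m) (i + W * m + W) := by
      rw [Finset.Ico_union_Ico_eq_Ico (by omega) (by omega)]
      congr 1
      ring
    rw [h1, Finset.filter_union, Finset.card_union_of_disjoint, ih]
    · have h2 : #{n ∈ Ico (i + W * m) (i + W * m + W) | n.Coprime W} = Nat.totient W := by
        rw [← Nat.filter_coprime_Ico_eq_totient W (i + W * m)]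
        congr 1
        ext n
        simp only [Finset.mem_filter, Nat.coprime_comm]
      rw [h2]
      ring
    · rw [Finset.disjoint_left]
      intro n hn hn'
      rw [Finset.mem_filter, Finset.mem_Ico] at hn hn'
      omega

theorem card_coprime_ge (W i b : ℕ) (hW : 0 < W) (hb : 2 * W ≤ b) (E : ℝ)
    (hE : (W : ℝ) * E = Nat.totient W) :
    (b : ℝ) * E / 2 ≤ #{n ∈ Ico i (i + b) | n.Coprime W} := by
  have h1 : #{n ∈ Ico i (i + W * (b / W)) | n.Coprime W} ≤ #{n ∈ Ico i (i + b) | n.Coprime W} := by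
    apply Finset.card_le_card
    apply Finset.filter_subset_filter
    apply Finset.Ico_subset_Ico_right
    have := Nat.mul_div_le b W
    omega
  rw [card_coprime_mul] at h1
  have h2 : (b : ℝ) ≤ 2 * (W * ((b / W : ℕ) : ℝ)) := by
    have h3 : b < W * (b / W + 1) := Nat.lt_mul_div_succ b hW
    have h4 : 1 ≤ b / W := (Nat.one_le_div_iff hW).2 (by omega)
    have h5 : b ≤ 2 * (W * (b / W)) := by nlinarith
    exact_mod_cast h5
  have h6 : (((b / W) * Nat.totient W : ℕ) : ℝ) ≤ #{n ∈ Ico i (i + b) | n.Coprime W} := by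
    exact_mod_cast h1
  refine le_trans ?_ h6
  push_cast
  rw [← hE]
  have hE0 : 0 ≤ E := by
    by_contra hneg
    push Not at hneg
    have h7 : (W : ℝ) * E < 0 := mul_neg_of_pos_of_neg (by exact_mod_cast hW) hneg
    rw [hE] at h7
    have : (0 : ℝ) ≤ (Nat.totient W : ℝ) := Nat.cast_nonneg _
    linarith
  nlinarith

/-! ### general weights -/

theorem log_bounds {n : ℕ} (hn : 1 ≤ n) :
    (Nat.log 2 n : ℝ) * Real.log 2 ≤ Real.log n ∧
      Real.log n ≤ ((Nat.log 2 n : ℝ) + 1) * Real.log 2 := by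
  have hn0 : (0 : ℝ) < (n : ℝ) := by exact_mod_cast (by omega : 0 < n)
  constructor
  · have h1 : ((2 : ℝ) ^ Nat.log 2 n) ≤ (n : ℝ) := by
      exact_mod_cast Nat.pow_log_le_self 2 (by omega)
    have h2 := Real.log_le_log (by positivity) h1
    rwa [Real.log_pow] at h2
  · have h1 : (n : ℝ) ≤ (2 : ℝ) ^ (Nat.log 2 n + 1) := by
      exact_mod_cast (Nat.lt_pow_succ_log_self (by norm_num) n).le
    have h2 := Real.log_le_log hn0 h1
    rw [Real.log_pow] at h2
    push_cast at h2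
    exact h2

theorem weight_of (W : ℕ → ℕ) (E : ℕ → ℝ) (hW : ∀ j, 0 < W j)
    (hWE : ∀ j, (W j : ℝ) * E j = Nat.totient (W j)) (hE1 : ∀ j, E j ≤ 1)
    (hinv : ∀ j, 3 ≤ j → (E j)⁻¹ ≤ (2 / 3) * j) (hinv4 : ∀ j, 64 ≤ j → 5 * (E j)⁻¹ ^ 4 ≤ j)
    (hWb : ∀ j, 64 ≤ j → 2 * W j ≤ bb j)
    (p : ℕ → ℝ) (hp : ∀ n, p n = if 8 ≤ n ∧ n.Coprime (W (Nat.log 2 n)) then
      (E (Nat.log 2 n))⁻¹ / Real.log n else 0) : Weight p 64 := by
  have hE0 : ∀ j, 0 < E j := by
    intro j
    have h1 : (0 : ℝ) < (Nat.totient (W j) : ℝ) := by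
      exact_mod_cast Nat.totient_pos.2 (hW j)
    have h2 : (0 : ℝ) < (W j : ℝ) := by exact_mod_cast hW j
    rw [← hWE j] at h1
    exact (mul_pos_iff_of_pos_left h2).1 h1
  have hl2 := Real.log_two_gt_d9
  have hl2' := Real.log_two_lt_d9
  have hlog3 : ∀ n, 8 ≤ n → 3 ≤ Nat.log 2 n := fun n hn =>
    Nat.le_log_of_pow_le (by norm_num) (by omega)
  have hlogpos : ∀ n : ℕ, 8 ≤ n → 0 < Real.log (n : ℝ) := by
    intro n hn
    apply Real.log_pos
    have : (8 : ℝ) ≤ (n : ℝ) := by exact_mod_cast hn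
    linarith
  refine ⟨le_rfl, ?_, ?_, ?_, ?_⟩
  · intro n
    rw [hp]
    split_ifs with h
    · exact div_nonneg (inv_nonneg.2 (hE0 _).le) (hlogpos n h.1).le
    · exact le_rfl
  · intro n
    rw [hp]
    split_ifs with h
    · rw [div_le_one (hlogpos n h.1)]
      have h1 := hinv _ (hlog3 n h.1)
      have h2 := (log_bounds (show 1 ≤ n by omega)).1
      have h3 : (0 : ℝ) ≤ (Nat.log 2 n : ℝ) := Nat.cast_nonneg _
      nlinarith
    · exact zero_le_one
  · intro n hn
    rw [hp]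
    split_ifs with h
    · set j := Nat.log 2 n with hj
      have hj0 : (64 : ℝ) ≤ (j : ℝ) := by exact_mod_cast hn
      have h1 := hinv4 j hn
      have h2 := (log_bounds (show 1 ≤ n by omega)).1
      rw [← hj] at h2
      have h3 : (j : ℝ) * (69 / 100) ≤ Real.log n := by nlinarith
      have h4 : ((j : ℝ) * (69 / 100)) ^ 4 ≤ Real.log n ^ 4 :=
        pow_le_pow_left₀ (by positivity) h3 4
      rw [div_pow, div_mul_eq_mul_div, div_le_one (by have := hlogpos n h.1; positivity)]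
      refine le_trans ?_ h4
      have h5 : (E j)⁻¹ ^ 4 ≤ j / 5 := by linarith
      calc (E j)⁻¹ ^ 4 * (j : ℝ) ^ 3 ≤ j / 5 * (j : ℝ) ^ 3 :=
            mul_le_mul_of_nonneg_right h5 (by positivity)
        _ ≤ ((j : ℝ) * (69 / 100)) ^ 4 := by
            have h6 : 0 ≤ (j : ℝ) ^ 4 := by positivity
            nlinarith
    · simp
  · intro j hj
    have hj0 : (64 : ℝ) ≤ (j : ℝ) := by exact_mod_cast hj
    refine ⟨(E j)⁻¹ / (j + 1), ?_, ?_, ?_, ?_⟩
    · have := hE0 j
      positivity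
    · have h1 := hinv4 j hj
      have h2 : 1 ≤ (E j)⁻¹ := (one_le_inv₀ (hE0 j)).2 (hE1 j)
      rw [div_le_iff₀ (by linarith)]
      have h3 : (E j)⁻¹ ≤ (E j)⁻¹ ^ 4 := by
        calc (E j)⁻¹ = (E j)⁻¹ ^ 1 := (pow_one _).symm
          _ ≤ (E j)⁻¹ ^ 4 := pow_le_pow_right₀ h2 (by norm_num)
      linarith
    · intro n hn
      rw [hp, hn]
      split_ifs with h
      · right
        have h1 := (log_bounds (show 1 ≤ n by omega)).2
        rw [hn] at h1
        apply div_le_div_of_nonneg_left (inv_nonneg.2 (hE0 j).le) (hlogpos n h.1)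
        nlinarith
      · exact Or.inl rfl
    · intro i hi hbi
      have hi0 : i ≠ 0 := by
        rintro rfl
        simp at hi
        omega
      -- the block lies in the level `j`
      have hlev : ∀ n ∈ Ico i (i + bb j), Nat.log 2 n = j := by
        intro n hn
        obtain ⟨h1, h2⟩ := Finset.mem_Ico.1 hn
        have h3 : 2 ^ j ≤ i := by rw [← hi]; exact Nat.pow_log_le_self 2 hi0
        have h4 : i < 2 ^ (j + 1) := by rw [← hi]; exact Nat.lt_pow_succ_log_self (by norm_num) i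
        have h5 : bb j ∣ 2 ^ (j + 1) := (bb_dvd hj).trans (Nat.pow_dvd_pow 2 (by omega))
        have h6 : i + bb j ≤ 2 ^ (j + 1) := by
          obtain ⟨u, hu⟩ := hbi
          obtain ⟨v, hv⟩ := h5
          rw [hu, hv] at h4 ⊢
          have h7 : u < v := lt_of_mul_lt_mul_left h4 (Nat.zero_le _)
          calc bb j * u + bb j = bb j * (u + 1) := by ring
            _ ≤ bb j * v := Nat.mul_le_mul_left _ h7
        rw [Nat.log_eq_iff (Or.inr ⟨by norm_num, by omega⟩)]
        omega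
      have h64 : 2 ^ 64 ≤ i := by
        have h3 : 2 ^ j ≤ i := by rw [← hi]; exact Nat.pow_log_le_self 2 hi0
        exact (Nat.pow_le_pow_right (by norm_num) hj).trans h3
      have hcard : #{n ∈ Ico i (i + bb j) | p n ≠ 0}
          = #{n ∈ Ico i (i + bb j) | n.Coprime (W j)} := by
        congr 1
        apply Finset.filter_congr
        intro n hn
        have h1 := hlev n hn
        have h2 : 8 ≤ n := by
          have := (Finset.mem_Ico.1 hn).1
          omega
        rw [hp, h1]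
        constructor
        · intro h3
          by_contra h4
          exact h3 (if_neg (fun h5 => h4 h5.2))
        · intro h3
          rw [if_pos ⟨h2, h3⟩]
          have := hE0 j
          have := hlogpos n h2
          positivity
      rw [hcard]
      have h1 := card_coprime_ge (W j) i (bb j) (hW j) (hWb j hj) (E j) (hWE j)
      have h2 : 32 * (2 * (kk j : ℝ) + 1) * ((j : ℝ) + 1) ≤ (bb j : ℝ) := by
        exact_mod_cast le_bb j
      have h3 : (0 : ℝ) ≤ (E j)⁻¹ / ((j : ℝ) + 1) := by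
        have := hE0 j
        positivity
      refine le_trans ?_ (mul_le_mul_of_nonneg_left h1 h3)
      have h4 : (E j)⁻¹ / ((j : ℝ) + 1) * ((bb j : ℝ) * E j / 2) = (bb j : ℝ) / (2 * ((j : ℝ) + 1)) := by
        have := (hE0 j).ne'
        field_simp
      rw [h4, le_div_iff₀ (by positivity)]
      linarith

/-! ### the flat weight -/

theorem weight_flat : Weight (fun n => if 8 ≤ n then 1 / Real.log n else 0) 64 := by
  refine weight_of (fun _ => 1) (fun _ => 1) (fun _ => one_pos) (fun _ => by simp)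
    (fun _ => le_rfl) ?_ ?_ ?_ _ ?_
  · intro j hj
    have : (3 : ℝ) ≤ (j : ℝ) := by exact_mod_cast hj
    rw [inv_one]; linarith
  · intro j hj
    have : (64 : ℝ) ≤ (j : ℝ) := by exact_mod_cast hj
    norm_num
    linarith
  · intro j hj
    have h1 := le_bb j
    have h2 : 1 ≤ (2 * kk j + 1) * (j + 1) := Nat.one_le_iff_ne_zero.2 (by positivity)
    nlinarith
  · intro n
    simp

/-! ### the density of the primes at small scales -/

theorem euler_succ (t : ℕ) : euler (t + 1)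
    = if (t + 1).Prime then (1 - 1 / ((t + 1 : ℕ) : ℝ)) * euler t else euler t := by
  unfold euler
  rw [Finset.range_add_one (n := t + 1), Finset.filter_insert]
  split_ifs with h
  · rw [Finset.prod_insert]
    simp
  · rfl

theorem euler_zero : euler 0 = 1 := by
  simp [euler, Finset.filter_singleton, Nat.not_prime_zero]

theorem euler_pos (t : ℕ) : 0 < euler t := by
  unfold euler
  refine Finset.prod_pos (fun q hq => ?_)
  have h1 : 1 < q := (Finset.mem_filter.1 hq).2.one_lt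
  have h2 : (1 : ℝ) < q := by exact_mod_cast h1
  have h3 : 1 / (q : ℝ) < 1 := by
    rw [div_lt_one (by linarith)]; exact h2
  linarith

theorem euler_le_one (t : ℕ) : euler t ≤ 1 := by
  unfold euler
  refine Finset.prod_le_one (fun q hq => ?_) (fun q hq => ?_)
  · have h1 : 1 < q := (Finset.mem_filter.1 hq).2.one_lt
    have h2 : (1 : ℝ) < q := by exact_mod_cast h1
    have h3 : 1 / (q : ℝ) < 1 := by
      rw [div_lt_one (by linarith)]; exact h2
    linarith
  · have : (0 : ℝ) ≤ 1 / (q : ℝ) := by positivity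
    linarith

theorem euler_ge (t : ℕ) : 1 / ((t : ℝ) + 1) ≤ euler (t + 1) := by
  induction t with
  | zero =>
    have h1 : euler (0 + 1) = 1 := by
      rw [euler_succ, euler_zero]
      simp [Nat.not_prime_one]
    rw [h1]; norm_num
  | succ t ih =>
    rw [euler_succ]
    have ht : (0 : ℝ) ≤ (t : ℝ) := Nat.cast_nonneg t
    split_ifs with h
    · push_cast
      have h1 : (1 : ℝ) - 1 / ((t : ℝ) + 1 + 1) = ((t : ℝ) + 1) / ((t : ℝ) + 1 + 1) := by
        field_simp; ring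
      rw [h1]
      have h2 := mul_le_mul_of_nonneg_left ih
        (by positivity : (0 : ℝ) ≤ ((t : ℝ) + 1) / ((t : ℝ) + 1 + 1))
      refine le_trans (le_of_eq ?_) h2
      field_simp
    · refine le_trans ?_ ih
      push_cast
      apply one_div_le_one_div_of_le <;> linarith

theorem inv_euler_le (t : ℕ) : (euler t)⁻¹ ≤ max 1 (t : ℝ) := by
  cases t with
  | zero => rw [euler_zero]; simp
  | succ t =>
    have h1 := euler_ge t
    have h2 : (0 : ℝ) < (t : ℝ) + 1 := by positivity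
    have h3 : (euler (t + 1))⁻¹ ≤ (t : ℝ) + 1 := by
      rw [inv_le_comm₀ (euler_pos _) h2, ← one_div]
      exact h1
    push_cast
    exact h3.trans (le_max_right _ _)

theorem totient_primorial (t : ℕ) : ((primorial t : ℕ) : ℝ) * euler t = Nat.totient (primorial t) := by
  have h1 : (primorial t).primeFactors = (Finset.range (t + 1)).filter Nat.Prime := by
    unfold primorial
    exact Nat.primeFactors_prod (fun q hq => (Finset.mem_filter.1 hq).2)
  have h2 := Nat.totient_eq_mul_prod_factors (primorial t)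
  rw [h1] at h2
  have h3 : ((Nat.totient (primorial t) : ℚ) : ℝ) = ((primorial t *
    ∏ p ∈ (Finset.range (t + 1)).filter Nat.Prime, (1 - (p : ℚ)⁻¹) : ℚ) : ℝ) := by rw [h2]
  push_cast at h3
  rw [h3]
  unfold euler
  simp only [one_div]

theorem weight_dens : Weight dens 64 := by
  refine weight_of (fun j => primorial (Nat.log 2 j / 4)) (fun j => euler (Nat.log 2 j / 4))
    (fun j => primorial_pos _) (fun j => totient_primorial _) (fun j => euler_le_one _)
    ?_ ?_ ?_ _ ?_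
  · intro j hj
    have hj3 : (3 : ℝ) ≤ (j : ℝ) := by exact_mod_cast hj
    refine (inv_euler_le _).trans (max_le (by linarith) ?_)
    have h1 : Nat.log 2 j / 4 ≤ j / 4 := Nat.div_le_div_right (Nat.log_le_self 2 j)
    have h2 : ((Nat.log 2 j / 4 : ℕ) : ℝ) ≤ (j : ℝ) / 4 := by
      calc ((Nat.log 2 j / 4 : ℕ) : ℝ) ≤ ((j / 4 : ℕ) : ℝ) := by exact_mod_cast h1
        _ ≤ (j : ℝ) / 4 := Nat.cast_div_le
    linarith
  · intro j hj
    have hj64 : (64 : ℝ) ≤ (j : ℝ) := by exact_mod_cast hj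
    have h1 : (0 : ℝ) ≤ (euler (Nat.log 2 j / 4))⁻¹ := inv_nonneg.2 (euler_pos _).le
    have h2 := pow_le_pow_left₀ h1 (inv_euler_le (Nat.log 2 j / 4)) 4
    have h3 : (max 1 ((Nat.log 2 j / 4 : ℕ) : ℝ)) ^ 4 ≤ (j : ℝ) / 5 := by
      rcases le_total ((Nat.log 2 j / 4 : ℕ) : ℝ) 1 with h | h
      · rw [max_eq_left h]; linarith
      · rw [max_eq_right h]
        have h4 : ((Nat.log 2 j / 4 : ℕ) : ℝ) ≤ (Nat.log 2 j : ℝ) / 4 := Nat.cast_div_le
        have h5 : ((Nat.log 2 j / 4 : ℕ) : ℝ) ^ 4 ≤ ((Nat.log 2 j : ℝ) / 4) ^ 4 :=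
          pow_le_pow_left₀ (by positivity) h4 4
        have h7 : 5 * (Nat.log 2 j) ^ 4 ≤ 256 * j := by
          have h8 : 2 ^ Nat.log 2 j ≤ j := Nat.pow_log_le_self 2 (by omega)
          calc 5 * (Nat.log 2 j) ^ 4 ≤ 256 * 2 ^ Nat.log 2 j := four_growth _ (log2_ge hj)
            _ ≤ 256 * j := Nat.mul_le_mul_left _ h8
        have h8 : 5 * (Nat.log 2 j : ℝ) ^ 4 ≤ 256 * (j : ℝ) := by exact_mod_cast h7
        have h9 : ((Nat.log 2 j : ℝ) / 4) ^ 4 = (Nat.log 2 j : ℝ) ^ 4 / 256 := by ring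
        rw [h9] at h5
        linarith
    linarith
  · intro j hj
    have h1 : primorial (Nat.log 2 j / 4) ≤ 4 ^ (Nat.log 2 j / 4) := primorial_le_four_pow _
    have h2 : 4 ^ (Nat.log 2 j / 4) ≤ 2 ^ Nat.log 2 j := by
      calc 4 ^ (Nat.log 2 j / 4) = 2 ^ (2 * (Nat.log 2 j / 4)) := by rw [pow_mul]; norm_num
        _ ≤ 2 ^ Nat.log 2 j := Nat.pow_le_pow_right (by norm_num) (by omega)
    have h3 : 2 ^ Nat.log 2 j ≤ j := Nat.pow_log_le_self 2 (by omega)
    have h4 := le_bb j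
    have h5 : 2 * j ≤ 32 * (2 * kk j + 1) * (j + 1) := by
      have h6 : 1 ≤ 2 * kk j + 1 := by omega
      nlinarith
    change 2 * primorial (Nat.log 2 j / 4) ≤ bb j
    omega
  · intro n
    rfl

theorem bb_le : ∃ C : ℝ, 0 < C ∧ ∀ j : ℕ, 64 ≤ j →
    (bb j : ℝ) ≤ C * (j : ℝ) ^ 2 / Real.log j :=
  ⟨1000, by norm_num, fun _ hj => bb_le_log hj⟩

end Pool.Agent.LibBar93
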